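import Mathlib

/-!
# Multiplicative relations with products of unrelated numbers
-/

set_option autoImplicit false

namespace Pool.Agent.Q306.TP

open Finset

section rel

variable {L : Type*} [Field L] {X : Type*} [Fintype X]

/-- A multiple of `f` is a relation between the numbers `v x`, up to a root of unity. -/
def Rel (v : X → L) (f : X → ℚ) : Prop :=
  ∃ (N : ℕ) (m : X → ℤ) (s : ℕ), 0 < N ∧ 0 < s ∧ (∀ x, (m x : ℚ) = N * f x) ∧
    (∏ x, v x ^ m x) ^ s = 1

theorem Rel.zero (v : X → L) : Rel v 0 := by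
  refine ⟨1, 0, 1, one_pos, one_pos, fun x => by simp, by simp⟩

theorem Rel.add {v : X → L} (hv : ∀ x, v x ≠ 0) {f g : X → ℚ} (hf : Rel v f) (hg : Rel v g) :
    Rel v (f + g) := by
  obtain ⟨N, m, s, hN, hs, h1, h2⟩ := hf
  obtain ⟨N', m', s', hN', hs', h1', h2'⟩ := hg
  refine ⟨N * N', fun x => N' * m x + N * m' x, s * s', Nat.mul_pos hN hN', Nat.mul_pos hs hs',
    fun x => ?_, ?_⟩
  · push_cast
    rw [h1, h1', Pi.add_apply]
    ring
  · have e1 : ∏ x, v x ^ ((N' : ℤ) * m x + (N : ℤ) * m' x) =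
        (∏ x, v x ^ m x) ^ N' * (∏ x, v x ^ m' x) ^ N := by
      rw [← Finset.prod_pow, ← Finset.prod_pow, ← Finset.prod_mul_distrib]
      refine Finset.prod_congr rfl fun x _ => ?_
      rw [zpow_add₀ (hv x), mul_comm (N' : ℤ), mul_comm (N : ℤ), zpow_mul, zpow_mul, zpow_natCast,
        zpow_natCast]
    rw [e1, mul_pow]
    have e2 : ((∏ x, v x ^ m x) ^ N') ^ (s * s') = 1 := by
      rw [← pow_mul, show N' * (s * s') = s * (N' * s') by ring, pow_mul, h2, one_pow]
    have e3 : ((∏ x, v x ^ m' x) ^ N) ^ (s * s') = 1 := by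
      rw [← pow_mul, show N * (s * s') = s' * (N * s) by ring, pow_mul, h2', one_pow]
    rw [e2, e3, one_mul]

theorem Rel.smul {v : X → L} {f : X → ℚ} (c : ℚ) (hf : Rel v f) : Rel v (c • f) := by
  obtain ⟨N, m, s, hN, hs, h1, h2⟩ := hf
  refine ⟨N * c.den, fun x => c.num * m x, s, Nat.mul_pos hN c.den_pos, hs, fun x => ?_, ?_⟩
  · push_cast
    rw [h1, Pi.smul_apply, smul_eq_mul]
    have h3 : (c.den : ℚ) * c = c.num := by rw [mul_comm]; exact Rat.mul_den_eq_num c
    calc (c.num : ℚ) * (N * f x) = (N : ℚ) * (c.num : ℚ) * f x := by ring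
      _ = (N : ℚ) * ((c.den : ℚ) * c) * f x := by rw [h3]
      _ = _ := by ring
  · have e1 : ∏ x, v x ^ (c.num * m x) = (∏ x, v x ^ m x) ^ c.num := by
      rw [← Finset.prod_zpow]
      refine Finset.prod_congr rfl fun x _ => ?_
      rw [mul_comm, zpow_mul]
    rw [e1, ← zpow_natCast, ← zpow_mul, mul_comm, zpow_mul, zpow_natCast, h2, one_zpow]

/-- The odd relations. -/
def RR (v : X → L) (hv : ∀ x, v x ≠ 0) (bar : X → X) : Submodule ℚ (X → ℚ) where
  carrier := {f | (∀ x, f (bar x) = -f x) ∧ Rel v f}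
  add_mem' := by
    rintro f g ⟨h1, h2⟩ ⟨h3, h4⟩
    refine ⟨fun x => ?_, h2.add hv h4⟩
    rw [Pi.add_apply, Pi.add_apply, h1, h3]
    ring
  zero_mem' := ⟨fun _ => by simp, Rel.zero v⟩
  smul_mem' := by
    rintro c f ⟨h1, h2⟩
    refine ⟨fun x => ?_, h2.smul c⟩
    rw [Pi.smul_apply, Pi.smul_apply, h1, smul_neg]

/-- The scalar product. -/
def dot (f g : X → ℚ) : ℚ := ∑ x, f x * g x

theorem dot_comm (f g : X → ℚ) : dot f g = dot g f :=
  Finset.sum_congr rfl fun x _ => mul_comm _ _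

/-- Orthogonal decomposition with respect to the scalar product. -/
theorem exists_decomp (R : Submodule ℚ (X → ℚ)) (n : X → ℚ) :
    ∃ n' : X → ℚ, n - n' ∈ R ∧ ∀ f ∈ R, dot f n' = 0 := by
  classical
  let B : LinearMap.BilinForm ℚ (X → ℚ) := LinearMap.mk₂ ℚ (fun f g => dot f g)
    (fun f f' g => by
      simp only [dot, Pi.add_apply, add_mul, Finset.sum_add_distrib])
    (fun c f g => by
      simp only [dot, Pi.smul_apply, smul_eq_mul, Finset.mul_sum, mul_assoc])
    (fun f g g' => by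
      simp only [dot, Pi.add_apply, mul_add, Finset.sum_add_distrib])
    (fun c f g => by
      simp only [dot, Pi.smul_apply, smul_eq_mul, Finset.mul_sum]
      exact Finset.sum_congr rfl fun x _ => by ring)
  have hB : ∀ f g, B f g = dot f g := fun f g => rfl
  have hrefl : B.IsRefl := fun f g h => by
    rw [hB] at h ⊢
    rw [dot_comm, h]
  have hnd : (B.restrict R).Nondegenerate := by
    have hsep : ∀ f : R, (∀ g : R, B.restrict R f g = 0) → f = 0 := by
      intro f hf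
      have h1 : dot (f : X → ℚ) f = 0 := hf f
      have h2 : ∀ x, (f : X → ℚ) x = 0 := by
        intro x
        have h3 := (Finset.sum_eq_zero_iff_of_nonneg (fun y _ => mul_self_nonneg _)).1 h1 x
          (Finset.mem_univ x)
        exact mul_self_eq_zero.1 h3
      exact Subtype.ext (funext h2)
    have hr2 : (B.restrict R).IsRefl := fun f g h => hrefl _ _ h
    exact (LinearMap.IsRefl.nondegenerate_iff_separatingLeft hr2).2 hsep
  have hc := LinearMap.BilinForm.isCompl_orthogonal_of_restrict_nondegenerate hrefl hnd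
  have hn : n ∈ R ⊔ B.orthogonal R := by
    rw [hc.sup_eq_top]
    exact Submodule.mem_top
  obtain ⟨y, hy, z, hz, hyz⟩ := Submodule.mem_sup.1 hn
  refine ⟨z, ?_, fun f hf => ?_⟩
  · rw [← hyz, add_sub_cancel_right]
    exact hy
  · exact hz f hf

end rel

section core

theorem zpow_sum_eq {L : Type*} [Field L] {b : L} (hb : b ≠ 0) {ι : Type*} (s : Finset ι)
    (e : ι → ℤ) : ∏ i ∈ s, b ^ e i = b ^ ∑ i ∈ s, e i := by
  classical
  induction s using Finset.induction_on with
  | empty => simp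
  | insert i s hi ih => rw [Finset.prod_insert hi, Finset.sum_insert hi, zpow_add₀ hb, ih]

/-- The odd part of a relation and its square. -/
theorem sq_rel {L : Type*} [Field L] {X : Type*} [Fintype X] {q : L} (hq0 : q ≠ 0) {v : X → L}
    (hv : ∀ x, v x ≠ 0) {bar : X → X} (hbb : ∀ x, bar (bar x) = x)
    (hvb : ∀ x, v x * v (bar x) = q) (cnt : X → ℤ) :
    (∏ x, v x ^ (cnt x - cnt (bar x))) * q ^ (∑ x, cnt x) = (∏ x, v x ^ cnt x) ^ 2 := by
  have hPb : (∏ y, v y ^ cnt y) * ∏ y, v y ^ cnt (bar y) = q ^ ∑ y, cnt y := by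
    have h1 : ∏ y, v y ^ cnt (bar y) = ∏ y, v (bar y) ^ cnt y := by
      let eb : Equiv.Perm X := ⟨bar, bar, hbb, hbb⟩
      rw [← Equiv.prod_comp eb (fun y => v y ^ cnt (bar y))]
      refine Finset.prod_congr rfl fun y _ => ?_
      change v (bar y) ^ cnt (bar (bar y)) = _
      rw [hbb]
    rw [h1, ← Finset.prod_mul_distrib, ← zpow_sum_eq hq0]
    refine Finset.prod_congr rfl fun y _ => ?_
    rw [← mul_zpow, hvb]
  have h1 : ∏ y, v y ^ (cnt y - cnt (bar y)) = (∏ y, v y ^ cnt y) / ∏ y, v y ^ cnt (bar y) := by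
    rw [← Finset.prod_div_distrib]
    exact Finset.prod_congr rfl fun y _ => zpow_sub₀ (hv y) _ _
  have h2 : (∏ y, v y ^ cnt (bar y)) ≠ 0 :=
    Finset.prod_ne_zero_iff.2 fun y _ => zpow_ne_zero _ (hv y)
  rw [h1, ← hPb]
  field_simp

variable {L : Type*} [Field L] {G : Type*} [Group G] [Fintype G] [MulSemiringAction G L]
  {X : Type*} [Fintype X] [MulAction G X]

omit [Fintype G] in
theorem smul_ne {b : L} (hb : b ≠ 0) (σ : G) : σ • b ≠ 0 := fun h => hb (by
  have h1 := congrArg (fun x => σ⁻¹ • x) h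
  simpa using h1)

omit [Fintype G] in
theorem smul_zpow' (σ : G) (b : L) (k : ℤ) : σ • (b ^ k) = (σ • b) ^ k :=
  map_zpow₀ (MulSemiringAction.toRingHom G L σ) b k

omit [Fintype G] in
theorem smul_prod' (σ : G) {ι : Type*} (s : Finset ι) (f : ι → L) :
    σ • (∏ i ∈ s, f i) = ∏ i ∈ s, σ • f i :=
  map_prod (MulSemiringAction.toRingHom G L σ) f s

/-- If the sums of `e` over the left cosets of `H` vanish and `H` fixes `b`, then the product of the
`σ b ^ e σ` is a root of unity. -/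
theorem prod_of_coset (H : Subgroup G) [Fintype H] (b : L) (hb0 : b ≠ 0) (hb : ∀ h ∈ H, h • b = b)
    (e : G → ℤ) (he : ∀ τ : G, ∑ h : H, e (τ * h) = 0) :
    (∏ σ : G, (σ • b) ^ e σ) ^ Nat.card H = 1 := by
  classical
  have h1 : ∀ h : H, ∏ σ : G, (σ • b) ^ e σ = ∏ σ : G, (σ • b) ^ e (σ * h) := by
    intro h
    rw [← Equiv.prod_comp (Equiv.mulRight (h : G)) (fun σ => (σ • b) ^ e σ)]
    refine Finset.prod_congr rfl fun σ _ => ?_
    rw [Equiv.coe_mulRight, mul_smul, hb _ h.2]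
  rw [Nat.card_eq_fintype_card, ← Finset.card_univ, ← Finset.prod_const,
    Finset.prod_congr rfl fun h _ => h1 h, Finset.prod_comm]
  refine Finset.prod_eq_one fun σ _ => ?_
  rw [zpow_sum_eq (smul_ne hb0 σ), he, zpow_zero]

/-- The functional `f ↦ ∏ σ, (σ b) ^ e σ`. -/
def norm' (e : G → ℤ) (b : L) : L := ∏ σ : G, (σ • b) ^ e σ

theorem norm'_mul (e : G → ℤ) (b b' : L) : norm' e (b * b') = norm' e b * norm' e b' := by
  simp only [norm', smul_mul', mul_zpow, Finset.prod_mul_distrib]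

theorem norm'_zpow (e : G → ℤ) (b : L) (k : ℤ) : norm' e (b ^ k) = norm' e b ^ k := by
  simp only [norm']
  rw [← Finset.prod_zpow]
  refine Finset.prod_congr rfl fun σ _ => ?_
  rw [smul_zpow', ← zpow_mul, ← zpow_mul, mul_comm]

theorem norm'_pow (e : G → ℤ) (b : L) (k : ℕ) : norm' e (b ^ k) = norm' e b ^ k := by
  have h := norm'_zpow e b k
  rwa [zpow_natCast, zpow_natCast] at h

theorem norm'_prod (e : G → ℤ) {ι : Type*} (s : Finset ι) (f : ι → L) :
    norm' e (∏ i ∈ s, f i) = ∏ i ∈ s, norm' e (f i) := by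
  classical
  simp only [norm']
  rw [Finset.prod_comm]
  refine Finset.prod_congr rfl fun σ _ => ?_
  rw [smul_prod', Finset.prod_zpow]

theorem norm'_fixed (e : G → ℤ) {q : L} (hq0 : q ≠ 0) (hq : ∀ σ : G, σ • q = q)
    (he : ∑ σ : G, e σ = 0) : norm' e q = 1 := by
  have h1 : norm' e q = ∏ σ : G, q ^ e σ := Finset.prod_congr rfl fun σ _ => by rw [hq]
  rw [h1, zpow_sum_eq hq0, he, zpow_zero]

/-- **Core.** If a product of powers of the `v x` is, up to `q`, the product of numbers `a l` and the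
odd functions on `X` fixed by the stabilizer of (a power of) `a l` vanish, then the odd part of the
relation is itself a relation. -/
theorem core {q : L} (hq0 : q ≠ 0) (hqG : ∀ σ : G, σ • q = q) {v : X → L} (hv : ∀ x, v x ≠ 0)
    (hvσ : ∀ (σ : G) x, v (σ • x) = σ • v x) {bar : X → X} (hbb : ∀ x, bar (bar x) = x)
    (hvb : ∀ x, v x * v (bar x) = q) (hbσ : ∀ (σ : G) x, bar (σ • x) = σ • bar x) {c : G}
    (hc : ∀ x, c • x = bar x) {ι : Type*} [Fintype ι] {a : ι → L} (ha0 : ∀ l, a l ≠ 0)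
    (H : ι → Subgroup G) (hH : ∀ l, ∃ M : ℕ, 0 < M ∧ ∀ h ∈ H l, h • (a l ^ M) = a l ^ M)
    (hun : ∀ l, ∀ f : X → ℚ, (∀ x, f (bar x) = -f x) → (∀ h ∈ H l, ∀ x, f (h • x) = f x) → f = 0)
    (cnt : X → ℤ) {N : ℕ} (hN : 0 < N) (r : ℤ)
    (hrel : (∏ l, a l) ^ N * q ^ r = (∏ x, v x ^ cnt x) ^ N) :
    ∃ s : ℕ, 0 < s ∧ (∏ x, v x ^ (cnt x - cnt (bar x))) ^ s = 1 := by
  classical
  set n : X → ℤ := fun x => cnt x - cnt (bar x) with hn
  set nq : X → ℚ := fun x => (n x : ℚ) with hnq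
  have hnodd : ∀ x, nq (bar x) = -nq x := by
    intro x
    simp only [hnq, hn, hbb]
    push_cast
    ring
  obtain ⟨n', hn'R, hn'⟩ := exists_decomp (RR v hv bar) nq
  have hn'odd : ∀ x, n' (bar x) = -n' x := by
    intro x
    have h1 := hn'R.1 x
    simp only [Pi.sub_apply] at h1
    rw [hnodd] at h1
    linarith
  -- it suffices to show that `n' = 0`
  suffices hz : n' = 0 by
    have h1 : nq ∈ RR v hv bar := by
      rw [hz, sub_zero] at hn'R
      exact hn'R
    obtain ⟨-, N', m, s, hN', hs, h2, h3⟩ := h1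
    refine ⟨N' * s, Nat.mul_pos hN' hs, ?_⟩
    rw [pow_mul]
    have h4 : (∏ x, v x ^ n x) ^ N' = ∏ x, v x ^ m x := by
      rw [← Finset.prod_pow]
      refine Finset.prod_congr rfl fun x _ => ?_
      rw [← zpow_natCast, ← zpow_mul]
      congr 1
      have h5 := h2 x
      simp only [hnq] at h5
      have h6 : m x = N' * n x := by exact_mod_cast h5
      rw [h6, mul_comm]
    rw [h4, h3]
  -- common denominator
  obtain ⟨D, hD, m', hm'⟩ : ∃ D : ℕ, 0 < D ∧ ∃ m' : X → ℤ, ∀ x, (m' x : ℚ) = D * n' x := by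
    refine ⟨∏ x, (n' x).den, Finset.prod_pos fun x _ => (n' x).den_pos,
      fun x => (∏ y ∈ Finset.univ.erase x, ((n' y).den : ℤ)) * (n' x).num, fun x => ?_⟩
    have h1 : (∏ y, ((n' y).den : ℚ)) = (n' x).den * ∏ y ∈ Finset.univ.erase x, ((n' y).den : ℚ) :=
      (Finset.mul_prod_erase Finset.univ (fun y => ((n' y).den : ℚ)) (Finset.mem_univ x)).symm
    push_cast
    rw [h1]
    have h2 : ((n' x).den : ℚ) * n' x = (n' x).num := by
      rw [mul_comm]; exact Rat.mul_den_eq_num (n' x)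
    rw [← h2]
    ring
  have hm'odd : ∀ x, m' (bar x) = -m' x := by
    intro x
    have h1 : ((m' (bar x) : ℤ) : ℚ) = ((-m' x : ℤ) : ℚ) := by
      push_cast
      rw [hm', hm', hn'odd]
      ring
    exact_mod_cast h1
  -- the key relations
  have hkey : ∀ x, (fun y => ((∑ σ : G, m' (σ⁻¹ • x) * n (σ⁻¹ • y) : ℤ) : ℚ)) ∈ RR v hv bar := by
    intro x
    set e : G → ℤ := fun σ => m' (σ⁻¹ • x) with he
    have hbσ' : ∀ (σ : G) y, σ • bar y = bar (σ • y) := fun σ y => (hbσ σ y).symm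
    -- sum zero
    have he0 : ∑ σ : G, e σ = 0 := by
      have h1 : ∑ σ : G, e σ = ∑ σ : G, e (σ * c⁻¹) := (Equiv.sum_comp (Equiv.mulRight c⁻¹) e).symm
      have h2 : ∀ σ : G, e (σ * c⁻¹) = -e σ := by
        intro σ
        simp only [he, mul_inv_rev, inv_inv, mul_smul, hc]
        rw [hm'odd]
      rw [Finset.sum_congr rfl fun σ _ => h2 σ, Finset.sum_neg_distrib] at h1
      omega
    -- coset sums
    have hcos : ∀ l, ∀ τ : G, ∑ h : H l, e (τ * h) = 0 := by
      intro l τ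
      let f : X → ℚ := fun y => ∑ h : H l, (m' ((h : G)⁻¹ • y) : ℚ)
      have hf := hun l f (fun y => by
        simp only [f]
        rw [← Finset.sum_neg_distrib]
        refine Finset.sum_congr rfl fun h _ => ?_
        rw [hbσ', hm'odd]
        push_cast
        rfl) (fun g hg y => by
        simp only [f]
        rw [← Equiv.sum_comp (Equiv.mulLeft (⟨g, hg⟩ : H l))]
        refine Finset.sum_congr rfl fun h _ => ?_
        simp only [Equiv.coe_mulLeft, Subgroup.coe_mul, mul_inv_rev, mul_smul, inv_smul_smul])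
      have h1 := congrFun hf (τ⁻¹ • x)
      simp only [f, Pi.zero_apply] at h1
      have h2 : ((∑ h : H l, e (τ * h) : ℤ) : ℚ) = 0 := by
        rw [← h1]
        push_cast
        refine Finset.sum_congr rfl fun h _ => ?_
        simp only [he, mul_inv_rev, mul_smul]
      exact_mod_cast h2
    -- the numbers `a l`
    have hal : ∀ l, ∃ S : ℕ, 0 < S ∧ norm' e (a l) ^ S = 1 := by
      intro l
      obtain ⟨M, hM, hfix⟩ := hH l
      refine ⟨M * Nat.card (H l), Nat.mul_pos hM Nat.card_pos, ?_⟩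
      rw [pow_mul, ← norm'_pow]
      exact prod_of_coset (H l) (a l ^ M) (pow_ne_zero M (ha0 l)) hfix e (hcos l)
    choose S hS0 hS using hal
    -- the relation
    set P : L := ∏ y, v y ^ cnt y with hP
    have hP0 : P ≠ 0 := Finset.prod_ne_zero_iff.2 fun y _ => zpow_ne_zero _ (hv y)
    have hPb : P * ∏ y, v y ^ cnt (bar y) = q ^ ∑ y, cnt y := by
      have h1 : ∏ y, v y ^ cnt (bar y) = ∏ y, v (bar y) ^ cnt y := by
        let eb : Equiv.Perm X := ⟨bar, bar, hbb, hbb⟩
        rw [← Equiv.prod_comp eb (fun y => v y ^ cnt (bar y))]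
        refine Finset.prod_congr rfl fun y _ => ?_
        change v (bar y) ^ cnt (bar (bar y)) = _
        rw [hbb]
      rw [h1, hP, ← Finset.prod_mul_distrib, ← zpow_sum_eq hq0]
      refine Finset.prod_congr rfl fun y _ => ?_
      rw [← mul_zpow, hvb]
    set Q : L := ∏ y, v y ^ n y with hQ
    have hQP : Q * q ^ (∑ y, cnt y) = P ^ 2 := by
      have h1 : Q = P / ∏ y, v y ^ cnt (bar y) := by
        rw [hQ, hP, ← Finset.prod_div_distrib]
        exact Finset.prod_congr rfl fun y _ => zpow_sub₀ (hv y) _ _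
      have h2 : (∏ y, v y ^ cnt (bar y)) ≠ 0 :=
        Finset.prod_ne_zero_iff.2 fun y _ => zpow_ne_zero _ (hv y)
      rw [h1, ← hPb]
      field_simp
    have hnq1 : ∀ k : ℤ, norm' e (q ^ k) = 1 := fun k => by
      rw [norm'_zpow, norm'_fixed e hq0 hqG he0, one_zpow]
    have hnP : norm' e P ^ N = ∏ l, norm' e (a l) ^ N := by
      rw [← norm'_pow, ← hrel, norm'_mul, hnq1, mul_one, norm'_pow, norm'_prod,
        Finset.prod_pow]
    have hnQ : norm' e Q = norm' e P ^ 2 := by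
      rw [← norm'_pow, ← hQP, norm'_mul, hnq1, mul_one]
    have hroot : norm' e Q ^ (N * ∏ l, S l) = 1 := by
      rw [hnQ, ← pow_mul, show 2 * (N * ∏ l, S l) = N * (2 * ∏ l, S l) by ring, pow_mul, hnP,
        ← Finset.prod_pow]
      refine Finset.prod_eq_one fun l _ => ?_
      rw [← Finset.mul_prod_erase Finset.univ S (Finset.mem_univ l), ← pow_mul]
      rw [show N * (2 * (S l * ∏ y ∈ Finset.univ.erase l, S y)) =
        S l * (N * (2 * ∏ y ∈ Finset.univ.erase l, S y)) by ring, pow_mul, hS, one_pow]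
    have hQexp : norm' e Q = ∏ y, v y ^ (∑ σ : G, e σ * n (σ⁻¹ • y)) := by
      simp only [norm']
      have h1 : ∀ σ : G, (σ • Q) ^ e σ = ∏ y, v y ^ (e σ * n (σ⁻¹ • y)) := by
        intro σ
        rw [hQ, smul_prod', ← Finset.prod_zpow,
          ← Equiv.prod_comp (MulAction.toPerm (σ⁻¹) : Equiv.Perm X)]
        refine Finset.prod_congr rfl fun y _ => ?_
        rw [MulAction.toPerm_apply, smul_zpow', ← hvσ, smul_inv_smul, ← zpow_mul, mul_comm]
      rw [Finset.prod_congr rfl fun σ _ => h1 σ, Finset.prod_comm]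
      refine Finset.prod_congr rfl fun y _ => ?_
      rw [zpow_sum_eq (hv y)]
    refine ⟨fun y => ?_, 1, fun y => ∑ σ : G, e σ * n (σ⁻¹ • y), N * ∏ l, S l, one_pos,
      Nat.mul_pos hN (Finset.prod_pos fun l _ => hS0 l), fun y => ?_, ?_⟩
    · have h1 : ∀ σ : G, n (σ⁻¹ • bar y) = -n (σ⁻¹ • y) := by
        intro σ
        rw [hbσ']
        simp only [hn, hbb]
        ring
      simp only [h1]
      push_cast
      rw [← Finset.sum_neg_distrib]
      exact Finset.sum_congr rfl fun σ _ => by ring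
    · rw [Nat.cast_one, one_mul]
    · rw [← hQexp]
      exact hroot
  -- translates of elements of `R`
  have htrans : ∀ (σ : G) (f : X → ℚ), f ∈ RR v hv bar → (fun y => f (σ⁻¹ • y)) ∈ RR v hv bar := by
    rintro σ f ⟨h1, N', m, s, hN', hs, h2, h3⟩
    refine ⟨fun y => ?_, N', fun y => m (σ⁻¹ • y), s, hN', hs, fun y => h2 _, ?_⟩
    · have h4 : σ⁻¹ • bar y = bar (σ⁻¹ • y) := (hbσ _ _).symm
      change f (σ⁻¹ • bar y) = _
      rw [h4, h1]
    · have h4 : ∏ y, v y ^ m (σ⁻¹ • y) = σ • ∏ y, v y ^ m y := by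
        rw [smul_prod', ← Equiv.prod_comp (MulAction.toPerm (σ⁻¹) : Equiv.Perm X)
          (fun y => σ • v y ^ m y)]
        refine Finset.prod_congr rfl fun y _ => ?_
        rw [MulAction.toPerm_apply, smul_zpow', ← hvσ, smul_inv_smul]
      rw [h4, ← smul_pow', h3, smul_one]
  -- orthogonality
  have horth : ∀ x, ∑ σ : G, n' (σ⁻¹ • x) * dot (fun y => n' (σ⁻¹ • y)) n' = 0 := by
    intro x
    have h1 := hn' _ (hkey x)
    have h2 : ∀ σ : G, dot (fun y => nq (σ⁻¹ • y)) n' = dot (fun y => n' (σ⁻¹ • y)) n' := by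
      intro σ
      have h3 := hn' _ (htrans σ _ hn'R)
      simp only [dot, Pi.sub_apply, sub_mul, Finset.sum_sub_distrib] at h3 ⊢
      linarith
    have h3 : dot (fun y => ((∑ σ : G, m' (σ⁻¹ • x) * n (σ⁻¹ • y) : ℤ) : ℚ)) n' =
        D * ∑ σ : G, n' (σ⁻¹ • x) * dot (fun y => nq (σ⁻¹ • y)) n' := by
      simp only [dot, Finset.mul_sum]
      rw [Finset.sum_comm' (s := Finset.univ) (t := fun _ => Finset.univ) (s' := fun _ => Finset.univ)
        (t' := Finset.univ) (by simp)]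
      refine Finset.sum_congr rfl fun y _ => ?_
      push_cast
      rw [Finset.sum_mul]
      refine Finset.sum_congr rfl fun σ _ => ?_
      rw [hm']
      simp only [hnq]
      ring
    rw [h3] at h1
    have h4 : (D : ℚ) ≠ 0 := by exact_mod_cast hD.ne'
    have h5 := (mul_eq_zero.1 h1).resolve_left h4
    rw [← h5]
    exact Finset.sum_congr rfl fun σ _ => by rw [h2]
  have hsq : ∑ σ : G, dot (fun y => n' (σ⁻¹ • y)) n' * dot (fun y => n' (σ⁻¹ • y)) n' = 0 := by
    have h1 : ∑ x, (∑ σ : G, n' (σ⁻¹ • x) * dot (fun y => n' (σ⁻¹ • y)) n') * n' x = 0 :=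
      Finset.sum_eq_zero fun x _ => by rw [horth, zero_mul]
    rw [← h1]
    simp only [Finset.sum_mul]
    rw [Finset.sum_comm]
    refine Finset.sum_congr rfl fun σ _ => ?_
    have h2 : dot (fun y => n' (σ⁻¹ • y)) n' * dot (fun y => n' (σ⁻¹ • y)) n' =
        (∑ x, n' (σ⁻¹ • x) * n' x) * dot (fun y => n' (σ⁻¹ • y)) n' := rfl
    rw [h2, Finset.sum_mul]
    refine Finset.sum_congr rfl fun x _ => ?_
    ring
  have h1 := (Finset.sum_eq_zero_iff_of_nonneg (fun σ _ => mul_self_nonneg _)).1 hsq 1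
    (Finset.mem_univ 1)
  have h2 : dot n' n' = 0 := by
    have h3 := mul_self_eq_zero.1 h1
    simpa using h3
  funext x
  have h3 := (Finset.sum_eq_zero_iff_of_nonneg (fun y _ => mul_self_nonneg _)).1 h2 x
    (Finset.mem_univ x)
  exact mul_self_eq_zero.1 h3

end core

end Pool.Agent.Q306.TP
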