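import Mathlib
import Pool.Agent.Q306.TP.Core
import Pool.Agent.H204R3.CM.Nondeg
import Pool.Agent.H194R3.CM.Flip
import Pool.Agent.Y1.CT.UnrelDefs
import Pool.Agent.Y137.MV.Criteria

/-!
# Multiplicative relations with products of unrelated numbers: Weil numbers
-/

set_option autoImplicit false

namespace Pool.Agent.Q306.TP

open NumberField Module Finset Pool.Agent.H204R3.CM Pool.Agent.Y1.CT

section stab

variable {L : Type*} [Field L] [NumberField L]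

/-- The automorphisms which fix some power of `b`. -/
def stab (b : L) : Subgroup (L ≃ₐ[ℚ] L) where
  carrier := {σ | ∃ m : ℕ, 0 < m ∧ σ (b ^ m) = b ^ m}
  mul_mem' := by
    rintro σ τ ⟨m, hm, h1⟩ ⟨k, hk, h2⟩
    refine ⟨m * k, Nat.mul_pos hm hk, ?_⟩
    change σ (τ (b ^ (m * k))) = _
    rw [mul_comm m k, pow_mul, map_pow τ, h2, ← pow_mul, mul_comm k m, pow_mul, map_pow σ, h1]
  one_mem' := ⟨1, one_pos, rfl⟩
  inv_mem' := by
    rintro σ ⟨m, hm, h1⟩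
    refine ⟨m, hm, ?_⟩
    have h2 : σ⁻¹ (σ (b ^ m)) = b ^ m := AlgEquiv.symm_apply_apply σ _
    rw [h1] at h2
    exact h2

theorem mem_stab {b : L} {σ : L ≃ₐ[ℚ] L} : σ ∈ stab b ↔ ∃ m : ℕ, 0 < m ∧ σ (b ^ m) = b ^ m :=
  Iff.rfl

theorem exists_fixed_pow (b : L) : ∃ M : ℕ, 0 < M ∧ ∀ h ∈ stab b, h • (b ^ M) = b ^ M := by
  classical
  have hfin : Finite (stab b) := inferInstance
  have _ : Fintype (stab b) := Fintype.ofFinite _
  choose m hm h1 using fun h : stab b => mem_stab.1 h.2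
  refine ⟨∏ h, m h, Finset.prod_pos fun h _ => hm h, fun h hh => ?_⟩
  have h2 := Finset.mul_prod_erase Finset.univ m (Finset.mem_univ (⟨h, hh⟩ : stab b))
  rw [← h2, pow_mul]
  change h ((b ^ m ⟨h, hh⟩) ^ _) = _
  rw [map_pow, h1 ⟨h, hh⟩]

end stab

section transfer

variable {L : Type*} [Field L] [NumberField L] [IsGalois ℚ L]

/-- Numbers unrelated to a CM field, in terms of the Galois group of `L`. -/
theorem eq_zero_of_unrelated (j : L →+* ℂ) {E : Type} [Field E] [NumberField E] [IsCMField E]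
    (h : ∀ ψ : E →+* ℂ, ∃ φ : E →+* L, j.comp φ = ψ) {b : L} (hb : UnrelatedTo E (j b))
    (f : (E →+* L) → ℚ) (hodd : ∀ φ, f (cbar φ) = -f φ)
    (hinv : ∀ σ ∈ stab b, ∀ φ, f (σ • φ) = f φ) : f = 0 := by
  choose g hg using h
  have hgj : ∀ φ : E →+* L, g (j.comp φ) = φ := fun φ =>
    H194R3.CM.comp_injective j (hg (j.comp φ))
  have h1 := hb (fun ψ => f (g ψ)) (fun ψ => by
    have h2 : g (ComplexEmbedding.conjugate ψ) = cbar (g ψ) := by
      rw [← hgj (cbar (g ψ)), comp_cbar, hg]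
    rw [h2, hodd]) (by
    rintro τ ⟨m, hm, hτ⟩ ψ
    obtain ⟨σ, hσ⟩ := H194R3.CM.exists_restrict j (τ : ℂ →+* ℂ)
    have h2 : g ((τ : ℂ →+* ℂ).comp ψ) = σ • g ψ := by
      rw [← hgj (σ • g ψ), H194R3.CM.comp_smul_of_restrict j _ σ hσ, hg]
    have h3 : σ ∈ stab b := by
      refine ⟨m, hm, j.injective ?_⟩
      rw [hσ, map_pow]
      exact hτ
    rw [h2, hinv σ h3])
  funext φ
  have h2 := congrFun h1 (j.comp φ)
  simp only [hgj] at h2
  exact h2

end transfer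

/-- Powers of unrelated numbers are unrelated. -/
theorem unrelated_zpow {K : Type} [Field K] {α : ℂ} (h : UnrelatedTo K α) (k : ℤ) :
    UnrelatedTo K (α ^ k) := by
  intro n hn hτ
  refine h n hn fun τ ⟨m, hm, h1⟩ φ => hτ τ ⟨m, hm, ?_⟩ φ
  rw [← zpow_natCast, ← zpow_mul, mul_comm, zpow_mul, zpow_natCast, map_zpow₀, h1]

/-- **Core, for Weil numbers.** -/
theorem coreC {q : ℕ} (hq : q ≠ 0) {I : Type} [Fintype I] {F : I → Type} [∀ i, Field (F i)]
    [∀ i, NumberField (F i)] [∀ i, IsCMField (F i)] {π : ∀ i, F i}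
    (hw : ∀ i, π i * IsCMField.complexConj (F i) (π i) = (q : F i))
    {t : Type*} [Fintype t] (y : t → ℂ) (hy0 : ∀ l, y l ≠ 0) (halg : ∀ l, IsAlgebraic ℚ (y l))
    (hun : ∀ l i, UnrelatedTo (F i) (y l)) (cnt : (Σ i, (F i →+* ℂ)) → ℤ) {N : ℕ} (hN : 0 < N)
    (r : ℤ) (hrel : (∏ l, y l) ^ N * (q : ℂ) ^ r = (∏ x, x.2 (π x.1) ^ cnt x) ^ N) :
    ∃ s : ℕ, 0 < s ∧ (∏ x : (Σ i, (F i →+* ℂ)), x.2 (π x.1) ^
      (cnt x - cnt ⟨x.1, ComplexEmbedding.conjugate x.2⟩)) ^ s = 1 := by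
  classical
  have hf0 : (∏ l, minpoly ℚ (y l)) ≠ 0 :=
    Finset.prod_ne_zero_iff.2 fun l _ => minpoly.ne_zero (halg l).isIntegral
  obtain ⟨L, hLa, hLb, j, h, hroots⟩ := Y137.MV.exists_galois_roots F (∏ l, minpoly ℚ (y l)) hf0
  have hb : ∀ l, ∃ b : L, j b = y l := fun l => hroots (y l) (by
    rw [map_prod]
    exact Finset.prod_eq_zero (Finset.mem_univ l) (minpoly.aeval ℚ (y l)))
  choose b hb using hb
  have hπ0 : ∀ i, π i ≠ 0 := by
    intro i h0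
    have h1 := hw i
    rw [h0, zero_mul] at h1
    exact Nat.cast_ne_zero.2 hq h1.symm
  let J : (Σ i, (F i →+* L)) → Σ i, (F i →+* ℂ) := fun x => ⟨x.1, j.comp x.2⟩
  have hJ : Function.Bijective J := by
    constructor
    · rintro ⟨i, φ⟩ ⟨i', φ'⟩ hxy
      simp only [J, Sigma.mk.injEq] at hxy
      obtain ⟨rfl, hxy⟩ := hxy
      rw [H194R3.CM.comp_injective j (eq_of_heq hxy)]
    · rintro ⟨i, ψ⟩
      obtain ⟨φ, rfl⟩ := h i ψ
      exact ⟨⟨i, φ⟩, rfl⟩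
  obtain ⟨c, hc⟩ := H194R3.CM.exists_restrict j (starRingEnd ℂ)
  have hmap : ∀ m : (Σ i, (F i →+* ℂ)) → ℤ, j (∏ x : (Σ i, (F i →+* L)),
      x.2 (π x.1) ^ m (J x)) = ∏ x : (Σ i, (F i →+* ℂ)), x.2 (π x.1) ^ m x := by
    intro m
    rw [map_prod, ← Function.Bijective.prod_comp hJ (fun x => x.2 (π x.1) ^ m x)]
    refine Finset.prod_congr rfl fun x _ => ?_
    rw [map_zpow₀]
    rfl
  obtain ⟨s, hs, h1⟩ := core (L := L) (G := L ≃ₐ[ℚ] L) (X := Σ i, (F i →+* L)) (q := (q : L))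
    (Nat.cast_ne_zero.2 hq) (fun σ => map_natCast σ q) (v := fun x => x.2 (π x.1))
    (fun x => (_root_.map_ne_zero _).2 (hπ0 _)) (fun σ x => rfl)
    (bar := fun x => ⟨x.1, cbar x.2⟩) (fun x => by rw [cbar_cbar]) (fun x => by
      rw [cbar_apply, ← map_mul, hw, map_natCast]) (fun σ x => rfl) (c := c) (fun x => by
      refine hJ.1 ?_
      change (⟨x.1, j.comp (c • x.2)⟩ : Σ i, (F i →+* ℂ)) = ⟨x.1, j.comp (cbar x.2)⟩
      rw [H194R3.CM.comp_smul_of_restrict j _ c hc, comp_cbar]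
      rfl) (a := b) (fun l h0 => hy0 l (by rw [← hb, h0, map_zero])) (fun l => stab (b l))
    (fun l => exists_fixed_pow (b l)) (fun l f hf1 hf2 => by
      funext x
      obtain ⟨i, φ⟩ := x
      have h2 := eq_zero_of_unrelated j (h i) (b := b l) (by rw [hb]; exact hun l i)
        (fun φ => f ⟨i, φ⟩) (fun φ => hf1 ⟨i, φ⟩) (fun σ hσ φ => hf2 σ hσ ⟨i, φ⟩)
      exact congrFun h2 φ) (fun x => cnt (J x)) hN r (by
      apply j.injective
      rw [map_mul, map_pow, map_prod, map_zpow₀, map_natCast, map_pow, hmap cnt, ← hrel,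
        Finset.prod_congr rfl fun l _ => hb l])
  refine ⟨s, hs, ?_⟩
  have h2 := congrArg j h1
  rw [map_pow, map_one] at h2
  rw [← h2, ← hmap (fun x => cnt x - cnt ⟨x.1, ComplexEmbedding.conjugate x.2⟩)]
  congr 2
  refine Finset.prod_congr rfl fun x _ => ?_
  congr 2
  simp only [J]
  rw [comp_cbar]

end Pool.Agent.Q306.TP
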