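import Mathlib
import Pool.Agent.Q306.TP.Gal
import Pool.Agent.Y1.TS.Defs
import Pool.Agent.Y137.MV.Final

/-!
# Eigenvalues which are products of numbers unrelated to the fields
-/

set_option autoImplicit false
set_option linter.unusedSectionVars false
set_option linter.unusedVariables false

namespace Pool.Agent.Q306.TP

open NumberField Module TensorProduct IntermediateField
open Pool.Agent.H204R3.CM Pool.Agent.H204R3.SP Pool.Agent.H204R3.GP Pool.Agent.Y137.MV
  Pool.Agent.Y137.SL Pool.Agent.Y1.CT Pool.Agent.Y1.TS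

/-- The number `α` is a product of algebraic numbers each of which is unrelated to all the fields
`K i`. -/
def IsProductOfUnrelated {I : Type} (K : I → Type) [∀ i, Field (K i)] (α : ℂ) : Prop :=
  ∃ (t : ℕ) (y : Fin t → ℂ), (∀ l, IsAlgebraic ℚ (y l) ∧ ∀ i, UnrelatedTo (K i) (y l)) ∧
    α = ∏ l, y l

/-- The condition on the eigenvalues. -/
theorem forces_prod {q : ℕ} (hq : q ≠ 0) {ι : Type} [Fintype ι] {F : ι → Type}
    [∀ i, Field (F i)] [∀ i, NumberField (F i)] [∀ i, IsCMField (F i)] {π : ∀ i, F i}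
    (hw : ∀ i, π i * IsCMField.complexConj (F i) (π i) = (q : F i))
    {L : Type*} [Field L] [NumberField L] [IsGalois ℚ L] (j : L →+* ℂ)
    (h : ∀ i, ∀ ψ : F i →+* ℂ, ∃ φ : F i →+* L, j.comp φ = ψ)
    (hang : MaximalAngleRank q π) (β : L) (hf : IsProductOfUnrelated F (j β)) (i : ι) :
    Forces π β i := by
  classical
  intro T N I hN hβN φ
  have hπ0 : ∀ i, π i ≠ 0 := by
    intro i h0
    have h1 := hw i
    rw [h0, zero_mul] at h1
    exact Nat.cast_ne_zero.2 hq h1.symm
  let J : (Σ i, (F i →+* L)) → Σ i, (F i →+* ℂ) := fun x => ⟨x.1, j.comp x.2⟩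
  have hJ : Function.Injective J := by
    rintro ⟨a, φ⟩ ⟨b, ψ⟩ h
    simp only [J, Sigma.mk.injEq] at h
    obtain ⟨rfl, h⟩ := h
    rw [H194R3.CM.comp_injective j (eq_of_heq h)]
  let cnt : (Σ i, (F i →+* ℂ)) → ℤ := fun x =>
    ((Finset.univ.filter (fun l => J (I l) = x)).card : ℤ)
  have hprod : ∏ l, ((J (I l)).2 (π (J (I l)).1)) = ∏ x : (Σ i, (F i →+* ℂ)), (x.2 (π x.1)) ^ cnt x := by
    have h2 : ∀ x : Σ i, (F i →+* ℂ), (x.2 (π x.1)) ^ cnt x =
        ∏ l ∈ Finset.univ.filter (fun l => J (I l) = x), ((J (I l)).2 (π (J (I l)).1)) := by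
      intro x
      have h3 : ∀ l ∈ Finset.univ.filter (fun l => J (I l) = x),
          ((J (I l)).2 (π (J (I l)).1)) = (x.2 (π x.1)) := by
        intro l hl
        rw [(Finset.mem_filter.1 hl).2]
      rw [Finset.prod_congr rfl h3, Finset.prod_const]
      simp only [cnt]
      rw [zpow_natCast]
    rw [Finset.prod_congr rfl (fun x _ => h2 x)]
    rw [Finset.prod_fiberwise (s := Finset.univ) (g := fun l => J (I l))
      (f := fun l => ((J (I l)).2 (π (J (I l)).1)))]
  have hrel0 : (j β) ^ N = (∏ x : (Σ i, (F i →+* ℂ)), (x.2 (π x.1)) ^ cnt x) ^ N := by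
    rw [← hprod, ← Finset.prod_pow]
    have h1 := congrArg j hβN
    simp only [map_pow, map_prod] at h1
    exact h1
  have hval : ∀ x : (Σ i, (F i →+* ℂ)), x.2 (π x.1) ≠ 0 := fun x =>
    (_root_.map_ne_zero _).2 (hπ0 _)
  obtain ⟨t, y, hy, hyβ⟩ := hf
  have hβ0 : j β ≠ 0 := by
    intro h0
    rw [h0, zero_pow hN.ne'] at hrel0
    exact pow_ne_zero N (Finset.prod_ne_zero_iff.2 fun x _ => zpow_ne_zero _ (hval x)) hrel0.symm
  have hy0 : ∀ l, y l ≠ 0 := by
    intro l h0
    apply hβ0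
    rw [hyβ]
    exact Finset.prod_eq_zero (Finset.mem_univ l) h0
  obtain ⟨s, hs, h1⟩ := coreC hq hw y hy0 (fun l => (hy l).1) (fun l i => (hy l).2 i) cnt hN 0 (by
    rw [zpow_zero, mul_one, ← hyβ]
    exact hrel0)
  have h2 := hang 0 (fun x => (s : ℤ) * (cnt x - cnt ⟨x.1, ComplexEmbedding.conjugate x.2⟩)) (by
    rw [zpow_zero, ← h1, ← Finset.prod_pow]
    refine Finset.prod_congr rfl fun x _ => ?_
    rw [← zpow_natCast, ← zpow_mul, mul_comm]) i (j.comp φ)
  have h3 : ComplexEmbedding.conjugate (ComplexEmbedding.conjugate (j.comp φ)) = j.comp φ := by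
    ext x
    simp
  simp only [h3] at h2
  have hs0 : (s : ℤ) ≠ 0 := by exact_mod_cast hs.ne'
  have h5 := mul_left_cancel₀ hs0 h2
  have h9 : cnt ⟨i, j.comp φ⟩ = cnt ⟨i, ComplexEmbedding.conjugate (j.comp φ)⟩ := by omega
  have h4 : (Finset.univ.filter (fun l => I l = ⟨i, φ⟩)).card =
      (Finset.univ.filter (fun l => J (I l) = ⟨i, j.comp φ⟩)).card := by
    congr 1
    ext l
    simp only [Finset.mem_filter, Finset.mem_univ, true_and]
    exact ⟨fun h => by rw [h], fun h => hJ h⟩
  have h6 : (Finset.univ.filter (fun l => I l = bar ⟨i, φ⟩)).card =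
      (Finset.univ.filter (fun l => J (I l) =
        ⟨i, ComplexEmbedding.conjugate (j.comp φ)⟩)).card := by
    congr 1
    ext l
    simp only [Finset.mem_filter, Finset.mem_univ, true_and]
    have h6 : J (bar ⟨i, φ⟩) = ⟨i, ComplexEmbedding.conjugate (j.comp φ)⟩ := by
      simp only [J, bar]
      rw [comp_cbar]
    rw [← h6]
    exact ⟨fun h => by rw [h], fun h => hJ h⟩
  rw [h4, h6]
  simp only [cnt] at h9
  exact_mod_cast h9

/-- The Tate classes on the products `A ^ n × U` are generated by those on `A ^ n` of degree two and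
those on `U`, whenever `A` has a Frobenius element `γ` at a place with `p ^ a` elements in the
residue field with the characteristic polynomial `∏ i, minpoly (π i)` and the eigenvalues of `γ` on the
cohomology of `U` are roots of a rational polynomial all of whose roots are products of numbers
unrelated to the fields `K i`. -/
def SplitsForProducts {p : ℕ} [Fact p.Prime] (a : ℕ) {I : Type} [Fintype I] (K : I → Type)
    [∀ i, Field (K i)] [∀ i, NumberField (K i)] [∀ i, IsCMField (K i)] (π : ∀ i, K i) : Prop :=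
  ∀ (k : Type) [Field k] [CharZero k] (V : Type) [AddCommGroup V] [Module k V]
    [FiniteDimensional k V] (M : Type) [AddCommGroup M] [Module k M] [FiniteDimensional k M]
    (Γ : Type) [Group Γ] (ρ : Representation k Γ V) (τ : Representation k Γ M) (χ : Γ →* k)
    (γ : Γ), IsPolarised ρ χ γ p a π →
    ∀ f : Polynomial ℚ, f ≠ 0 → Polynomial.aeval (τ γ) (f.map (algebraMap ℚ k)) = 0 →
    (∀ α : ℂ, Polynomial.aeval α f = 0 → IsProductOfUnrelated K α) → ClassesSplit ρ χ τ

theorem split_of_products {p : ℕ} [Fact p.Prime] {a : ℕ}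
    {ι : Type} [Fintype ι] {F : ι → Type} [∀ i, Field (F i)] [∀ i, NumberField (F i)]
    [∀ i, IsCMField (F i)] {π : ∀ i, F i} (hgen : ∀ i, ℚ⟮π i⟯ = ⊤)
    (hw : ∀ i, π i * IsCMField.complexConj (F i) (π i) = (p : F i) ^ a)
    (hang : MaximalAngleRank (p ^ a) π) : SplitsForProducts (p := p) a F π := by
  classical
  intro k _ _ V _ _ _ M _ _ _ Γ _ ρ τ χ γ hp f hf0 hfγ hf
  obtain ⟨hss, ⟨ω, halt, hnd, hωρ⟩, hχ, hγ⟩ := hp
  have hp0 : p ^ a ≠ 0 := pow_ne_zero a (Fact.out : p.Prime).ne_zero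
  have hw' : ∀ i, π i * IsCMField.complexConj (F i) (π i) = ((p ^ a : ℕ) : F i) := fun i => by
    rw [hw]; push_cast; rfl
  obtain ⟨L, hLa, hLb, j, h, hroots⟩ := exists_galois_roots F f hf0
  have hneat : Neat p a π L := neat_of_angle j hang
  have hun : ∀ β : L, Polynomial.aeval β f = 0 → ∀ i, Forces π β i := by
    intro β hβ i
    have hα : Polynomial.aeval (j β) f = 0 := by
      have h1 := Polynomial.aeval_algHom_apply (RingHom.equivRatAlgHom L ℂ j) β f
      rw [hβ, map_zero] at h1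
      exact h1
    exact forces_prod hp0 hw' j h hang β (hf (j β) hα) i
  have hss' : ∀ Δ : Subgroup Γ, Δ.FiniteIndex → SemiUnder (ρ '' (Δ : Set Γ)) := by
    intro Δ hΔ U hU
    obtain ⟨U', h1, h2⟩ := hss Δ hΔ U (fun s hs u hu => hU _ ⟨s, hs, rfl⟩ u hu)
    refine ⟨U', ?_, h1⟩
    rintro _ ⟨s, hs, rfl⟩ u hu
    exact h2 s hs u hu
  constructor
  · intro n m g hg
    have h1 := final_step ρ χ τ g hg (fun l => alt_of_comp ρ χ _ (fun c => by
      have h2 := comp_mem (L := L) ρ χ τ hgen hw j h hneat ω halt hnd hωρ hss' γ hχ hγ hun hroots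
        hfγ (component_eqv hg c) l
      exact h2))
    refine Submodule.span_mono ?_ h1
    rintro x ⟨y, ⟨B, hB, hy⟩, w, hw, hx⟩
    refine ⟨B, w, hB, hw, fun v => ?_⟩
    rw [hx, hy]
  · intro n m g hg
    ext v
    have h1 : v = fun l => ∑ i, Pi.single i (v l i) := by
      funext l
      exact (Finset.univ_sum_single (v l)).symm
    have h2 : g v = ∑ c : Fin (2 * m + 1) → Fin n,
        g.toMultilinearMap.compLinearMap
          (fun l => LinearMap.single k (fun _ : Fin n => V) (c l)) (fun l => v l (c l)) := by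
      conv_lhs => rw [h1]
      exact g.toMultilinearMap.map_sum (fun l i => Pi.single i (v l i))
    rw [h2]
    refine Finset.sum_eq_zero fun c _ => ?_
    have h3 := odd_zero (L := L) ρ χ τ hgen hw j h hneat ω halt hnd hωρ γ hχ hγ hun hroots
        hfγ (κ := Fin (2 * m + 1)) (by
          rw [Fintype.card_fin]
          exact ⟨m, rfl⟩) (component_eqv hg c)
    rw [h3]
    rfl

end Pool.Agent.Q306.TP
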