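import Mathlib
import Pool.Agent.Q306.TP.Gal
import Pool.Agent.H977R3.CM.Aut
import Pool.Agent.H204R3.CM.Disc

/-!
# Odd functions on the embeddings of CM fields of degree twice an odd prime
-/

set_option autoImplicit false

namespace Pool.Agent.Q306.TP

open Finset

section abstract_part

variable {X : Type*} [Fintype X] [DecidableEq X]

/-- An operator killed by the cyclotomic polynomial of a prime `g` acts on spaces of dimension at
least `g - 1`. -/
theorem le_finrank_of_cyclotomic {V : Type*} [AddCommGroup V] [Module ℚ V] [FiniteDimensional ℚ V]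
    [Nontrivial V] (T : V →ₗ[ℚ] V) {g : ℕ} (hg : g.Prime)
    (hT : ∀ w, ∑ k ∈ Finset.range g, (T ^ k) w = 0) : g - 1 ≤ Module.finrank ℚ V := by
  have _ : Fact g.Prime := ⟨hg⟩
  have h1 : Polynomial.aeval T (Polynomial.cyclotomic g ℚ) = 0 := by
    rw [Polynomial.cyclotomic_prime, map_sum]
    ext w
    simp only [map_pow, Polynomial.aeval_X, LinearMap.sum_apply, LinearMap.zero_apply]
    exact hT w
  have h2 : minpoly ℚ T ∣ Polynomial.cyclotomic g ℚ := minpoly.dvd ℚ T h1
  have hirr : Irreducible (Polynomial.cyclotomic g ℚ) := Polynomial.cyclotomic.irreducible_rat hg.pos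
  have hint : IsIntegral ℚ T := Algebra.IsIntegral.isIntegral T
  have h3 : Associated (minpoly ℚ T) (Polynomial.cyclotomic g ℚ) := by
    exact ((hirr.dvd_iff.1 h2).resolve_left fun h => minpoly.not_isUnit ℚ T h).symm
  have h4 : (minpoly ℚ T).natDegree = g - 1 := by
    rw [Polynomial.natDegree_eq_of_degree_eq (Polynomial.degree_eq_degree_of_associated h3),
      Polynomial.natDegree_cyclotomic, Nat.totient_prime hg]
  have h5 : minpoly ℚ T ∣ T.charpoly := LinearMap.minpoly_dvd_charpoly T
  have h6 := Polynomial.natDegree_le_of_dvd h5 T.charpoly_monic.ne_zero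
  rw [h4, LinearMap.charpoly_natDegree] at h6
  exact h6

variable {G : Type*} [Group G] [MulAction G X] [MulAction.IsPretransitive G X]

/-- The element of order `g`. -/
theorem exists_cycle {bar : X → X} (hbb : ∀ x, bar (bar x) = x) (hne : ∀ x, bar x ≠ x)
    (hbσ : ∀ (σ : G) x, bar (σ • x) = σ • bar x) {g : ℕ} (hg : g.Prime) (hodd : g ≠ 2)
    (hcard : Fintype.card X = 2 * g) :
    ∃ σ : G, (∀ x : X, σ ^ g • x = x) ∧ ∀ x : X, σ • x ≠ x := by
  classical
  have _ : Fact g.Prime := ⟨hg⟩
  let H := (MulAction.toPermHom G X).range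
  have hX : Nonempty X := Fintype.card_pos_iff.1 (by rw [hcard]; exact Nat.mul_pos two_pos hg.pos)
  obtain ⟨x0⟩ := hX
  have htr : MulAction.orbit H x0 = Set.univ := by
    rw [Set.eq_univ_iff_forall]
    intro y
    obtain ⟨σ, hσ⟩ := MulAction.exists_smul_eq G x0 y
    exact ⟨⟨MulAction.toPermHom G X σ, σ, rfl⟩, hσ⟩
  have hdvd : g ∣ Fintype.card H := by
    have h1 := MulAction.card_orbit_mul_card_stabilizer_eq_card_group H x0
    have h2 : Fintype.card (MulAction.orbit H x0) = 2 * g := by
      rw [← hcard, Fintype.card_congr (Equiv.Set.univ X).symm]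
      exact Fintype.card_congr (Equiv.setCongr htr)
    rw [h2] at h1
    exact ⟨2 * Fintype.card (MulAction.stabilizer H x0), by rw [← h1]; ring⟩
  obtain ⟨⟨s, hsH⟩, hs⟩ := exists_prime_orderOf_dvd_card g hdvd
  have hs' : orderOf s = g := by
    rw [← hs]
    exact (Subgroup.orderOf_mk s hsH).symm
  obtain ⟨σ, hσ⟩ := hsH
  have hsx : ∀ x, s x = σ • x := fun x => by rw [← hσ]; rfl
  have hsg : s ^ g = 1 := by rw [← hs']; exact pow_orderOf_eq_one s
  have hspow : ∀ x : X, σ ^ g • x = x := by
    intro x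
    have h2 : (MulAction.toPermHom G X) (σ ^ g) = 1 := by rw [map_pow, hσ, hsg]
    exact congrArg (fun f : Equiv.Perm X => f x) h2
  refine ⟨σ, hspow, ?_⟩
  -- the fixed points
  let F : Finset X := Finset.univ.filter fun x => σ • x = x
  have hFeven : Even F.card := by
    have h1 : ∑ _x ∈ F, (1 : ZMod 2) = 0 := by
      refine Finset.sum_involution (fun x _ => bar x) (fun x _ => by decide) (fun x _ _ => hne x)
        (fun x hx => ?_) (fun x _ => hbb x)
      have hx' := (Finset.mem_filter.1 hx).2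
      refine Finset.mem_filter.2 ⟨Finset.mem_univ _, ?_⟩
      rw [← hbσ, hx']
    rw [Finset.sum_const, nsmul_eq_mul, mul_one] at h1
    exact (ZMod.natCast_eq_zero_iff_even).1 h1
  have hFs : F = s.supportᶜ := by
    ext x
    rw [Finset.mem_compl, Equiv.Perm.mem_support, not_not, Finset.mem_filter, hsx]
    simp
  have hFmod : F.card ≡ Fintype.card X [MOD g] := by
    rw [hFs]
    exact Equiv.Perm.card_compl_support_modEq (p := g) (n := 1) (by rw [pow_one]; exact hsg)
  have hFle : F.card ≤ 2 * g := by rw [← hcard]; exact Finset.card_le_univ F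
  have hgodd : g % 2 = 1 := hg.eq_two_or_odd.resolve_left hodd
  have hF0 : F.card = 0 := by
    have h1 : g ∣ F.card := by
      rw [hcard] at hFmod
      exact (Nat.modEq_zero_iff_dvd.1 (hFmod.trans (Nat.modEq_zero_iff_dvd.2 ⟨2, by ring⟩)))
    obtain ⟨k, hk⟩ := h1
    have hk2 : k ≤ 2 := by
      have h2 : g * k ≤ g * 2 := by rw [← hk]; omega
      exact Nat.le_of_mul_le_mul_left h2 hg.pos
    have hcases : k = 0 ∨ k = 1 ∨ k = 2 := by omega
    rcases hcases with h | h | h
    · rw [hk, h, mul_zero]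
    · exfalso
      rw [hk, h, mul_one] at hFeven
      obtain ⟨r, hr⟩ := hFeven
      omega
    · exfalso
      have h2 : F = Finset.univ := by
        rw [← Finset.card_eq_iff_eq_univ, hcard, hk, h, mul_comm]
      have h3 : s = 1 := by
        ext x
        have h4 : x ∈ F := by rw [h2]; exact Finset.mem_univ _
        rw [hsx, (Finset.mem_filter.1 h4).2]
        rfl
      rw [h3, orderOf_one] at hs'
      exact hg.one_lt.ne hs'
  intro x hx
  have h1 : x ∈ F := Finset.mem_filter.2 ⟨Finset.mem_univ _, hx⟩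
  rw [Finset.card_eq_zero.1 hF0] at h1
  exact Finset.notMem_empty x h1

/-- A stable space of odd functions on a set of `2 g` points, `g` an odd prime, is zero, or everything,
or the line of a semi-invariant function with values `1` and `-1`, or the orthogonal space of such a
function. -/
theorem prime_tri {bar : X → X} (hbb : ∀ x, bar (bar x) = x) (hne : ∀ x, bar x ≠ x)
    (hbσ : ∀ (σ : G) x, bar (σ • x) = σ • bar x) {g : ℕ} (hg : g.Prime) (hodd : g ≠ 2)
    (hcard : Fintype.card X = 2 * g) (W : Submodule ℚ (X → ℚ))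
    (hW1 : ∀ n ∈ W, ∀ x, n (bar x) = -n x) (hW2 : ∀ σ : G, ∀ n ∈ W, (fun x => n (σ • x)) ∈ W) :
    W = ⊥ ∨ (∀ n : X → ℚ, (∀ x, n (bar x) = -n x) → n ∈ W) ∨
      ∃ u : X → ℚ, (∀ x, u (bar x) = -u x) ∧ (∀ x, u x = 1 ∨ u x = -1) ∧
        (∀ σ : G, (∀ x, u (σ • x) = u x) ∨ ∀ x, u (σ • x) = -u x) ∧
        ((u ∈ W ∧ ∀ f ∈ W, ∃ c : ℚ, f = c • u) ∨
          ∀ f, f ∈ W ↔ (∀ x, f (bar x) = -f x) ∧ ∑ x, f x * u x = 0) := by
  classical
  obtain ⟨σ, hσg, hσne⟩ := exists_cycle (G := G) hbb hne hbσ hg hodd hcard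
  have hX : Nonempty X := Fintype.card_pos_iff.1 (by rw [hcard]; exact Nat.mul_pos two_pos hg.pos)
  obtain ⟨x0⟩ := hX
  have hgodd : g % 2 = 1 := hg.eq_two_or_odd.resolve_left hodd
  have _ : Fact g.Prime := ⟨hg⟩
  let pt : ℕ → X := fun k => σ ^ k • x0
  have hpt : ∀ k, pt k = σ ^ k • x0 := fun _ => rfl
  have hptS : ∀ k, σ • pt k = pt (k + 1) := fun k => by
    simp only [pt]
    rw [pow_succ', mul_smul]
  have hit : ∀ k, (fun x : X => σ • x)^[k] x0 = pt k := by
    intro k
    rw [smul_iterate]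
  have hper : Function.minimalPeriod (fun x : X => σ • x) x0 = g :=
    Function.minimalPeriod_eq_prime (by
      change (fun x : X => σ • x)^[g] x0 = x0
      rw [hit, hpt, hσg]) (fun h => hσne x0 h)
  have hinj : ∀ k < g, ∀ l < g, pt k = pt l → k = l := by
    intro k hk l hl h
    rw [← hit, ← hit] at h
    exact (Function.iterate_injOn_Iio_minimalPeriod (f := fun x : X => σ • x) (x := x0))
      (by rw [hper]; exact hk) (by rw [hper]; exact hl) h
  have hmodeq : ∀ k, pt k = x0 → g ∣ k := by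
    intro k hk
    rw [← hit] at hk
    have h1 : Function.IsPeriodicPt (fun x : X => σ • x) k x0 := hk
    have h2 := h1.minimalPeriod_dvd
    rwa [hper] at h2
  have hbarpt : ∀ k l, bar (pt k) ≠ pt l := by
    intro k l h
    -- `bar x0 = pt m`
    have h1 : ∃ m, bar x0 = pt m := by
      refine ⟨l + (g - 1) * k, ?_⟩
      have h2 : bar (pt k) = σ ^ k • bar x0 := hbσ _ _
      rw [h2] at h
      have h3 : σ ^ ((g - 1) * k) • (σ ^ k • bar x0) = bar x0 := by
        rw [← mul_smul, ← pow_add]
        have h4 : (g - 1) * k + k = g * k := by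
          have h5 : g = (g - 1) + 1 := by have := hg.pos; omega
          nlinarith [hg.pos]
        rw [h4, pow_mul]
        have h5 : ∀ r : ℕ, ∀ y : X, (σ ^ g) ^ r • y = y := by
          intro r
          induction r with
          | zero => intro y; rw [pow_zero, one_smul]
          | succ r ih => intro y; rw [pow_succ, mul_smul, hσg, ih]
        exact h5 k _
      rw [h] at h3
      rw [← h3, hpt, hpt, ← mul_smul, ← pow_add, add_comm]
    obtain ⟨m, hm⟩ := h1
    have h2 : pt (m + m) = x0 := by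
      rw [hpt, pow_add, mul_smul, ← hpt, ← hm, ← hbσ]
      rw [← hpt, ← hm, hbb]
    have h3 := hmodeq _ h2
    have h4 : g ∣ 2 * m := by rw [two_mul]; exact h3
    have h5 : g ∣ m := (Nat.Coprime.dvd_mul_left (by
      rw [Nat.coprime_comm, Nat.coprime_two_left]
      exact Nat.odd_iff.2 hgodd)).1 h4
    obtain ⟨r, rfl⟩ := h5
    have h6 : pt (g * r) = x0 := by
      rw [hpt, pow_mul]
      have h5 : ∀ r : ℕ, ∀ y : X, (σ ^ g) ^ r • y = y := by
        intro r
        induction r with
        | zero => intro y; rw [pow_zero, one_smul]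
        | succ r ih => intro y; rw [pow_succ, mul_smul, hσg, ih]
      exact h5 r _
    rw [h6] at hm
    exact hne x0 hm
  let A : Finset X := (Finset.range g).image pt
  let B : Finset X := (Finset.range g).image fun k => bar (pt k)
  have hbarinj : Function.Injective bar := fun x y h => by rw [← hbb x, h, hbb]
  have hAcard : A.card = g := by
    rw [Finset.card_image_of_injOn, Finset.card_range]
    intro k hk l hl h
    exact hinj k (Finset.mem_range.1 hk) l (Finset.mem_range.1 hl) h
  have hBcard : B.card = g := by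
    rw [Finset.card_image_of_injOn, Finset.card_range]
    intro k hk l hl h
    exact hinj k (Finset.mem_range.1 hk) l (Finset.mem_range.1 hl) (hbarinj h)
  have hdisj : Disjoint A B := by
    rw [Finset.disjoint_left]
    intro x hA hB
    obtain ⟨k, -, rfl⟩ := Finset.mem_image.1 hA
    obtain ⟨l, -, hl⟩ := Finset.mem_image.1 hB
    exact hbarpt l k hl
  have hun : A ∪ B = Finset.univ := by
    rw [← Finset.card_eq_iff_eq_univ, Finset.card_union_of_disjoint hdisj, hAcard, hBcard, hcard]
    ring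
  have hsumX : ∀ f : X → ℚ, ∑ x, f x = ∑ k ∈ Finset.range g, f (pt k) +
      ∑ k ∈ Finset.range g, f (bar (pt k)) := by
    intro f
    rw [← hun, Finset.sum_union hdisj, Finset.sum_image, Finset.sum_image]
    · intro k hk l hl h
      exact hinj k (Finset.mem_range.1 hk) l (Finset.mem_range.1 hl) (hbarinj h)
    · intro k hk l hl h
      exact hinj k (Finset.mem_range.1 hk) l (Finset.mem_range.1 hl) h
  have hcov : ∀ x, (∃ k < g, x = pt k) ∨ ∃ k < g, x = bar (pt k) := by
    intro x
    have h1 : x ∈ A ∪ B := by rw [hun]; exact Finset.mem_univ x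
    rcases Finset.mem_union.1 h1 with h | h
    · obtain ⟨k, hk, rfl⟩ := Finset.mem_image.1 h
      exact Or.inl ⟨k, Finset.mem_range.1 hk, rfl⟩
    · obtain ⟨k, hk, rfl⟩ := Finset.mem_image.1 h
      exact Or.inr ⟨k, Finset.mem_range.1 hk, rfl⟩
  -- the function `u0`
  let u0 : X → ℚ := fun x => if x ∈ A then 1 else -1
  have hu0A : ∀ k < g, u0 (pt k) = 1 := fun k hk =>
    if_pos (Finset.mem_image_of_mem pt (Finset.mem_range.2 hk))
  have hu0B : ∀ k < g, u0 (bar (pt k)) = -1 := fun k hk => if_neg fun h =>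
    (Finset.disjoint_left.1 hdisj h) (Finset.mem_image_of_mem _ (Finset.mem_range.2 hk))
  have hu0odd : ∀ x, u0 (bar x) = -u0 x := by
    intro x
    rcases hcov x with ⟨k, hk, rfl⟩ | ⟨k, hk, rfl⟩
    · rw [hu0B k hk, hu0A k hk]
    · rw [hbb, hu0B k hk, hu0A k hk, neg_neg]
  have hu0pm : ∀ x, u0 x = 1 ∨ u0 x = -1 := by
    intro x
    by_cases h : x ∈ A
    · exact Or.inl (if_pos h)
    · exact Or.inr (if_neg h)
  -- the sum
  let S : (X → ℚ) →ₗ[ℚ] ℚ :=
    { toFun := fun f => ∑ k ∈ Finset.range g, f (pt k)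
      map_add' := fun f f' => by simp only [Pi.add_apply, Finset.sum_add_distrib]
      map_smul' := fun c f => by
        simp only [Pi.smul_apply, smul_eq_mul, RingHom.id_apply, Finset.mul_sum] }
  have hS : ∀ f, S f = ∑ k ∈ Finset.range g, f (pt k) := fun _ => rfl
  have hSu0 : S u0 = g := by
    rw [hS, Finset.sum_congr rfl fun k hk => hu0A k (Finset.mem_range.1 hk)]
    simp
  have hg0 : (g : ℚ) ≠ 0 := by exact_mod_cast hg.ne_zero
  have hdot : ∀ f : X → ℚ, (∀ x, f (bar x) = -f x) → ∑ x, f x * u0 x = 2 * S f := by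
    intro f hf
    rw [hsumX, hS]
    have h1 : ∀ k ∈ Finset.range g, f (pt k) * u0 (pt k) = f (pt k) := fun k hk => by
      rw [hu0A k (Finset.mem_range.1 hk), mul_one]
    have h2 : ∀ k ∈ Finset.range g, f (bar (pt k)) * u0 (bar (pt k)) = f (pt k) := fun k hk => by
      rw [hu0B k (Finset.mem_range.1 hk), hf]
      ring
    rw [Finset.sum_congr rfl h1, Finset.sum_congr rfl h2]
    ring
  -- the norm operator
  have hN : ∀ f : X → ℚ, (∀ x, f (bar x) = -f x) → ∀ x,
      ∑ k ∈ Finset.range g, f (σ ^ k • x) = S f * u0 x := by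
    intro f hf
    have hshift : ∀ x, ∑ k ∈ Finset.range g, f (σ ^ k • (σ • x)) =
        ∑ k ∈ Finset.range g, f (σ ^ k • x) := by
      intro x
      have h1 : ∀ k, σ ^ k • (σ • x) = σ ^ (k + 1) • x := fun k => by rw [pow_succ, mul_smul]
      simp only [h1]
      have h2 := Finset.sum_range_succ (fun k => f (σ ^ k • x)) g
      have h3 := Finset.sum_range_succ' (fun k => f (σ ^ k • x)) g
      rw [h3] at h2
      simp only [pow_zero, one_smul, hσg] at h2
      exact add_right_cancel h2
    have hpt' : ∀ k, ∑ l ∈ Finset.range g, f (σ ^ l • pt k) = S f := by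
      intro k
      induction k with
      | zero =>
        simp only [pt, pow_zero, one_smul]
        rfl
      | succ k ih => rw [← hptS, hshift, ih]
    intro x
    rcases hcov x with ⟨k, hk, rfl⟩ | ⟨k, hk, rfl⟩
    · rw [hpt', hu0A k hk, mul_one]
    · rw [hu0B k hk]
      have h1 : ∀ l, f (σ ^ l • bar (pt k)) = -f (σ ^ l • pt k) := fun l => by
        rw [← hbσ, hf]
      simp only [h1, Finset.sum_neg_distrib, hpt']
      ring
  -- the space `V0`
  let V0 : Submodule ℚ (X → ℚ) :=
    { carrier := {f | (∀ x, f (bar x) = -f x) ∧ S f = 0}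
      zero_mem' := ⟨fun x => by simp, map_zero S⟩
      add_mem' := by
        rintro a b ⟨h1, h2⟩ ⟨h3, h4⟩
        refine ⟨fun x => ?_, by rw [map_add, h2, h4, add_zero]⟩
        rw [Pi.add_apply, Pi.add_apply, h1, h3]
        ring
      smul_mem' := by
        rintro c a ⟨h1, h2⟩
        refine ⟨fun x => ?_, by rw [map_smul, h2, smul_zero]⟩
        rw [Pi.smul_apply, Pi.smul_apply, h1, smul_neg] }
  have hV0dim : Module.finrank ℚ V0 ≤ g - 1 := by
    let R : V0 →ₗ[ℚ] (Fin (g - 1) → ℚ) :=
      { toFun := fun f k => f.1 (pt k)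
        map_add' := fun _ _ => rfl
        map_smul' := fun _ _ => rfl }
    have hR : Function.Injective R := by
      rw [injective_iff_map_eq_zero]
      rintro ⟨f, hf1, hf2⟩ h
      have h1 : ∀ k < g - 1, f (pt k) = 0 := fun k hk => congrFun h ⟨k, hk⟩
      have h2 : f (pt (g - 1)) = 0 := by
        rw [hS] at hf2
        have h3 : g = (g - 1) + 1 := by have := hg.pos; omega
        rw [h3, Finset.sum_range_succ] at hf2
        rw [Finset.sum_eq_zero fun k hk => h1 k (Finset.mem_range.1 hk), zero_add] at hf2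
        exact hf2
      have h3 : ∀ k < g, f (pt k) = 0 := by
        intro k hk
        by_cases h4 : k < g - 1
        · exact h1 k h4
        · have h5 : k = g - 1 := by omega
          rw [h5, h2]
      apply Subtype.ext
      funext x
      rcases hcov x with ⟨k, hk, rfl⟩ | ⟨k, hk, rfl⟩
      · exact h3 k hk
      · change f (bar (pt k)) = 0
        rw [hf1, h3 k hk, neg_zero]
    have h1 := LinearMap.finrank_le_finrank_of_injective hR
    rwa [Module.finrank_fin_fun] at h1
  by_cases hW0 : W = ⊥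
  · exact Or.inl hW0
  right
  by_cases hWV : W ⊓ V0 = ⊥
  · -- `W` is the line spanned by `u0`
    right
    obtain ⟨w, hw, hw0⟩ := Submodule.exists_mem_ne_zero_of_ne_bot hW0
    have hSw : S w ≠ 0 := by
      intro h
      have h1 : w ∈ W ⊓ V0 := ⟨hw, hW1 w hw, h⟩
      rw [hWV, Submodule.mem_bot] at h1
      exact hw0 h1
    have hpow : ∀ k, (fun x => w (σ ^ k • x)) ∈ W := fun k => hW2 _ _ hw
    have hu0W : u0 ∈ W := by
      have h1 : (∑ k ∈ Finset.range g, fun x => w (σ ^ k • x)) ∈ W :=
        Submodule.sum_mem _ fun k _ => hpow k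
      have h2 : (∑ k ∈ Finset.range g, fun x => w (σ ^ k • x)) = S w • u0 := by
        funext x
        rw [Finset.sum_apply, hN w (hW1 w hw) x]
        rfl
      rw [h2] at h1
      exact (Submodule.smul_mem_iff W hSw).1 h1
    have hline : ∀ f ∈ W, f = (S f / g) • u0 := by
      intro f hf
      have h1 : f - (S f / g) • u0 ∈ W ⊓ V0 := by
        refine ⟨W.sub_mem hf (W.smul_mem _ hu0W), fun x => ?_, ?_⟩
        · rw [Pi.sub_apply, Pi.sub_apply, Pi.smul_apply, Pi.smul_apply, hW1 f hf, hu0odd]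
          simp only [smul_eq_mul]
          ring
        · rw [map_sub, map_smul, hSu0, smul_eq_mul, div_mul_cancel₀ _ hg0, sub_self]
      rw [hWV, Submodule.mem_bot] at h1
      exact sub_eq_zero.1 h1
    refine ⟨u0, hu0odd, hu0pm, fun τ => ?_, Or.inl ⟨hu0W, fun f hf => ⟨_, hline f hf⟩⟩⟩
    · have h1 := hline _ (hW2 τ u0 hu0W)
      set c := S (fun x => u0 (τ • x)) / g with hc
      have h2 : ∀ x, u0 (τ • x) = c * u0 x := fun x => congrFun h1 x
      have h3 := h2 x0
      have h4 : u0 x0 = 1 := by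
        have := hu0A 0 hg.pos
        simpa [pt] using this
      rw [h4, mul_one] at h3
      rcases hu0pm (τ • x0) with h5 | h5
      · left
        intro x
        rw [h2, ← h3, h5, one_mul]
      · right
        intro x
        rw [h2, ← h3, h5]
        ring
  · -- `W` contains `V0`
    have hV0W : V0 ≤ W := by
      have hnt : Nontrivial (W ⊓ V0 : Submodule ℚ (X → ℚ)) := Submodule.nontrivial_iff_ne_bot.2 hWV
      let T : (W ⊓ V0 : Submodule ℚ (X → ℚ)) →ₗ[ℚ] (W ⊓ V0 : Submodule ℚ (X → ℚ)) :=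
        { toFun := fun f => ⟨fun x => f.1 (σ • x), hW2 σ _ f.2.1, fun x => by
            change f.1 (σ • bar x) = -f.1 (σ • x)
            rw [← hbσ, f.2.2.1], by
            have h1 := hN (fun x => f.1 (σ • x)) (fun x => by
              change f.1 (σ • bar x) = -f.1 (σ • x)
              rw [← hbσ, f.2.2.1]) x0
            have h2 := hN f.1 f.2.2.1 (σ • x0)
            have h3 : ∀ k : ℕ, σ • (σ ^ k • x0) = σ ^ k • (σ • x0) := fun k => by
              rw [← mul_smul, ← mul_smul, ← pow_succ', pow_succ]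
            simp only [h3] at h1
            rw [h2, f.2.2.2, zero_mul] at h1
            have h4 : u0 x0 = 1 := by
              have := hu0A 0 hg.pos
              simpa [pt] using this
            rw [h4, mul_one] at h1
            exact h1.symm⟩
          map_add' := fun _ _ => rfl
          map_smul' := fun _ _ => rfl }
      have hTpow : ∀ (k : ℕ) (f : (W ⊓ V0 : Submodule ℚ (X → ℚ))) (x : X),
          ((T ^ k) f).1 x = f.1 (σ ^ k • x) := by
        intro k
        induction k with
        | zero => intro f x; rw [pow_zero, pow_zero, one_smul]; rfl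
        | succ k ih =>
          intro f x
          rw [pow_succ, Module.End.mul_apply, ih]
          change f.1 (σ • (σ ^ k • x)) = _
          rw [← mul_smul, ← pow_succ']
      have h1 := le_finrank_of_cyclotomic T hg (fun f => by
        apply Subtype.ext
        funext x
        have h2 : ((∑ k ∈ Finset.range g, (T ^ k) f : (W ⊓ V0 : Submodule ℚ (X → ℚ))) : X → ℚ) x =
            ∑ k ∈ Finset.range g, ((T ^ k) f).1 x := by
          rw [Submodule.coe_sum, Finset.sum_apply]
        rw [h2]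
        simp only [hTpow]
        rw [hN f.1 f.2.2.1 x, f.2.2.2, zero_mul]
        rfl)
      have h2 : W ⊓ V0 = V0 := Submodule.eq_of_le_of_finrank_le inf_le_right (hV0dim.trans h1)
      exact inf_eq_right.1 h2
    by_cases hSW : ∃ w ∈ W, S w ≠ 0
    · left
      obtain ⟨w, hw, hSw⟩ := hSW
      intro f hf
      have h1 : f - (S f / S w) • w ∈ V0 := by
        refine ⟨fun x => ?_, ?_⟩
        · rw [Pi.sub_apply, Pi.sub_apply, Pi.smul_apply, Pi.smul_apply, hW1 w hw, hf]
          simp only [smul_eq_mul]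
          ring
        · rw [map_sub, map_smul, smul_eq_mul, div_mul_cancel₀ _ hSw, sub_self]
      have h2 := W.add_mem (hV0W h1) (W.smul_mem (S f / S w) hw)
      rwa [sub_add_cancel] at h2
    · right
      push Not at hSW
      have hWmem : ∀ f, f ∈ W ↔ (∀ x, f (bar x) = -f x) ∧ S f = 0 := fun f =>
        ⟨fun h => ⟨hW1 f h, hSW f h⟩, fun h => hV0W h⟩
      refine ⟨u0, hu0odd, hu0pm, fun τ => ?_, Or.inr fun f => ?_⟩
      · set c := S (fun x => u0 (τ • x)) / g with hc
        set f0 : X → ℚ := fun x => u0 (τ • x) - c * u0 x with hf0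
        have hf0odd : ∀ x, f0 (bar x) = -f0 x := by
          intro x
          simp only [hf0]
          rw [hu0odd, ← hbσ, hu0odd]
          ring
        have hf0S : S f0 = 0 := by
          have h1 : f0 = (fun x => u0 (τ • x)) - c • u0 := rfl
          rw [h1, map_sub, map_smul, hSu0, smul_eq_mul, hc, div_mul_cancel₀ _ hg0, sub_self]
        have hf0W : f0 ∈ W := (hWmem f0).2 ⟨hf0odd, hf0S⟩
        have h1 := (hWmem (fun x => f0 (τ⁻¹ • x))).1 (hW2 τ⁻¹ f0 hf0W)
        have h2 := hdot (fun x => f0 (τ⁻¹ • x)) h1.1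
        rw [h1.2, mul_zero] at h2
        have h3 : ∑ x, f0 (τ⁻¹ • x) * u0 x = ∑ x, f0 x * u0 (τ • x) := by
          rw [← Equiv.sum_comp (MulAction.toPerm τ) (fun x => f0 (τ⁻¹ • x) * u0 x)]
          refine Finset.sum_congr rfl fun x _ => ?_
          rw [MulAction.toPerm_apply, inv_smul_smul]
        have h4 := hdot f0 hf0odd
        rw [hf0S, mul_zero] at h4
        have h5 : ∑ x, f0 x * f0 x = 0 := by
          have h6 : ∀ x, f0 x * f0 x = f0 x * u0 (τ • x) - c * (f0 x * u0 x) := fun x => by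
            simp only [hf0]
            ring
          rw [Finset.sum_congr rfl fun x _ => h6 x, Finset.sum_sub_distrib, ← Finset.mul_sum,
            h4, ← h3, h2]
          ring
        have h6 : ∀ x, f0 x = 0 := by
          intro x
          have h7 := (Finset.sum_eq_zero_iff_of_nonneg (fun y _ => mul_self_nonneg _)).1 h5 x
            (Finset.mem_univ x)
          exact mul_self_eq_zero.1 h7
        have h7 : ∀ x, u0 (τ • x) = c * u0 x := fun x => sub_eq_zero.1 (h6 x)
        have h8 := h7 x0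
        have h9 : u0 x0 = 1 := by
          have := hu0A 0 hg.pos
          simpa [pt] using this
        rw [h9, mul_one] at h8
        rcases hu0pm (τ • x0) with h10 | h10
        · left
          intro x
          rw [h7, ← h8, h10, one_mul]
        · right
          intro x
          rw [h7, ← h8, h10]
          ring
      · rw [hWmem]
        constructor
        · rintro ⟨h1, h2⟩
          exact ⟨h1, by rw [hdot f h1, h2, mul_zero]⟩
        · rintro ⟨h1, h2⟩
          rw [hdot f h1] at h2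
          exact ⟨h1, (mul_eq_zero.1 h2).resolve_left two_ne_zero⟩

end abstract_part

section fields

open NumberField Module Pool.Agent.H204R3.CM Pool.Agent.Y137.MV

/-- A semi-invariant odd function gives an imaginary quadratic subfield. -/
theorem exists_imag {L : Type*} [Field L] [NumberField L] [IsGalois ℚ L] (j : L →+* ℂ)
    {E : Type*} [Field E] [NumberField E] [IsCMField E] (φ0 : E →+* L) (u : (E →+* L) → ℚ)
    (hu1 : ∀ φ, u (cbar φ) = -u φ) (hu2 : ∀ φ, u φ = 1 ∨ u φ = -1)
    (hu3 : ∀ σ : L ≃ₐ[ℚ] L, (∀ φ, u (σ • φ) = u φ) ∨ ∀ φ, u (σ • φ) = -u φ) :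
    ∃ (x : E) (n : ℕ), 0 < n ∧ x ^ 2 = -(n : E) ∧ ∀ φ φ', φ x = φ' x ↔ u φ = u φ' := by
  classical
  have hu0 : ∀ φ, u φ ≠ 0 := fun φ => by rcases hu2 φ with h | h <;> rw [h] <;> norm_num
  -- linear independence of the embeddings
  have hli : ∃ y : E, ∑ φ : E →+* L, (u φ : L) * φ y ≠ 0 := by
    by_contra hcon
    push Not at hcon
    have h1 := linearIndependent_monoidHom E L
    have h2 : LinearIndependent L (fun φ : E →+* L => ((φ : E →* L) : E → L)) :=
      h1.comp (fun φ : E →+* L => (φ : E →* L)) RingHom.coe_monoidHom_injective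
    have h3 := (Fintype.linearIndependent_iff.1 h2) (fun φ => (u φ : L)) (by
      funext y
      rw [Finset.sum_apply]
      exact hcon y) φ0
    exact hu0 φ0 (by exact_mod_cast h3)
  obtain ⟨y, hy⟩ := hli
  set z : L := ∑ φ : E →+* L, (u φ : L) * φ y with hz
  have hact : ∀ (σ : L ≃ₐ[ℚ] L) (ε : ℚ), (∀ φ, u (σ • φ) = ε * u φ) → z = ε * σ z := by
    intro σ ε hε
    have h1 : σ z = ∑ φ : E →+* L, (u φ : L) * (σ • φ) y := by
      rw [hz, map_sum]
      refine Finset.sum_congr rfl fun φ _ => ?_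
      rw [map_mul, map_ratCast]
      rfl
    have h2 : z = ∑ φ : E →+* L, (u (σ • φ) : L) * (σ • φ) y := by
      rw [hz, ← Equiv.sum_comp (MulAction.toPerm σ) (fun φ : E →+* L => (u φ : L) * φ y)]
      rfl
    rw [h1]
    refine h2.trans ?_
    rw [Finset.mul_sum]
    refine Finset.sum_congr rfl fun φ _ => ?_
    rw [hε]
    push_cast
    ring
  have hplus : ∀ σ : L ≃ₐ[ℚ] L, (∀ φ, u (σ • φ) = u φ) → σ z = z := by
    intro σ hσ
    have h1 := hact σ 1 (fun φ => by rw [hσ, one_mul])
    rw [Rat.cast_one, one_mul] at h1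
    exact h1.symm
  have hminus : ∀ σ : L ≃ₐ[ℚ] L, (∀ φ, u (σ • φ) = -u φ) → σ z = -z := by
    intro σ hσ
    have h1 := hact σ (-1) (fun φ => by rw [hσ]; ring)
    rw [Rat.cast_neg, Rat.cast_one, neg_one_mul] at h1
    exact eq_neg_of_add_eq_zero_right (by rw [add_eq_zero_iff_eq_neg]; exact h1)
  -- `z` is in the image of `φ0`
  have hw : ∃ w : E, φ0 w = z := by
    let φa : E →ₐ[ℚ] L := RingHom.equivRatAlgHom E L φ0
    have h1 : z ∈ φa.fieldRange := by
      rw [← IsGalois.fixedField_fixingSubgroup φa.fieldRange, IntermediateField.mem_fixedField_iff]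
      intro σ hσ
      have h2 : σ • φ0 = φ0 := by
        ext x
        exact (IntermediateField.mem_fixingSubgroup_iff _ σ).1 hσ _ ⟨x, rfl⟩
      rcases hu3 σ with h3 | h3
      · exact hplus σ h3
      · exfalso
        have h4 := h3 φ0
        rw [h2] at h4
        exact hu0 φ0 (by linarith)
    exact h1
  obtain ⟨w, hw⟩ := hw
  -- the square of `z` is rational
  have hsq : ∃ r : ℚ, (r : L) = z ^ 2 := by
    have h1 : z ^ 2 ∈ (⊥ : IntermediateField ℚ L) := by
      rw [IsGalois.mem_bot_iff_fixed]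
      intro σ
      rcases hu3 σ with h3 | h3
      · rw [map_pow, hplus σ h3]
      · rw [map_pow, hminus σ h3, neg_sq]
    obtain ⟨r, hr⟩ := IntermediateField.mem_bot.1 h1
    exact ⟨r, by rw [← hr]; exact (eq_ratCast (algebraMap ℚ L) r).symm⟩
  obtain ⟨r, hr⟩ := hsq
  -- complex conjugation
  obtain ⟨c, hc⟩ := H194R3.CM.exists_restrict j (starRingEnd ℂ)
  have hcφ : ∀ ψ : E →+* L, c • ψ = cbar ψ := by
    intro ψ
    apply H194R3.CM.comp_injective j
    rw [H194R3.CM.comp_smul_of_restrict j _ c hc, comp_cbar]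
    rfl
  have hcz : c z = -z := hminus c fun φ => by rw [hcφ, hu1]
  have hrneg : r < 0 := by
    have h1 : starRingEnd ℂ (j z) = -j z := by
      rw [← hc, hcz, map_neg]
    have h2 : (j z) * starRingEnd ℂ (j z) = ((Complex.normSq (j z) : ℝ) : ℂ) := Complex.mul_conj _
    have h3 : ((r : ℝ) : ℂ) = ((-Complex.normSq (j z) : ℝ) : ℂ) := by
      rw [Complex.ofReal_neg, ← h2, h1, Complex.ofReal_ratCast, ← map_ratCast j, hr, map_pow]
      ring
    have h4 : (r : ℝ) = -Complex.normSq (j z) := Complex.ofReal_injective h3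
    have h5 : 0 < Complex.normSq (j z) := Complex.normSq_pos.2 ((_root_.map_ne_zero j).2 hy)
    have h6 : (r : ℝ) < 0 := by rw [h4]; linarith
    exact_mod_cast h6
  have hwr : w ^ 2 = (r : E) := by
    apply φ0.injective
    rw [map_pow, hw, map_ratCast, hr]
  -- the values of the embeddings
  have hval : ∀ φ : E →+* L, (u φ = u φ0 → φ w = z) ∧ (u φ ≠ u φ0 → φ w = -z) := by
    intro φ
    obtain ⟨σ, rfl⟩ := MulAction.exists_smul_eq (L ≃ₐ[ℚ] L) φ0 φ
    have h1 : (σ • φ0) w = σ z := by rw [← hw]; rfl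
    rw [h1]
    rcases hu3 σ with h3 | h3
    · exact ⟨fun _ => hplus σ h3, fun h => absurd (h3 φ0) h⟩
    · refine ⟨fun h => ?_, fun _ => hminus σ h3⟩
      exfalso
      rw [h3] at h
      exact hu0 φ0 (by linarith)
  have hzz : z ≠ -z := by
    intro h
    apply hy
    have h1 : (2 : L) * z = 0 := by linear_combination h
    exact (mul_eq_zero.1 h1).resolve_left two_ne_zero
  have hw2 : ∀ φ φ' : E →+* L, φ w = φ' w ↔ u φ = u φ' := by
    intro φ φ'
    by_cases h1 : u φ = u φ0 <;> by_cases h2 : u φ' = u φ0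
    · rw [(hval φ).1 h1, (hval φ').1 h2, h1, h2]
      simp
    · rw [(hval φ).1 h1, (hval φ').2 h2, h1]
      exact ⟨fun h => absurd h hzz, fun h => absurd h.symm h2⟩
    · rw [(hval φ).2 h1, (hval φ').1 h2, h2]
      exact ⟨fun h => absurd h.symm hzz, fun h => absurd h h1⟩
    · rw [(hval φ).2 h1, (hval φ').2 h2]
      refine ⟨fun _ => ?_, fun _ => rfl⟩
      rcases hu2 φ with h3 | h3 <;> rcases hu2 φ' with h4 | h4 <;> rcases hu2 φ0 with h5 | h5 <;>
        simp_all
  have hden : (r.den : ℚ) ≠ 0 := by exact_mod_cast r.den_nz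
  refine ⟨w * (r.den : E), (-r.num).toNat * r.den, ?_, ?_, fun φ φ' => ?_⟩
  · have h1 : r.num < 0 := Rat.num_neg.2 hrneg
    have h2 := r.den_pos
    refine Nat.mul_pos ?_ h2
    omega
  · have h1 : r.num < 0 := Rat.num_neg.2 hrneg
    have h2 : (((-r.num).toNat : ℤ)) = -r.num := Int.toNat_of_nonneg (by omega)
    have h3 : (((-r.num).toNat : ℕ) : E) = -((r.num : ℤ) : E) := by
      rw [← Int.cast_natCast, h2, Int.cast_neg]
    have h4 : (r : E) * (r.den : E) = ((r.num : ℤ) : E) := by
      have h5 := Rat.mul_den_eq_num r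
      exact_mod_cast congrArg (fun x : ℚ => (x : E)) h5
    rw [mul_pow, hwr, Nat.cast_mul, h3, ← h4]
    ring
  · rw [map_mul, map_mul, map_natCast, map_natCast, ← hw2 φ φ']
    exact mul_left_inj' (by exact_mod_cast r.den_nz)

/-- Stable spaces of odd functions on the embeddings of a CM field of degree `2 g`, `g` an odd prime:
zero, everything, or the line of the character of an imaginary quadratic subfield, or the orthogonal
space of this line. -/
theorem prime_triC {E : Type} [Field E] [NumberField E] [IsCMField E] {g : ℕ}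
    (hg : g.Prime) (hodd : g ≠ 2) (hE : finrank ℚ E = 2 * g) (W : Submodule ℚ ((E →+* ℂ) → ℚ))
    (hW1 : ∀ n ∈ W, IsOdd n)
    (hW2 : ∀ τ : ℂ ≃+* ℂ, ∀ n ∈ W, (fun φ => n ((τ : ℂ →+* ℂ).comp φ)) ∈ W) :
    W = ⊥ ∨ (∀ n, IsOdd n → n ∈ W) ∨
      ∃ (x : E) (n : ℕ) (u : (E →+* ℂ) → ℚ), 0 < n ∧ x ^ 2 = -(n : E) ∧ IsOdd u ∧
        (∀ φ, u φ = 1 ∨ u φ = -1) ∧ (∀ φ φ', φ x = φ' x ↔ u φ = u φ') ∧
        ((u ∈ W ∧ ∀ f ∈ W, ∃ c : ℚ, f = c • u) ∨
          ∀ f, f ∈ W ↔ IsOdd f ∧ ∑ φ, f φ * u φ = 0) := by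
  classical
  obtain ⟨L, hLa, hLb, j, h⟩ := exists_galois (fun _ : Unit => E)
  let J : (E →+* L) ≃ (E →+* ℂ) := embEquiv j (h ())
  have hJ : ∀ φ, J φ = j.comp φ := fun φ => rfl
  let B : ((E →+* L) → ℚ) →ₗ[ℚ] ((E →+* ℂ) → ℚ) :=
    { toFun := fun m ψ => m (J.symm ψ)
      map_add' := fun _ _ => rfl
      map_smul' := fun _ _ => rfl }
  have hBJ : ∀ m φ, B m (J φ) = m φ := fun m φ => by
    change m (J.symm (J φ)) = m φ
    rw [Equiv.symm_apply_apply]
  have hsurj : ∀ n : (E →+* ℂ) → ℚ, B (fun φ => n (J φ)) = n := by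
    intro n
    funext ψ
    change n (J (J.symm ψ)) = n ψ
    rw [Equiv.apply_symm_apply]
  have hJbar : ∀ φ : E →+* L, J (cbar φ) = ComplexEmbedding.conjugate (J φ) := fun φ => by
    rw [hJ, comp_cbar, hJ]
  have hBodd : ∀ m : (E →+* L) → ℚ, (∀ φ, m (cbar φ) = -m φ) → IsOdd (B m) := by
    intro m hm ψ
    obtain ⟨φ, rfl⟩ := J.surjective ψ
    rw [← hJbar, hBJ, hBJ, hm]
  rcases prime_tri (X := E →+* L) (G := L ≃ₐ[ℚ] L) (bar := cbar) cbar_cbar cbar_ne
      (fun σ x => rfl) hg hodd (by rw [card_emb j (h ()), hE]) (W.comap B) (fun m hm φ => by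
        have h1 := hW1 _ hm (J φ)
        rw [hBJ, hJ, ← comp_cbar, ← hJ, hBJ] at h1
        exact h1) (fun σ m hm => by
        obtain ⟨τ, hτ⟩ := H977R3.CM.exists_aut j (σ : L ≃+* L)
        have h1 := hW2 τ _ hm
        have h2 : B (fun x => m (σ • x)) = fun ψ => B m ((τ : ℂ →+* ℂ).comp ψ) := by
          funext ψ
          obtain ⟨φ, rfl⟩ := J.surjective ψ
          have h3 : (τ : ℂ →+* ℂ).comp (J φ) = J (σ • φ) := by
            ext x
            exact hτ (φ x)
          rw [h3, hBJ, hBJ]
        rw [Submodule.mem_comap, h2]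
        exact h1) with h1 | h1 | ⟨u, hu1, hu2, hu3, hu4⟩
  · left
    rw [Submodule.eq_bot_iff]
    intro n hn
    have h2 : (fun φ => n (J φ)) ∈ W.comap B := by
      rw [Submodule.mem_comap, hsurj]
      exact hn
    rw [h1, Submodule.mem_bot] at h2
    rw [← hsurj n, h2, map_zero]
  · right
    left
    intro n hn
    have h2 := h1 (fun φ => n (J φ)) (fun φ => by rw [hJbar, hn])
    rw [Submodule.mem_comap, hsurj] at h2
    exact h2
  · right
    right
    obtain ⟨ψ⟩ : Nonempty (E →+* ℂ) := inferInstance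
    obtain ⟨x, n, hn, hx, hux⟩ := exists_imag j (J.symm ψ) u hu1 hu2 hu3
    refine ⟨x, n, B u, hn, hx, hBodd u hu1, fun φ => ?_, fun φ φ' => ?_, ?_⟩
    · exact hu2 _
    · obtain ⟨φ, rfl⟩ := J.surjective φ
      obtain ⟨φ', rfl⟩ := J.surjective φ'
      rw [hBJ, hBJ, ← hux]
      exact ⟨fun h => j.injective h, fun h => congrArg j h⟩
    · rcases hu4 with ⟨h2, h3⟩ | h2
      · left
        refine ⟨h2, fun f hf => ?_⟩
        obtain ⟨c, hc⟩ := h3 (fun φ => f (J φ)) (by rw [Submodule.mem_comap, hsurj]; exact hf)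
        refine ⟨c, ?_⟩
        rw [← hsurj f, hc, map_smul]
      · right
        intro f
        have h3 := h2 (fun φ => f (J φ))
        rw [Submodule.mem_comap, hsurj] at h3
        rw [h3]
        have h4 : ∑ φ, f φ * B u φ = ∑ φ, f (J φ) * u φ := by
          rw [← Equiv.sum_comp J (fun φ => f φ * B u φ)]
          refine Finset.sum_congr rfl fun φ _ => ?_
          rw [hBJ]
        rw [h4]
        constructor
        · rintro ⟨h5, h6⟩
          refine ⟨fun ψ => ?_, h6⟩
          obtain ⟨φ, rfl⟩ := J.surjective ψ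
          rw [← hJbar, h5]
        · rintro ⟨h5, h6⟩
          exact ⟨fun φ => by rw [hJbar, h5], h6⟩

/-- **The odd functions on the embeddings of a CM field of degree `2 g`, `g` an odd prime, which
contains no imaginary quadratic field are irreducible.** -/
theorem oddIrreducible_of_prime {E : Type} [Field E] [NumberField E] [IsCMField E] {g : ℕ}
    (hg : g.Prime) (hodd : g ≠ 2) (hE : finrank ℚ E = 2 * g)
    (himag : ∀ (x : E) (n : ℕ), 0 < n → x ^ 2 ≠ -(n : E)) : OddIrreducible E := by
  intro W hW1 hW2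
  rcases prime_triC hg hodd hE W hW1 hW2 with h | h | ⟨x, n, u, hn, hx, -⟩
  · exact Or.inl h
  · exact Or.inr h
  · exact absurd hx (himag x n hn)

end fields

end Pool.Agent.Q306.TP
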