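import Mathlib
import Pool.Agent.Q306.TP.Prime

/-!
# Fields of smaller degree than a CM field of degree twice an odd prime
-/

set_option autoImplicit false

namespace Pool.Agent.Q306.TP

open NumberField Module Pool.Agent.H204R3.CM Pool.Agent.Y137.MV

/-- Elements of `g`-power order act trivially on sets with less than `2 g` elements and a
compatible involution without fixed points. -/
theorem trivial_small {Y : Type*} [Fintype Y] {G : Type*} [Group G] [MulAction G Y]
    {bar : Y → Y} (hbb : ∀ x, bar (bar x) = x) (hne : ∀ x, bar x ≠ x)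
    (hbσ : ∀ (σ : G) x, bar (σ • x) = σ • bar x) {g : ℕ} (hg : g.Prime) (hodd : g ≠ 2)
    (hcard : Fintype.card Y < 2 * g) (s : G) {a : ℕ} (hs : s ^ g ^ a = 1) (y : Y) : s • y = y := by
  classical
  have hgodd : g % 2 = 1 := hg.eq_two_or_odd.resolve_left hodd
  set P := Function.minimalPeriod (fun x : Y => s • x) y with hP
  have hit : ∀ k, (fun x : Y => s • x)^[k] y = s ^ k • y := by
    intro k
    rw [smul_iterate]
  have hPdvd : P ∣ g ^ a := by
    apply Function.IsPeriodicPt.minimalPeriod_dvd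
    change (fun x : Y => s • x)^[g ^ a] y = y
    rw [hit, hs, one_smul]
  obtain ⟨b, hb, hPb⟩ := (Nat.dvd_prime_pow hg).1 hPdvd
  rcases Nat.eq_zero_or_pos b with hb0 | hb0
  · rw [hb0, pow_zero] at hPb
    exact Function.minimalPeriod_eq_one_iff_isFixedPt.1 hPb
  exfalso
  have hgP : g ≤ P := by
    rw [hPb]
    exact Nat.le_of_dvd (pow_pos hg.pos _) (dvd_pow_self g hb0.ne')
  have hPodd : P % 2 = 1 := by
    rw [hPb]
    exact Nat.odd_iff.1 ((Nat.odd_iff.2 hgodd).pow)
  have hmodeq : ∀ k, s ^ k • y = y → P ∣ k := by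
    intro k hk
    rw [← hit] at hk
    exact Function.IsPeriodicPt.minimalPeriod_dvd hk
  have hinj : ∀ k < P, ∀ l < P, s ^ k • y = s ^ l • y → k = l := by
    intro k hk l hl h
    rw [← hit, ← hit] at h
    exact (Function.iterate_injOn_Iio_minimalPeriod (f := fun x : Y => s • x) (x := y)) hk hl h
  have hbarinj : Function.Injective bar := fun x y h => by rw [← hbb x, h, hbb]
  have hbarpt : ∀ k l, bar (s ^ k • y) ≠ s ^ l • y := by
    intro k l h
    have h1 : ∃ m, bar y = s ^ m • y := by
      refine ⟨l + (g ^ a - 1) * k, ?_⟩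
      have h2 : bar (s ^ k • y) = s ^ k • bar y := hbσ _ _
      rw [h2] at h
      have h3 : s ^ ((g ^ a - 1) * k) • (s ^ k • bar y) = bar y := by
        rw [← mul_smul, ← pow_add]
        have h4 : (g ^ a - 1) * k + k = g ^ a * k := by
          have h5 : g ^ a = (g ^ a - 1) + 1 := by have := pow_pos hg.pos a; omega
          calc (g ^ a - 1) * k + k = ((g ^ a - 1) + 1) * k := by ring
            _ = g ^ a * k := by rw [← h5]
        rw [h4, pow_mul, hs, one_pow, one_smul]
      rw [h] at h3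
      rw [← h3, ← mul_smul, ← pow_add, add_comm]
    obtain ⟨m, hm⟩ := h1
    have h2 : s ^ (m + m) • y = y := by
      rw [pow_add, mul_smul, ← hm, ← hbσ, ← hm, hbb]
    have h3 := hmodeq _ h2
    have h4 : P ∣ 2 * m := by rw [two_mul]; exact h3
    have h5 : P ∣ m := (Nat.Coprime.dvd_mul_left (by
      rw [Nat.coprime_comm, Nat.coprime_two_left]
      exact Nat.odd_iff.2 hPodd)).1 h4
    have h6 : s ^ m • y = y := by
      rw [← hit]
      exact (Function.isPeriodicPt_iff_minimalPeriod_dvd).2 h5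
    rw [h6] at hm
    exact hne y hm
  let A : Finset Y := (Finset.range P).image fun k => s ^ k • y
  let B : Finset Y := (Finset.range P).image fun k => bar (s ^ k • y)
  have hAcard : A.card = P := by
    rw [Finset.card_image_of_injOn, Finset.card_range]
    intro k hk l hl h
    exact hinj k (Finset.mem_range.1 hk) l (Finset.mem_range.1 hl) h
  have hBcard : B.card = P := by
    rw [Finset.card_image_of_injOn, Finset.card_range]
    intro k hk l hl h
    exact hinj k (Finset.mem_range.1 hk) l (Finset.mem_range.1 hl) (hbarinj h)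
  have hdisj : Disjoint A B := by
    rw [Finset.disjoint_left]
    intro x hA hB
    obtain ⟨k, -, rfl⟩ := Finset.mem_image.1 hA
    obtain ⟨l, -, hl⟩ := Finset.mem_image.1 hB
    exact hbarpt l k hl
  have h1 := Finset.card_le_univ (A ∪ B)
  rw [Finset.card_union_of_disjoint hdisj, hAcard, hBcard] at h1
  omega

/-- If `K` is a CM field of degree `2 g`, `g` an odd prime, and `E` a CM field of smaller degree,
some automorphism fixes all embeddings of `E` and not all embeddings of `K`. -/
theorem exists_move_of_degree {K : Type} [Field K] [NumberField K] [IsCMField K] {g : ℕ}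
    (hg : g.Prime) (hodd : g ≠ 2) (hK : finrank ℚ K = 2 * g) {E : Type} [Field E] [NumberField E]
    [IsCMField E] (hdeg : finrank ℚ E < finrank ℚ K) :
    ∃ τ : ℂ ≃+* ℂ, (∀ ψ : E →+* ℂ, (τ : ℂ →+* ℂ).comp ψ = ψ) ∧
      ∃ φ : K →+* ℂ, (τ : ℂ →+* ℂ).comp φ ≠ φ := by
  classical
  let F : Bool → Type := fun b => if b then K else E
  let fld : ∀ b, Field (F b) := fun b => by
    cases b
    · exact (inferInstance : Field E)
    · exact (inferInstance : Field K)
  have nf : ∀ b, @NumberField (F b) (fld b) := fun b => by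
    cases b
    · exact (inferInstance : NumberField E)
    · exact (inferInstance : NumberField K)
  obtain ⟨L, hLa, hLb, j, hj⟩ := exists_galois F
  have hKL : ∀ ψ : K →+* ℂ, ∃ φ : K →+* L, j.comp φ = ψ := hj true
  have hEL : ∀ ψ : E →+* ℂ, ∃ φ : E →+* L, j.comp φ = ψ := hj false
  have hcardK : Fintype.card (K →+* L) = 2 * g := by rw [card_emb j hKL, hK]
  have hcardE : Fintype.card (E →+* L) < 2 * g := by rw [card_emb j hEL, ← hK]; exact hdeg
  obtain ⟨σ, hσg, hσne⟩ := exists_cycle (X := K →+* L) (G := L ≃ₐ[ℚ] L) (bar := cbar) cbar_cbar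
    cbar_ne (fun σ x => rfl) hg hodd hcardK
  have hfin : Finite (L ≃ₐ[ℚ] L) := inferInstance
  have hord : orderOf σ ≠ 0 := (orderOf_pos σ).ne'
  obtain ⟨a, m, hm, hr⟩ := Nat.exists_eq_pow_mul_and_not_dvd hord g hg.ne_one
  obtain ⟨φ0, -⟩ : ∃ φ0 : K →+* L, True := by
    obtain ⟨ψ⟩ : Nonempty (K →+* ℂ) := inferInstance
    obtain ⟨φ, -⟩ := hKL ψ
    exact ⟨φ, trivial⟩
  have hs : (σ ^ m) ^ g ^ a = 1 := by
    rw [← pow_mul, mul_comm, ← hr]
    exact pow_orderOf_eq_one σ
  have hmove : (σ ^ m) • φ0 ≠ φ0 := by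
    intro h
    have h1 : Function.IsPeriodicPt (fun x : K →+* L => σ • x) m φ0 := by
      change (fun x : K →+* L => σ • x)^[m] φ0 = φ0
      rw [smul_iterate]
      exact h
    have h2 : Function.IsPeriodicPt (fun x : K →+* L => σ • x) g φ0 := by
      change (fun x : K →+* L => σ • x)^[g] φ0 = φ0
      rw [smul_iterate]
      exact hσg φ0
    have h3 := h1.gcd h2
    have h4 : Nat.gcd m g = 1 := by
      rw [← Nat.coprime_iff_gcd_eq_one, Nat.coprime_comm]
      exact (Nat.Prime.coprime_iff_not_dvd hg).2 hm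
    rw [h4] at h3
    exact hσne φ0 h3
  obtain ⟨τ, hτ⟩ := H977R3.CM.exists_aut j ((σ ^ m : L ≃ₐ[ℚ] L) : L ≃+* L)
  have hcomp : ∀ {F' : Type} [Field F'] (φ : F' →+* L),
      (τ : ℂ →+* ℂ).comp (j.comp φ) = j.comp ((σ ^ m) • φ) := by
    intro F' _ φ
    ext x
    exact hτ (φ x)
  refine ⟨τ, fun ψ => ?_, j.comp φ0, fun h => hmove ?_⟩
  · obtain ⟨ψ', rfl⟩ := hEL ψ
    rw [hcomp, trivial_small (bar := cbar) cbar_cbar cbar_ne (fun σ x => rfl) hg hodd hcardE
      (σ ^ m) hs ψ']
  · rw [hcomp] at h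
    exact RingHom.ext fun x => j.injective (RingHom.congr_fun h x)

end Pool.Agent.Q306.TP
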