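import Mathlib
import Pool.Agent.Q306.TP.Gal
import Pool.Agent.H977R3.CM.Aut

/-!
# Unrelated numbers and Galois closures
-/

set_option autoImplicit false

namespace Pool.Agent.Q306.TP

open NumberField Module IntermediateField Pool.Agent.H204R3.CM Pool.Agent.Y137.MV
  Pool.Agent.Y1.CT

theorem comp_conj' {K : Type} [Field K] [NumberField K] [IsCMField K] (ρ : ℂ →+* ℂ) (ψ : K →+* ℂ) :
    ρ.comp (ComplexEmbedding.conjugate ψ) = ComplexEmbedding.conjugate (ρ.comp ψ) := by
  ext x
  rw [ComplexEmbedding.conjugate_coe_eq, ← IsCMField.complexEmbedding_complexConj,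
    RingHom.comp_apply, ComplexEmbedding.conjugate_coe_eq,
    ← IsCMField.complexEmbedding_complexConj]
  rfl

/-- If the odd functions on the embeddings of `K` are irreducible and some automorphism fixes all
conjugates of `α` but not all embeddings of `K`, then `α` is unrelated to `K`. -/
theorem unrelated_of_aut {K : Type} [Field K] [NumberField K] [IsCMField K]
    (hirr : OddIrreducible K) {α : ℂ} (τ : ℂ ≃+* ℂ) (hτ : ∀ σ : ℂ ≃+* ℂ, τ (σ α) = σ α)
    (φ : K →+* ℂ) (hφ : (τ : ℂ →+* ℂ).comp φ ≠ φ) : UnrelatedTo K α := by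
  classical
  intro n hn hinv
  by_contra hn0
  let W : Submodule ℚ ((K →+* ℂ) → ℚ) :=
    { carrier := {m | IsOdd m ∧ ∀ κ : ℂ ≃+* ℂ, (∀ σ : ℂ ≃+* ℂ, κ (σ α) = σ α) →
        ∀ ψ, m ((κ : ℂ →+* ℂ).comp ψ) = m ψ}
      zero_mem' := ⟨fun ψ => by simp, fun _ _ _ => rfl⟩
      add_mem' := by
        rintro a b ⟨h1, h2⟩ ⟨h3, h4⟩
        refine ⟨fun ψ => ?_, fun κ hκ ψ => ?_⟩
        · rw [Pi.add_apply, Pi.add_apply, h1, h3]
          ring
        · rw [Pi.add_apply, Pi.add_apply, h2 κ hκ, h4 κ hκ]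
      smul_mem' := by
        rintro c a ⟨h1, h2⟩
        refine ⟨fun ψ => ?_, fun κ hκ ψ => ?_⟩
        · rw [Pi.smul_apply, Pi.smul_apply, h1, smul_neg]
        · rw [Pi.smul_apply, Pi.smul_apply, h2 κ hκ] }
  have hnW : n ∈ W := ⟨hn, fun κ hκ ψ => hinv κ ⟨1, one_pos, by
    rw [pow_one]
    exact hκ (RingEquiv.refl ℂ)⟩ ψ⟩
  rcases hirr W (fun m hm => hm.1) (by
      rintro ρ m ⟨h1, h2⟩
      refine ⟨fun ψ => ?_, fun κ hκ ψ => ?_⟩
      · change m ((ρ : ℂ →+* ℂ).comp (ComplexEmbedding.conjugate ψ)) = -m ((ρ : ℂ →+* ℂ).comp ψ)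
        rw [← h1]
        congr 1
        exact comp_conj' (ρ : ℂ →+* ℂ) ψ
      · change m ((ρ : ℂ →+* ℂ).comp ((κ : ℂ →+* ℂ).comp ψ)) = m ((ρ : ℂ →+* ℂ).comp ψ)
        have h3 := h2 (ρ.symm.trans (κ.trans ρ)) (fun σ => by
          have h4 := hκ (σ.trans ρ.symm)
          simp only [RingEquiv.coe_trans, Function.comp_apply] at h4 ⊢
          rw [h4]
          exact ρ.apply_symm_apply _) ((ρ : ℂ →+* ℂ).comp ψ)
        rw [← h3]
        congr 1
        ext x
        simp) with h | h
  · rw [h, Submodule.mem_bot] at hnW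
    exact hn0 hnW
  · have hne : ∀ ψ : K →+* ℂ, ComplexEmbedding.conjugate ψ ≠ ψ := by
      intro ψ h3
      have h4 := IsCMField.complexConj_ne_one K
      apply h4
      ext x
      apply ψ.injective
      have h5 := RingHom.congr_fun h3 x
      rw [ComplexEmbedding.conjugate_coe_eq] at h5
      rw [IsCMField.complexEmbedding_complexConj]
      exact h5
    obtain ⟨-, h2⟩ := h (fun ψ => (if ψ = φ then 1 else 0) -
      (if ψ = ComplexEmbedding.conjugate φ then 1 else 0)) (by
        intro ψ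
        have h3 : ComplexEmbedding.conjugate ψ = φ ↔ ψ = ComplexEmbedding.conjugate φ := by
          constructor
          · rintro rfl
            ext x; simp
          · rintro rfl
            ext x; simp
        have h4 : ComplexEmbedding.conjugate ψ = ComplexEmbedding.conjugate φ ↔ ψ = φ := by
          constructor
          · intro h5
            have h6 := congrArg ComplexEmbedding.conjugate h5
            have h7 : ∀ χ : K →+* ℂ,
                ComplexEmbedding.conjugate (ComplexEmbedding.conjugate χ) = χ := by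
              intro χ; ext x; simp
            rwa [h7, h7] at h6
          · rintro rfl; rfl
        simp only [h3, h4]
        ring)
    have h3 := h2 τ hτ φ
    have e2 : φ ≠ ComplexEmbedding.conjugate φ := fun h => hne φ h.symm
    by_cases e3 : (τ : ℂ →+* ℂ).comp φ = ComplexEmbedding.conjugate φ
    · simp only [if_neg hφ, if_neg e2, if_pos e3, if_true] at h3
      norm_num at h3
    · simp only [if_neg hφ, if_neg e2, if_neg e3, if_true] at h3
      norm_num at h3

/-- An automorphism which detects that a Galois closure is not contained in another one. -/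
theorem exists_aut_of_not_le {E E' : Type} [Field E] [NumberField E] [Field E'] [NumberField E']
    (h : ¬ normalClosure ℚ E ℂ ≤ normalClosure ℚ E' ℂ) :
    ∃ τ : ℂ ≃+* ℂ, (∀ φ : E' →+* ℂ, (τ : ℂ →+* ℂ).comp φ = φ) ∧
      ∃ φ : E →+* ℂ, (τ : ℂ →+* ℂ).comp φ ≠ φ := by
  by_contra hcon
  push Not at hcon
  apply h
  let F : Bool → Type := fun b => if b then E else E'
  let fld : ∀ b, Field (F b) := fun b => by
    cases b
    · exact (inferInstance : Field E')
    · exact (inferInstance : Field E)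
  have nf : ∀ b, @NumberField (F b) (fld b) := fun b => by
    cases b
    · exact (inferInstance : NumberField E')
    · exact (inferInstance : NumberField E)
  obtain ⟨L, hLa, hLb, j, hj⟩ := exists_galois F
  have hE : ∀ ψ : E →+* ℂ, ∃ φ : E →+* L, j.comp φ = ψ := hj true
  have hE' : ∀ ψ : E' →+* ℂ, ∃ φ : E' →+* L, j.comp φ = ψ := hj false
  rw [normalClosure_le_iff]
  rintro ψ _ ⟨a, rfl⟩
  obtain ⟨φ, hφ⟩ := hE (ψ : E →+* ℂ)
  have h0 : ψ a = j (φ a) := (RingHom.congr_fun hφ a).symm
  change ψ a ∈ normalClosure ℚ E' ℂ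
  rw [h0]
  let K : IntermediateField ℚ L := normalClosure ℚ E' L
  have h1 : φ a ∈ K := by
    rw [← IsGalois.fixedField_fixingSubgroup K, IntermediateField.mem_fixedField_iff]
    intro τ hτ
    obtain ⟨κ, hκ⟩ := H977R3.CM.exists_aut j (τ : L ≃+* L)
    have h2 := hcon κ (by
      intro χ
      obtain ⟨φ', rfl⟩ := hE' χ
      ext b
      change κ (j (φ' b)) = j (φ' b)
      rw [hκ]
      congr 1
      change τ (φ' b) = φ' b
      refine (IntermediateField.mem_fixingSubgroup_iff K τ).1 hτ _ ?_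
      exact (RingHom.equivRatAlgHom E' L φ').fieldRange_le_normalClosure ⟨b, rfl⟩) (j.comp φ)
    have h3 := RingHom.congr_fun h2 a
    change κ (j (φ a)) = j (φ a) at h3
    rw [hκ] at h3
    exact j.injective h3
  let jj : L →ₐ[ℚ] ℂ := RingHom.equivRatAlgHom L ℂ j
  have h2 : K ≤ (normalClosure ℚ E' ℂ).comap jj := by
    rw [normalClosure_le_iff]
    rintro φ' _ ⟨b, rfl⟩
    change jj (φ' b) ∈ normalClosure ℚ E' ℂ
    exact (jj.comp φ').fieldRange_le_normalClosure ⟨b, rfl⟩
  exact h2 h1

/-- If the Galois closure of `K` is not contained in that of `E`, elements of `E` are unrelated to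
`K`. -/
theorem unrelated_of_closure {K E : Type} [Field K] [NumberField K] [IsCMField K] [Field E]
    [NumberField E] (hirr : OddIrreducible K)
    (h : ¬ normalClosure ℚ K ℂ ≤ normalClosure ℚ E ℂ) (φ : E →+* ℂ) (x : E) :
    UnrelatedTo K (φ x) := by
  obtain ⟨τ, h1, ψ, h2⟩ := exists_aut_of_not_le h
  exact unrelated_of_aut hirr τ (fun σ => RingHom.congr_fun (h1 ((σ : ℂ →+* ℂ).comp φ)) x) ψ h2

end Pool.Agent.Q306.TP
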