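import Mathlib
import Pool.Agent.Q306.TP.Prime
import Pool.Agent.Q306.TP.Closure

/-!
# Numbers unrelated to CM fields of degree twice an odd prime
-/

set_option autoImplicit false

namespace Pool.Agent.Q306.TP

open NumberField Module Pool.Agent.H204R3.CM Pool.Agent.Y137.MV Pool.Agent.Y1.CT

/-- Algebraic numbers fixed by all automorphisms over a number field. -/
theorem mem_range_of_fixed {K E : Type} [Field K] [NumberField K] [Field E] [NumberField E]
    (φ : K →+* ℂ) (ψ : E →+* ℂ) (x : K)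
    (h : ∀ τ : ℂ ≃+* ℂ, (τ : ℂ →+* ℂ).comp ψ = ψ → τ (φ x) = φ x) : ∃ y : E, ψ y = φ x := by
  let F : Bool → Type := fun b => if b then K else E
  let fld : ∀ b, Field (F b) := fun b => by
    cases b
    · exact (inferInstance : Field E)
    · exact (inferInstance : Field K)
  have nf : ∀ b, @NumberField (F b) (fld b) := fun b => by
    cases b
    · exact (inferInstance : NumberField E)
    · exact (inferInstance : NumberField K)
  obtain ⟨L, hLa, hLb, j, hj⟩ := exists_galois F
  have hK : ∀ ψ : K →+* ℂ, ∃ φ : K →+* L, j.comp φ = ψ := hj true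
  have hE : ∀ ψ : E →+* ℂ, ∃ φ : E →+* L, j.comp φ = ψ := hj false
  obtain ⟨φ', rfl⟩ := hK φ
  obtain ⟨ψ', rfl⟩ := hE ψ
  let ψa : E →ₐ[ℚ] L := RingHom.equivRatAlgHom E L ψ'
  have h1 : φ' x ∈ ψa.fieldRange := by
    rw [← IsGalois.fixedField_fixingSubgroup ψa.fieldRange, IntermediateField.mem_fixedField_iff]
    intro σ hσ
    obtain ⟨τ, hτ⟩ := H977R3.CM.exists_aut j (σ : L ≃+* L)
    have h2 := h τ (by
      ext b
      change τ (j (ψ' b)) = j (ψ' b)
      rw [hτ]
      exact congrArg j ((IntermediateField.mem_fixingSubgroup_iff _ σ).1 hσ _ ⟨b, rfl⟩))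
    change τ (j (φ' x)) = j (φ' x) at h2
    rw [hτ] at h2
    exact j.injective h2
  obtain ⟨y, hy⟩ := h1
  exact ⟨y, congrArg j hy⟩

/-- The elements of `E` are unrelated to a CM field of degree `2 g`, `g` an odd prime, if no
imaginary quadratic field is contained in both fields and some automorphism fixes all embeddings of
`E` and not all embeddings of `K`. -/
theorem unrelated_prime {K : Type} [Field K] [NumberField K] [IsCMField K] {g : ℕ} (hg : g.Prime)
    (hodd : g ≠ 2) (hK : finrank ℚ K = 2 * g) {E : Type} [Field E] [NumberField E]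
    (hmove : ∃ τ : ℂ ≃+* ℂ, (∀ ψ : E →+* ℂ, (τ : ℂ →+* ℂ).comp ψ = ψ) ∧
      ∃ φ : K →+* ℂ, (τ : ℂ →+* ℂ).comp φ ≠ φ)
    (hcommon : ∀ (x : K) (y : E) (n : ℕ), 0 < n → x ^ 2 = -(n : K) → y ^ 2 ≠ -(n : E))
    (ψ : E →+* ℂ) (y : E) : UnrelatedTo K (ψ y) := by
  classical
  intro n hn hinv
  by_contra hn0
  obtain ⟨τ, hτE, φ, hφ⟩ := hmove
  let W : Submodule ℚ ((K →+* ℂ) → ℚ) :=
    { carrier := {m | IsOdd m ∧ ∀ κ : ℂ ≃+* ℂ, (∀ ψ : E →+* ℂ, (κ : ℂ →+* ℂ).comp ψ = ψ) →
        ∀ ψ, m ((κ : ℂ →+* ℂ).comp ψ) = m ψ}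
      zero_mem' := ⟨fun ψ => by simp, fun _ _ _ => rfl⟩
      add_mem' := by
        rintro a b ⟨h1, h2⟩ ⟨h3, h4⟩
        refine ⟨fun ψ => ?_, fun κ hκ ψ => ?_⟩
        · rw [Pi.add_apply, Pi.add_apply, h1, h3]
          ring
        · rw [Pi.add_apply, Pi.add_apply, h2 κ hκ, h4 κ hκ]
      smul_mem' := by
        rintro c a ⟨h1, h2⟩
        refine ⟨fun ψ => ?_, fun κ hκ ψ => ?_⟩
        · rw [Pi.smul_apply, Pi.smul_apply, h1, smul_neg]
        · rw [Pi.smul_apply, Pi.smul_apply, h2 κ hκ] }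
  have hinv' : ∀ κ : ℂ ≃+* ℂ, (κ : ℂ →+* ℂ).comp ψ = ψ → ∀ χ, n ((κ : ℂ →+* ℂ).comp χ) = n χ :=
    fun κ hκ χ => hinv κ ⟨1, one_pos, by
      rw [pow_one]
      exact RingHom.congr_fun hκ y⟩ χ
  have hnW : n ∈ W := ⟨hn, fun κ hκ χ => hinv' κ (hκ ψ) χ⟩
  have hne : ∀ ψ : K →+* ℂ, ComplexEmbedding.conjugate ψ ≠ ψ := by
    intro ψ h3
    have h4 := IsCMField.complexConj_ne_one K
    apply h4
    ext x
    apply ψ.injective
    have h5 := RingHom.congr_fun h3 x
    rw [ComplexEmbedding.conjugate_coe_eq] at h5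
    rw [IsCMField.complexEmbedding_complexConj]
    exact h5
  have hcc : ∀ χ : K →+* ℂ, ComplexEmbedding.conjugate (ComplexEmbedding.conjugate χ) = χ := by
    intro χ; ext x; simp
  -- the basic odd functions
  let d : (K →+* ℂ) → (K →+* ℂ) → ℚ := fun χ χ' => (if χ' = χ then 1 else 0) -
    (if χ' = ComplexEmbedding.conjugate χ then 1 else 0)
  have hd : ∀ χ, IsOdd (d χ) := by
    intro χ χ'
    have h3 : ComplexEmbedding.conjugate χ' = χ ↔ χ' = ComplexEmbedding.conjugate χ :=
      ⟨fun h => by rw [← h, hcc], fun h => by rw [h, hcc]⟩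
    have h4 : ComplexEmbedding.conjugate χ' = ComplexEmbedding.conjugate χ ↔ χ' = χ :=
      ⟨fun h => by rw [← hcc χ', h, hcc], fun h => by rw [h]⟩
    simp only [d, h3, h4]
    ring
  rcases prime_triC hg hodd hK W (fun m hm => hm.1) (by
      rintro ρ m ⟨h1, h2⟩
      refine ⟨fun χ => ?_, fun κ hκ χ => ?_⟩
      · change m ((ρ : ℂ →+* ℂ).comp (ComplexEmbedding.conjugate χ)) = -m ((ρ : ℂ →+* ℂ).comp χ)
        rw [← h1]
        congr 1
        exact comp_conj' (ρ : ℂ →+* ℂ) χ
      · change m ((ρ : ℂ →+* ℂ).comp ((κ : ℂ →+* ℂ).comp χ)) = m ((ρ : ℂ →+* ℂ).comp χ)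
        have h3 := h2 (ρ.symm.trans (κ.trans ρ)) (fun χ' => by
          have h4 := hκ ((ρ.symm : ℂ →+* ℂ).comp χ')
          ext b
          have h5 := RingHom.congr_fun h4 b
          change κ (ρ.symm (χ' b)) = ρ.symm (χ' b) at h5
          change ρ (κ (ρ.symm (χ' b))) = χ' b
          rw [h5]
          exact ρ.apply_symm_apply _) ((ρ : ℂ →+* ℂ).comp χ)
        rw [← h3]
        congr 1
        ext x
        simp) with h | h | ⟨x, k, u, hk, hx, huodd, hupm, hux, h | h⟩
  · rw [h, Submodule.mem_bot] at hnW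
    exact hn0 hnW
  · obtain ⟨-, h2⟩ := h (d φ) (hd φ)
    have h3 := h2 τ hτE φ
    have e2 : φ ≠ ComplexEmbedding.conjugate φ := fun h => hne φ h.symm
    by_cases e3 : (τ : ℂ →+* ℂ).comp φ = ComplexEmbedding.conjugate φ
    · simp only [d, if_neg hφ, if_neg e2, if_pos e3, if_true] at h3
      norm_num at h3
    · simp only [d, if_neg hφ, if_neg e2, if_neg e3, if_true] at h3
      norm_num at h3
  · -- the line
    obtain ⟨c, hc⟩ := h.2 n hnW
    have hc0 : c ≠ 0 := by
      rintro rfl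
      rw [zero_smul] at hc
      exact hn0 hc
    have hu : ∀ κ : ℂ ≃+* ℂ, (κ : ℂ →+* ℂ).comp ψ = ψ → ∀ χ, u ((κ : ℂ →+* ℂ).comp χ) = u χ := by
      intro κ hκ χ
      have h1 := hinv' κ hκ χ
      rw [hc] at h1
      exact mul_left_cancel₀ hc0 h1
    obtain ⟨y', hy'⟩ := mem_range_of_fixed φ ψ x (fun κ hκ => (hux _ _).2 (hu κ hκ φ))
    refine hcommon x y' k hk hx ?_
    apply ψ.injective
    rw [map_pow, hy', ← map_pow, hx, map_neg, map_neg, map_natCast, map_natCast]
  · -- the orthogonal space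
    have hu0 : ∀ χ, u χ ≠ 0 := fun χ => by rcases hupm χ with h | h <;> rw [h] <;> norm_num
    -- the embeddings with the same sign
    let A : Finset (K →+* ℂ) := Finset.univ.filter fun χ => u χ = u φ
    have hAcard : A.card = g := by
      have h1 : Finset.univ.filter (fun χ => ¬ u χ = u φ) = A.image ComplexEmbedding.conjugate := by
        ext χ
        rw [Finset.mem_filter, Finset.mem_image]
        constructor
        · rintro ⟨-, h2⟩
          refine ⟨ComplexEmbedding.conjugate χ, Finset.mem_filter.2 ⟨Finset.mem_univ _, ?_⟩, hcc χ⟩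
          rw [huodd]
          rcases hupm χ with h3 | h3 <;> rcases hupm φ with h4 | h4 <;> rw [h3, h4] at h2 ⊢ <;>
            simp_all
        · rintro ⟨χ', h2, rfl⟩
          refine ⟨Finset.mem_univ _, fun h3 => ?_⟩
          rw [huodd, (Finset.mem_filter.1 h2).2] at h3
          exact hu0 φ (by linarith)
      have h2 := Finset.card_filter_add_card_filter_not
        (s := (Finset.univ : Finset (K →+* ℂ))) (fun χ => u χ = u φ)
      rw [h1, Finset.card_image_of_injective _ (fun a b hab => by rw [← hcc a, hab, hcc]),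
        Finset.card_univ, Embeddings.card, hK] at h2
      change A.card + A.card = 2 * g at h2
      omega
    have hgge : 3 ≤ g := by
      have h1 := hg.two_le
      omega
    have hφA : φ ∈ A := Finset.mem_filter.2 ⟨Finset.mem_univ _, rfl⟩
    have h1 : 1 < (A.erase φ).card := by
      rw [Finset.card_erase_of_mem hφA, hAcard]
      omega
    obtain ⟨φ2, h2, φ3, h3, h23⟩ := Finset.one_lt_card.1 h1
    have key : ∀ χ ∈ A.erase φ, (τ : ℂ →+* ℂ).comp φ = ComplexEmbedding.conjugate χ := by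
      intro χ hχ
      have hχne : χ ≠ φ := (Finset.mem_erase.1 hχ).1
      have hχu : u χ = u φ := (Finset.mem_filter.1 (Finset.mem_erase.1 hχ).2).2
      have hmem : d φ - d χ ∈ W := by
        rw [h]
        refine ⟨fun χ' => ?_, ?_⟩
        · rw [Pi.sub_apply, Pi.sub_apply, hd, hd]
          ring
        · have h5 : ∀ χ0 : K →+* ℂ, ∑ χ', d χ0 χ' * u χ' = 2 * u χ0 := by
            intro χ0
            simp only [d, sub_mul, ite_mul, one_mul, zero_mul, Finset.sum_sub_distrib,
              Finset.sum_ite_eq', Finset.sum_ite_eq, Finset.mem_univ, if_true, huodd]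
            rw [huodd]
            ring
          simp only [Pi.sub_apply, sub_mul, Finset.sum_sub_distrib, h5, hχu]
          ring
      have h5 := hmem.2 τ hτE φ
      have e1 : φ ≠ ComplexEmbedding.conjugate φ := fun h => hne φ h.symm
      have e2 : φ ≠ ComplexEmbedding.conjugate χ := by
        intro h6
        have h7 := huodd χ
        rw [← h6, hχu] at h7
        exact hu0 φ (by linarith)
      simp only [Pi.sub_apply, d, if_true, if_neg e1, if_neg e2, if_neg hχne.symm] at h5
      by_contra h6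
      rw [if_neg hφ, if_neg h6] at h5
      split_ifs at h5 <;> norm_num at h5
    have h4 := (key φ2 h2).symm.trans (key φ3 h3)
    apply h23
    rw [← hcc φ2, h4, hcc]

end Pool.Agent.Q306.TP
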