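import Mathlib
import Pool.Agent.Q306.TP.Gal
import Pool.Agent.Q306.TP.PrimeUn
import Pool.Agent.Q306.TP.PrimeDeg

/-!
# Maximal angle rank of families of Weil numbers
-/

set_option autoImplicit false

namespace Pool.Agent.Q306.TP

open NumberField Module Finset IntermediateField Pool.Agent.H204R3.CM Pool.Agent.Y137.MV
  Pool.Agent.Y1.CT

theorem cconj {F : Type*} [Field F] (φ : F →+* ℂ) :
    ComplexEmbedding.conjugate (ComplexEmbedding.conjugate φ) = φ := by
  ext x
  simp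

theorem prod_zpow_sum {ι : Type*} (s : Finset ι) (f : ι → ℤ) {a : ℂ} (ha : a ≠ 0) :
    ∏ i ∈ s, a ^ f i = a ^ ∑ i ∈ s, f i := by
  classical
  induction s using Finset.induction_on with
  | empty => simp
  | insert i s hi ih => rw [Finset.prod_insert hi, Finset.sum_insert hi, ih, zpow_add₀ ha]

/-- A symmetric product of the conjugates of a Weil number is a square root of a power of `q`. -/
theorem sq_of_sym {q : ℕ} (hq : q ≠ 0) {K : Type} [Field K] [NumberField K] [IsCMField K] {π : K}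
    (hw : π * IsCMField.complexConj K π = (q : K)) (n : (K →+* ℂ) → ℤ)
    (hn : ∀ φ, n φ = n (ComplexEmbedding.conjugate φ)) :
    (∏ φ : K →+* ℂ, φ π ^ n φ) ^ 2 = (q : ℂ) ^ (∑ φ, n φ) := by
  classical
  have hπ0 : π ≠ 0 := by
    intro h0
    rw [h0, zero_mul] at hw
    exact Nat.cast_ne_zero.2 hq hw.symm
  have hv : ∀ φ : K →+* ℂ, φ π ≠ 0 := fun φ => (_root_.map_ne_zero φ).2 hπ0
  let eb : Equiv.Perm (K →+* ℂ) :=
    ⟨ComplexEmbedding.conjugate, ComplexEmbedding.conjugate, cconj, cconj⟩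
  have h1 : ∏ φ : K →+* ℂ, φ π ^ n φ =
      ∏ φ : K →+* ℂ, (ComplexEmbedding.conjugate φ π) ^ n φ := by
    rw [← Equiv.prod_comp eb (fun φ => φ π ^ n φ)]
    refine Finset.prod_congr rfl fun φ _ => ?_
    change (ComplexEmbedding.conjugate φ π) ^ n (ComplexEmbedding.conjugate φ) = _
    rw [← hn]
  rw [sq]
  nth_rewrite 2 [h1]
  rw [← Finset.prod_mul_distrib]
  have hq0 : (q : ℂ) ≠ 0 := Nat.cast_ne_zero.2 hq
  have h2 : ∀ φ : K →+* ℂ, φ π ^ n φ * (ComplexEmbedding.conjugate φ π) ^ n φ = (q : ℂ) ^ n φ := by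
    intro φ
    rw [← mul_zpow]
    congr 1
    rw [ComplexEmbedding.conjugate_coe_eq, ← IsCMField.complexEmbedding_complexConj, ← map_mul,
      hw, map_natCast]
  rw [Finset.prod_congr rfl fun φ _ => h2 φ, prod_zpow_sum _ _ hq0]

/-- **Maximal angle rank of ordered families.** If each Weil number has maximal angle rank and the
conjugates of the lower ones are unrelated to the fields of the higher ones, the family has maximal
angle rank. -/
theorem angle_of_order {q : ℕ} (hq : q ≠ 0) {I : Type} [Fintype I] {F : I → Type}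
    [∀ i, Field (F i)] [∀ i, NumberField (F i)] [∀ i, IsCMField (F i)] {π : ∀ i, F i}
    (hw : ∀ i, π i * IsCMField.complexConj (F i) (π i) = (q : F i)) (c : I → ℕ)
    (hc : Function.Injective c)
    (hun : ∀ i k, c k < c i → ∀ φ : F k →+* ℂ, UnrelatedTo (F i) (φ (π k)))
    (hsing : ∀ i, MaximalAngleRank q (fun _ : Unit => π i)) : MaximalAngleRank q π := by
  classical
  intro r n hrel
  have hπ0 : ∀ i, π i ≠ 0 := by
    intro i h0
    have h1 := hw i
    rw [h0, zero_mul] at h1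
    exact Nat.cast_ne_zero.2 hq h1.symm
  have hv : ∀ x : (Σ i, (F i →+* ℂ)), x.2 (π x.1) ≠ 0 := fun x => (_root_.map_ne_zero _).2 (hπ0 _)
  have hq0 : (q : ℂ) ≠ 0 := Nat.cast_ne_zero.2 hq
  by_contra hcon
  -- the factors with exponents which are not symmetric
  let B : Finset I := Finset.univ.filter fun i => ¬ ∀ φ : F i →+* ℂ,
    n ⟨i, φ⟩ = n ⟨i, ComplexEmbedding.conjugate φ⟩
  have hB : ∀ i, i ∈ B ↔ ¬ ∀ φ : F i →+* ℂ, n ⟨i, φ⟩ = n ⟨i, ComplexEmbedding.conjugate φ⟩ :=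
    fun i => by simp [B]
  have hBne : B.Nonempty := by
    by_contra hBe
    rw [Finset.not_nonempty_iff_eq_empty] at hBe
    apply hcon
    intro i φ
    by_contra h
    have h1 : i ∈ B := (hB i).2 fun h2 => h (h2 φ)
    rw [hBe] at h1
    exact Finset.notMem_empty i h1
  obtain ⟨i, hiB, hmax⟩ := Finset.exists_max_image B c hBne
  -- the parts of the relation
  let P : I → ℂ := fun k => ∏ φ : F k →+* ℂ, φ (π k) ^ n ⟨k, φ⟩
  have htot : ∏ k, P k = (q : ℂ) ^ r := by
    rw [← hrel, Fintype.prod_sigma]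
  have hhigh : ∀ k, c i < c k → P k ^ 2 = (q : ℂ) ^ (∑ φ : F k →+* ℂ, n ⟨k, φ⟩) := by
    intro k hk
    refine sq_of_sym hq (hw k) (fun φ => n ⟨k, φ⟩) ?_
    by_contra h
    exact absurd (hmax k ((hB k).2 h)) (not_le.2 hk)
  let lo : Finset I := Finset.univ.filter fun k => c k < c i
  let hi : Finset I := Finset.univ.filter fun k => c i < c k
  have hsplit : ∏ k, P k = P i * ((∏ k ∈ lo, P k) * ∏ k ∈ hi, P k) := by
    have h1 : (Finset.univ : Finset I) = insert i (lo ∪ hi) := by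
      ext k
      simp only [lo, hi, Finset.mem_univ, Finset.mem_insert, Finset.mem_union, Finset.mem_filter,
        true_and, true_iff]
      rcases lt_trichotomy (c k) (c i) with h | h | h
      · exact Or.inr (Or.inl h)
      · exact Or.inl (hc h)
      · exact Or.inr (Or.inr h)
    have h2 : i ∉ lo ∪ hi := by
      simp [lo, hi]
    have h3 : Disjoint lo hi := by
      rw [Finset.disjoint_left]
      intro k hk hk'
      exact lt_asymm (Finset.mem_filter.1 hk).2 (Finset.mem_filter.1 hk').2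
    rw [h1, Finset.prod_insert h2, Finset.prod_union h3]
  -- the numbers of the lower factors
  let y : (Σ k : {k // c k < c i}, (F k.1 →+* ℂ)) → ℂ := fun x => (x.2 (π x.1.1)) ^ (-(n ⟨x.1.1, x.2⟩))
  have hylo : ∏ x, y x = (∏ k ∈ lo, P k)⁻¹ := by
    rw [Fintype.prod_sigma, ← Finset.prod_inv_distrib]
    have h1 : ∏ k ∈ lo, (P k)⁻¹ = ∏ k : {k // c k < c i}, (P k.1)⁻¹ := by
      rw [← Finset.prod_subtype lo (p := fun k => c k < c i) (fun k => by simp [lo])
        (fun k => (P k)⁻¹)]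
    rw [h1]
    refine Finset.prod_congr rfl fun k _ => ?_
    simp only [y, P]
    rw [← Finset.prod_inv_distrib]
    exact Finset.prod_congr rfl fun φ _ => zpow_neg _ _
  let e : ℤ := ∑ k ∈ hi, ∑ φ : F k →+* ℂ, n ⟨k, φ⟩
  have hhi2 : (∏ k ∈ hi, P k) ^ 2 = (q : ℂ) ^ e := by
    rw [← Finset.prod_pow, Finset.prod_congr rfl fun k hk => hhigh k (Finset.mem_filter.1 hk).2,
      prod_zpow_sum _ _ hq0]
  have hPi : ∀ k, P k ≠ 0 := fun k =>
    Finset.prod_ne_zero_iff.2 fun φ _ => zpow_ne_zero _ (hv ⟨k, φ⟩)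
  have hlo0 : ∏ k ∈ lo, P k ≠ 0 := Finset.prod_ne_zero_iff.2 fun k _ => hPi k
  have hhi0 : ∏ k ∈ hi, P k ≠ 0 := Finset.prod_ne_zero_iff.2 fun k _ => hPi k
  have hfin : (∏ x, y x) ^ 2 * (q : ℂ) ^ (2 * r - e) = (P i) ^ 2 := by
    rw [hylo, zpow_sub₀ hq0, ← hhi2, zpow_mul, zpow_ofNat]
    have h1 : ((q : ℂ) ^ (2 : ℕ)) ^ r = (P i * ((∏ k ∈ lo, P k) * ∏ k ∈ hi, P k)) ^ 2 := by
      rw [← hsplit, htot, ← zpow_natCast, ← zpow_natCast, ← zpow_mul, ← zpow_mul, mul_comm]
    rw [h1]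
    field_simp
  have hprodi : ∏ x : (Σ _ : Unit, (F i →+* ℂ)), x.2 (π i) ^ n ⟨i, x.2⟩ = P i := by
    rw [Fintype.prod_sigma]
    simp only [Finset.univ_unique, Finset.prod_singleton]
    rfl
  obtain ⟨s, hs, h1⟩ := coreC (F := fun _ : Unit => F i) (π := fun _ => π i) hq (fun _ => hw i) y
    (fun x => zpow_ne_zero _ (hv ⟨x.1.1, x.2⟩)) (fun x => by
      have h2 : IsIntegral ℚ (π x.1.1) := Algebra.IsIntegral.isIntegral _
      have h3 : IsIntegral ℚ (x.2.toRatAlgHom (π x.1.1)) := h2.map _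
      have h4 : IsAlgebraic ℚ (x.2 (π x.1.1)) := h3.isAlgebraic
      have h5 : ∀ k : ℤ, IsAlgebraic ℚ ((x.2 (π x.1.1)) ^ k) := by
        intro k
        rcases k with k | k
        · rw [Int.ofNat_eq_natCast, zpow_natCast]
          exact h4.pow k
        · rw [zpow_negSucc]
          exact (h4.pow _).inv
      exact h5 _) (fun x _ => unrelated_zpow (hun i x.1.1 x.1.2 x.2) _)
    (fun x => n ⟨i, x.2⟩) (N := 2) two_pos (2 * r - e) (by rw [hfin, hprodi])
  have h2 := hsing i 0 (fun x => (s : ℤ) * (n ⟨i, x.2⟩ - n ⟨i, ComplexEmbedding.conjugate x.2⟩)) (by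
    rw [zpow_zero, ← h1, ← Finset.prod_pow]
    refine Finset.prod_congr rfl fun x _ => ?_
    rw [← zpow_natCast, ← zpow_mul, mul_comm])
  apply (hB i).1 hiB
  intro φ
  have h3 := h2 () φ
  simp only [cconj] at h3
  have hs0 : (s : ℤ) ≠ 0 := by exact_mod_cast hs.ne'
  have h4 := mul_left_cancel₀ hs0 h3
  omega

end Pool.Agent.Q306.TP
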