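import Mathlib
import Pool.Agent.TH117.BL.Defs

/-!
# Weil relations and common imaginary quadratic subfields: definitions
-/

set_option autoImplicit false

namespace Pool.Agent.Q306.TP

open NumberField Module Pool.Agent.W547.KB Pool.Agent.W495.TA Pool.Agent.TH117.BL

/-- Some imaginary quadratic field is contained in both fields. -/
def CommonImaginary (K E : Type) [Field K] [Field E] : Prop :=
  ∃ (x : K) (y : E) (n : ℕ), 0 < n ∧ x ^ 2 = -(n : K) ∧ y ^ 2 = -(n : E)

variable {p : ℕ} [Fact p.Prime] {ν : PadicAlgCl p ≃+* ℂ}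

open Classical in
/-- The Frobenius endomorphism `π` of the factor satisfies no Weil relation: if `K` is an imaginary
quadratic subfield (generated by a square root `x` of `-n`) of the CM field `E` of the factor then
`N (π) ^ (4 * s) ≠ q ^ (s * [E : ℚ])`, for all `s > 0`, for the norm `N` from `E` to `K` (the product
of the values at `π` of the embeddings with the same value at `x`). -/
def NoWeilRelation (Z : RedAV p ν) (i : Z.X.I) : Prop :=
  ∀ (x : (Z.X.factor i).E) (n : ℕ), 0 < n → x ^ 2 = -(n : (Z.X.factor i).E) →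
    ∀ (φ₀ : (Z.X.factor i).E →+* ℂ) (s : ℕ), 0 < s →
      (∏ φ : (Z.X.factor i).E →+* ℂ with φ x = φ₀ x, φ (Z.π i)) ^ (4 * s) ≠
        ((p : ℂ) ^ Z.a) ^ (s * finrank ℚ (Z.X.factor i).E)

end Pool.Agent.Q306.TP
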