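import Mathlib
import Pool.Agent.Q306.TP.PrimeDefs
import Pool.Agent.Y137.MV.Defs

/-!
# Weil numbers in CM fields of degree `2 g`, `g` prime: definitions
-/

set_option autoImplicit false

namespace Pool.Agent.Q306.TP

open NumberField Module IntermediateField Pool.Agent.Y137.MV

/-- The Weil number `π` (for `q`) is supersingular: a power of it is a power of a square root of `q`. -/
def IsSS {K : Type} [Field K] (q : ℕ) (π : K) : Prop := ∃ s : ℕ, 0 < s ∧ π ^ (2 * s) = (q : K) ^ s

open Classical in
/-- The Weil number `π` (for `q`) satisfies no Weil relation: if `k` is an imaginary quadratic subfield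
(generated by a square root `x` of `-n`) of the CM field `K` then
`N (π) ^ (4 * s) ≠ q ^ (s * [K : ℚ])`, for all `s > 0`, for the norm `N` from `K` to `k` (the product
of the values at `π` of the embeddings with the same value at `x`). -/
def NoWeil {K : Type} [Field K] [NumberField K] (q : ℕ) (π : K) : Prop :=
  ∀ (x : K) (n : ℕ), 0 < n → x ^ 2 = -(n : K) → ∀ (φ₀ : K →+* ℂ) (s : ℕ), 0 < s →
    (∏ φ : K →+* ℂ with φ x = φ₀ x, φ π) ^ (4 * s) ≠ (q : ℂ) ^ (s * finrank ℚ K)

/-- The slopes of the Weil number `π` (for `p ^ a`) are only `0`, `1 / 2` and `1`, and the slope `0`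
occurs for an odd number of embeddings. (For instance, `π` is ordinary and the number of the complex
embeddings is not divisible by four, or the slope `0` occurs exactly once.) -/
def HasOddRank (p a : ℕ) [Fact p.Prime] {K : Type} [Field K] (π : K) : Prop :=
  (∀ τ : K →+* PadicAlgCl p, ‖τ π‖ = 1 ∨ ‖τ π‖ ^ 2 = ‖(p : PadicAlgCl p) ^ a‖ ∨
    ‖τ π‖ = ‖(p : PadicAlgCl p) ^ a‖) ∧
  Odd (Nat.card {τ : K →+* PadicAlgCl p // ‖τ π‖ = 1})

/-- The Weil number `π` (for `p ^ a`) is not supersingular and either the odd functions on the embeddings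
of the CM field `K` are irreducible, or `K` has the degree `2 g` for an odd prime number `g`, all powers
of `π` generate `K`, and there is no Weil relation (for instance because `K` has no imaginary quadratic
subfield) or the slopes are `0`, `1 / 2`, `1` with an odd number of slopes `0`. -/
def IsSimpleWeil (p a : ℕ) [Fact p.Prime] {K : Type} [Field K] [NumberField K] (π : K) : Prop :=
  ¬ IsSS (p ^ a) π ∧ (OddIrreducible K ∨
    ((∃ g : ℕ, g.Prime ∧ g ≠ 2 ∧ finrank ℚ K = 2 * g) ∧ (∀ s : ℕ, 0 < s → ℚ⟮π ^ s⟯ = ⊤) ∧
      (NoWeil (p ^ a) π ∨ HasOddRank p a π)))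

/-- The degrees or the normal closures of the fields are different, and there is no imaginary quadratic
field contained in both fields. -/
def IsDifferent (K E : Type) [Field K] [NumberField K] [Field E] [NumberField E] : Prop :=
  (finrank ℚ K = finrank ℚ E → normalClosure ℚ K ℂ ≠ normalClosure ℚ E ℂ) ∧ ¬ CommonImaginary K E

end Pool.Agent.Q306.TP
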