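import Mathlib
import Pool.Agent.Q306.TP.Gal
import Pool.Agent.H977R3.CM.Aut

/-!
# Numbers of small degree are unrelated to fields with irreducible odd functions
-/

set_option autoImplicit false

namespace Pool.Agent.Q306.TP

open NumberField Module Pool.Agent.H204R3.CM Pool.Agent.Y137.MV Pool.Agent.Y1.CT

/-- If the odd functions on the embeddings of the CM field `K` are irreducible, all numbers of
degree less than the degree of `K` are unrelated to `K`. -/
theorem unrelated_of_degree {K : Type} [Field K] [NumberField K] [IsCMField K]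
    (hirr : OddIrreducible K) {α : ℂ} (halg : IsAlgebraic ℚ α)
    (hdeg : (minpoly ℚ α).natDegree < finrank ℚ K) : UnrelatedTo K α := by
  classical
  obtain ⟨L, hLa, hLb, j, h, hroots⟩ := exists_galois_roots (fun _ : Unit => K) (minpoly ℚ α)
    (minpoly.ne_zero halg.isIntegral)
  obtain ⟨β, hβ⟩ := hroots α (minpoly.aeval ℚ α)
  intro n hn hinv
  funext ψ
  obtain ⟨φ, rfl⟩ := h () ψ
  obtain ⟨c, hc⟩ := H194R3.CM.exists_restrict j (starRingEnd ℂ)
  have hcφ : ∀ ψ : K →+* L, c • ψ = cbar ψ := by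
    intro ψ
    apply H194R3.CM.comp_injective j
    rw [H194R3.CM.comp_smul_of_restrict j _ c hc, comp_cbar]
    rfl
  have horb : (MulAction.orbit (L ≃ₐ[ℚ] L) β) ⊆ (minpoly ℚ β).rootSet L := by
    rintro _ ⟨g, rfl⟩
    rw [Polynomial.mem_rootSet]
    refine ⟨minpoly.ne_zero (Algebra.IsIntegral.isIntegral β), ?_⟩
    have h3 := Polynomial.aeval_algHom_apply (g : L →ₐ[ℚ] L) β (minpoly ℚ β)
    rw [minpoly.aeval, map_zero] at h3
    exact h3
  have hfin : Finite (MulAction.orbit (L ≃ₐ[ℚ] L) β) :=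
    ((Polynomial.rootSet_finite _ _).subset horb).to_subtype
  have hmin : minpoly ℚ α = minpoly ℚ β := by
    rw [← hβ]
    exact minpoly.algHom_eq (RingHom.equivRatAlgHom L ℂ j) j.injective β
  obtain ⟨σ, hσβ, hσφ⟩ := core_deg (E := K →+* L) (G := L ≃ₐ[ℚ] L) cbar cbar_cbar cbar_ne
    (fun g x => rfl) c hcφ (irr_transfer j (h ()) hirr) β (by
      rw [card_emb j (h ())]
      refine lt_of_le_of_lt ?_ hdeg
      rw [hmin]
      have h3 : Nat.card (MulAction.orbit (L ≃ₐ[ℚ] L) β) ≤ Nat.card ((minpoly ℚ β).rootSet L) :=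
        Nat.card_mono (Polynomial.rootSet_finite _ _) horb
      refine h3.trans ?_
      rw [Nat.card_coe_set_eq]
      exact Polynomial.ncard_rootSet_le _ _) φ
  obtain ⟨τ, hτ⟩ := H977R3.CM.exists_aut j (σ : L ≃+* L)
  have hτα : τ (α ^ 1) = α ^ 1 := by
    rw [pow_one, ← hβ, hτ]
    exact congrArg j hσβ
  have h1 := hinv τ ⟨1, one_pos, hτα⟩ (j.comp φ)
  have h2 : (τ : ℂ →+* ℂ).comp (j.comp φ) = ComplexEmbedding.conjugate (j.comp φ) := by
    rw [← comp_cbar, ← hσφ]
    ext x
    exact hτ (φ x)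
  rw [h2, hn] at h1
  change n (j.comp φ) = 0
  linarith

end Pool.Agent.Q306.TP
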