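import Mathlib
import Pool.Agent.Q306.TP.Gal
import Pool.Agent.Y137.SF.Main

/-!
# Relations between the Frobenius eigenvalues of abelian varieties over finite fields with
unrelated blocks of factors
-/

set_option autoImplicit false

namespace Pool.Agent.Q306.TP

open NumberField Module Finset Pool.Agent.H204R3.CM Pool.Agent.W547.KB Pool.Agent.W495.TA
  Pool.Agent.TH117.BL Pool.Agent.Y137.SF Pool.Agent.Y137.MV Pool.Agent.Y1.CT

variable {p : ℕ} [Fact p.Prime] {ν : PadicAlgCl p ≃+* ℂ}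

theorem weil_mul (Z : RedAV p ν) (i : Z.X.I) :
    Z.π i * IsCMField.complexConj (Z.X.factor i).E (Z.π i) =
      ((p ^ Z.a : ℕ) : (Z.X.factor i).E) := by
  obtain ⟨φ⟩ : Nonempty ((Z.X.factor i).E →+* ℂ) := inferInstance
  apply φ.injective
  rw [map_mul, IsCMField.complexEmbedding_complexConj, Complex.mul_conj, Complex.normSq_eq_norm_sq,
    (Z.frob i).weil φ, map_natCast]
  push_cast
  rfl

theorem eig_ne_zero (Z : RedAV p ν) (w : Emb Z) : eig Z w ≠ 0 := by
  have h1 := (Z.frob w.1).weil w.2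
  intro h
  have h2 : w.2 (Z.π w.1) = 0 := h
  rw [h2, norm_zero, zero_pow two_ne_zero] at h1
  have h3 : (0 : ℝ) < (p : ℝ) ^ Z.a :=
    pow_pos (by exact_mod_cast (Fact.out : p.Prime).pos) _
  linarith

/-- The conjugate. -/
def wbar (Z : RedAV p ν) (w : Emb Z) : Emb Z := ⟨w.1, ComplexEmbedding.conjugate w.2⟩

theorem conj_conj {F : Type*} [Field F] (φ : F →+* ℂ) :
    ComplexEmbedding.conjugate (ComplexEmbedding.conjugate φ) = φ := by
  ext x
  simp

theorem wbar_wbar (Z : RedAV p ν) (w : Emb Z) : wbar Z (wbar Z w) = w := by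
  rcases w with ⟨i, φ⟩
  exact congrArg (Sigma.mk i) (conj_conj φ)

theorem eig_mul_wbar (Z : RedAV p ν) (w : Emb Z) :
    eig Z w * eig Z (wbar Z w) = (p : ℂ) ^ Z.a := by
  rcases w with ⟨i, φ⟩
  change φ (Z.π i) * ComplexEmbedding.conjugate φ (Z.π i) = _
  rw [ComplexEmbedding.conjugate_coe_eq, Complex.mul_conj, Complex.normSq_eq_norm_sq,
    (Z.frob i).weil φ]
  push_cast
  rfl

/-- Products over a set of factors. -/
theorem prod_part (Z : RedAV p ν) (P : Set Z.X.I) [DecidablePred (· ∈ P)] (f : Emb Z → ℂ) :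
    (∏ w : Emb Z, if w.1 ∈ P then f w else 1) =
      ∏ x : (Σ i : {i // i ∈ P}, ((Z.X.factor i.1).E →+* ℂ)), f ⟨x.1.1, x.2⟩ := by
  classical
  rw [Fintype.prod_sigma, Fintype.prod_sigma]
  rw [← Finset.prod_subtype (s := Finset.univ.filter (· ∈ P)) (p := (· ∈ P)) (by simp)
    (fun i => ∏ φ : ((Z.X.factor i).E →+* ℂ), f ⟨i, φ⟩), Finset.prod_filter]
  refine Finset.prod_congr rfl fun i _ => ?_
  by_cases hi : i ∈ P
  · simp only [if_pos hi]
  · simp only [if_neg hi, Finset.prod_const_one]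

theorem sum_part (Z : RedAV p ν) (P : Set Z.X.I) [DecidablePred (· ∈ P)] (f : Emb Z → ℤ) :
    (∑ w : Emb Z, if w.1 ∈ P then f w else 0) =
      ∑ x : (Σ i : {i // i ∈ P}, ((Z.X.factor i.1).E →+* ℂ)), f ⟨x.1.1, x.2⟩ := by
  classical
  rw [Fintype.sum_sigma, Fintype.sum_sigma]
  rw [← Finset.sum_subtype (s := Finset.univ.filter (· ∈ P)) (p := (· ∈ P)) (by simp)
    (fun i => ∑ φ : ((Z.X.factor i).E →+* ℂ), f ⟨i, φ⟩), Finset.sum_filter]
  refine Finset.sum_congr rfl fun i _ => ?_
  by_cases hi : i ∈ P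
  · simp only [if_pos hi]
  · simp only [if_neg hi, Finset.sum_const_zero]

open Classical in
/-- The part of a relation which belongs to a set of factors unrelated to the other ones is a
relation. -/
theorem rel_part (Z : RedAV p ν) (P : Set Z.X.I)
    (hun : ∀ i ∈ P, ∀ k ∉ P, ∀ φ : (Z.X.factor k).E →+* ℂ,
      UnrelatedTo (Z.X.factor i).E (φ (Z.π k))) (e : Emb Z → ℕ) (he : IsRel Z e) :
    IsRel Z (fun w => if w.1 ∈ P then e w else 0) := by
  obtain ⟨s, hs, hrel⟩ := he
  have hq : p ^ Z.a ≠ 0 := pow_ne_zero _ (Fact.out : p.Prime).ne_zero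
  have hqC : ((p ^ Z.a : ℕ) : ℂ) = (p : ℂ) ^ Z.a := by push_cast; rfl
  have hq0 : (p : ℂ) ^ Z.a ≠ 0 := by rw [← hqC]; exact_mod_cast hq
  let cnt : (Σ i : {i // i ∈ P}, ((Z.X.factor i.1).E →+* ℂ)) → ℤ := fun x => e ⟨x.1.1, x.2⟩
  let y : Emb Z → ℂ := fun w => if w.1 ∈ P then 1 else eig Z w ^ (-(e w : ℤ))
  set A : ℂ := ∏ x : (Σ i : {i // i ∈ P}, ((Z.X.factor i.1).E →+* ℂ)),
    x.2 (Z.π x.1.1) ^ cnt x with hA
  have hA' : A = ∏ w : Emb Z, if w.1 ∈ P then eig Z w ^ e w else 1 := by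
    rw [prod_part Z P (fun w => eig Z w ^ e w), hA]
    refine Finset.prod_congr rfl fun x _ => ?_
    simp only [cnt]
    rw [zpow_natCast]
    rfl
  have hAy : (∏ w, y w) * ∏ w : Emb Z, eig Z w ^ e w = A := by
    rw [hA', ← Finset.prod_mul_distrib]
    refine Finset.prod_congr rfl fun w _ => ?_
    by_cases hw : w.1 ∈ P
    · simp only [y, if_pos hw, one_mul]
    · simp only [y, if_neg hw]
      rw [zpow_neg, zpow_natCast, inv_mul_cancel₀ (pow_ne_zero _ (eig_ne_zero Z w))]
  obtain ⟨s', hs', h1⟩ := coreC (q := p ^ Z.a) hq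
    (F := fun i : {i // i ∈ P} => (Z.X.factor i.1).E) (π := fun i => Z.π i.1)
    (fun i => weil_mul Z i.1) y (fun w => by
      by_cases hw : w.1 ∈ P
      · simp only [y, if_pos hw]
        exact one_ne_zero
      · simp only [y, if_neg hw]
        exact zpow_ne_zero _ (eig_ne_zero Z w)) (fun w => by
      have hint : IsAlgebraic ℚ (eig Z w) := by
        have h2 : IsIntegral ℚ (Z.π w.1) := Algebra.IsIntegral.isIntegral _
        have h3 : IsIntegral ℚ (w.2.toRatAlgHom (Z.π w.1)) := h2.map _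
        exact h3.isAlgebraic
      by_cases hw : w.1 ∈ P
      · simp only [y, if_pos hw]
        exact isAlgebraic_one
      · simp only [y, if_neg hw]
        rw [zpow_neg, zpow_natCast]
        exact (hint.pow _).inv) (fun w i => by
      by_cases hw : w.1 ∈ P
      · simp only [y, if_pos hw]
        intro n hn hτ
        funext φ
        have h2 := hτ (starRingAut : ℂ ≃+* ℂ) ⟨1, one_pos, by simp⟩ φ
        have h3 : ((starRingAut : ℂ ≃+* ℂ) : ℂ →+* ℂ).comp φ = ComplexEmbedding.conjugate φ := rfl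
        rw [h3, hn] at h2
        change n φ = 0
        linarith
      · simp only [y, if_neg hw]
        exact unrelated_zpow (hun i.1 i.2 w.1 hw w.2) _) cnt (N := 2 * s)
      (Nat.mul_pos two_pos hs) ((s * ∑ w, e w : ℕ) : ℤ) (by
        rw [hqC, zpow_natCast, ← hrel, ← mul_pow, hAy])
  have h2 := sq_rel (q := (p : ℂ) ^ Z.a) hq0
    (v := fun x : (Σ i : {i // i ∈ P}, ((Z.X.factor i.1).E →+* ℂ)) => x.2 (Z.π x.1.1))
    (fun x => eig_ne_zero Z ⟨x.1.1, x.2⟩)
    (bar := fun x => ⟨x.1, ComplexEmbedding.conjugate x.2⟩) (fun x => by rw [conj_conj])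
    (fun x => eig_mul_wbar Z ⟨x.1.1, x.2⟩) cnt
  refine ⟨s', hs', ?_⟩
  have h3 : ∏ w : Emb Z, eig Z w ^ (if w.1 ∈ P then e w else 0) = A := by
    rw [hA']
    refine Finset.prod_congr rfl fun w _ => ?_
    by_cases hw : w.1 ∈ P
    · simp only [if_pos hw]
    · simp only [if_neg hw, pow_zero]
  have h4 : ((∑ w : Emb Z, (if w.1 ∈ P then e w else 0) : ℕ) : ℤ) = ∑ x, cnt x := by
    push_cast
    rw [← sum_part Z P (fun w => (e w : ℤ))]
  have h5 : (A ^ 2) ^ s' = (((p : ℂ) ^ Z.a) ^ (∑ x, cnt x)) ^ s' := by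
    rw [hA, ← h2, mul_pow]
    have h6 : (∏ x : (Σ i : {i // i ∈ P}, ((Z.X.factor i.1).E →+* ℂ)), x.2 (Z.π x.1.1) ^
      (cnt x - cnt ⟨x.1, ComplexEmbedding.conjugate x.2⟩)) ^ s' = 1 := h1
    rw [h6, one_mul]
  rw [h3, pow_mul, h5, ← h4, zpow_natCast, ← pow_mul, mul_comm]

/-- The quotient of two relations. -/
theorem rel_sub (Z : RedAV p ν) {e e' : Emb Z → ℕ} (he : IsRel Z e) (he' : IsRel Z e')
    (hle : ∀ w, e' w ≤ e w) : IsRel Z (fun w => e w - e' w) := by
  obtain ⟨s, hs, h1⟩ := he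
  obtain ⟨s', hs', h2⟩ := he'
  have hq0 : (p : ℂ) ^ Z.a ≠ 0 :=
    pow_ne_zero _ (by exact_mod_cast (Fact.out : p.Prime).ne_zero)
  refine ⟨s * s', Nat.mul_pos hs hs', ?_⟩
  have h3 : (∏ w, eig Z w ^ (e w - e' w)) * ∏ w, eig Z w ^ e' w = ∏ w, eig Z w ^ e w := by
    rw [← Finset.prod_mul_distrib]
    refine Finset.prod_congr rfl fun w _ => ?_
    rw [← pow_add, Nat.sub_add_cancel (hle w)]
  have h4 : (∑ w, (e w - e' w)) + ∑ w, e' w = ∑ w, e w := by
    rw [← Finset.sum_add_distrib]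
    exact Finset.sum_congr rfl fun w _ => Nat.sub_add_cancel (hle w)
  have h5 : (∏ w, eig Z w ^ e' w) ^ (2 * (s * s')) ≠ 0 :=
    pow_ne_zero _ (Finset.prod_ne_zero_iff.2 fun w _ => pow_ne_zero _ (eig_ne_zero Z w))
  apply mul_right_cancel₀ h5
  rw [← mul_pow, h3]
  have h6 : (∏ w, eig Z w ^ e w) ^ (2 * (s * s')) = ((p : ℂ) ^ Z.a) ^ (s * s' * ∑ w, e w) := by
    rw [← mul_assoc, pow_mul, h1, ← pow_mul]
    congr 1
    ring
  have h7 : (∏ w, eig Z w ^ e' w) ^ (2 * (s * s')) =
      ((p : ℂ) ^ Z.a) ^ (s * s' * ∑ w, e' w) := by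
    rw [mul_comm s s', ← mul_assoc, pow_mul, h2, ← pow_mul]
    congr 1
    ring
  rw [h6, h7, ← pow_add, ← mul_add, h4]

/-- The relations between the Frobenius eigenvalues of the factors in `P` are products of elementary
relations and of their inverses. -/
def Generated (Z : RedAV p ν) (P : Set Z.X.I) : Prop :=
  ∀ e : Emb Z → ℕ, (∀ w, e w ≠ 0 → w.1 ∈ P) → IsRel Z e → (fun w => (e w : ℤ)) ∈
    AddSubgroup.closure
      {d : Emb Z → ℤ | ∃ n : Emb Z → ℕ, IsRel Z n ∧ IsElementaryS Z n ∧ ∀ w, d w = n w}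

theorem generated_of_good (Z : RedAV p ν) (P : Set Z.X.I) (h : IsGoodSetS Z P) :
    Generated Z P := fun e he hrel =>
  AddSubgroup.subset_closure ⟨e, hrel, Or.inr (Or.inl ⟨P, h, he⟩), fun _ => rfl⟩

/-- Symmetric exponents are generated by pairs. -/
theorem mem_closure_of_sym (Z : RedAV p ν) (e : Emb Z → ℕ) (hsym : ∀ w, e (wbar Z w) = e w) :
    (fun w => (e w : ℤ)) ∈ AddSubgroup.closure
      {d : Emb Z → ℤ | ∃ n : Emb Z → ℕ, IsRel Z n ∧ IsElementaryS Z n ∧ ∀ w, d w = n w} := by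
  classical
  -- pairs
  let pair : Emb Z → Emb Z → ℕ := fun w u => (if u = w then 1 else 0) + if u = wbar Z w then 1 else 0
  have hpair : ∀ w, (fun u => (pair w u : ℤ)) ∈ AddSubgroup.closure
      {d : Emb Z → ℤ | ∃ n : Emb Z → ℕ, IsRel Z n ∧ IsElementaryS Z n ∧ ∀ w, d w = n w} := by
    intro w
    have hsum : ∑ u, pair w u = 2 := by
      simp only [pair, Finset.sum_add_distrib, Finset.sum_ite_eq', Finset.mem_univ, if_true]
    refine AddSubgroup.subset_closure ⟨pair w, ⟨1, one_pos, ?_⟩, Or.inl hsum.le, fun _ => rfl⟩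
    rw [hsum]
    have h1 : ∏ u, eig Z u ^ pair w u = eig Z w * eig Z (wbar Z w) := by
      simp only [pair, pow_add, Finset.prod_mul_distrib]
      congr 1
      · rw [Finset.prod_eq_single w (fun u _ hu => by rw [if_neg hu, pow_zero])
          (fun h => absurd (Finset.mem_univ _) h), if_pos rfl, pow_one]
      · rw [Finset.prod_eq_single (wbar Z w) (fun u _ hu => by rw [if_neg hu, pow_zero])
          (fun h => absurd (Finset.mem_univ _) h), if_pos rfl, pow_one]
    rw [h1, eig_mul_wbar]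
  have key : (fun w => (e w : ℤ)) = ∑ w ∈ Finset.univ.filter
      (fun w : Emb Z => w.2 ∈ (Z.X.factor w.1).Φ), (e w : ℤ) • (fun u => (pair w u : ℤ)) := by
    funext u
    rw [Finset.sum_apply]
    simp only [Pi.smul_apply, smul_eq_mul]
    by_cases hu : u.2 ∈ (Z.X.factor u.1).Φ
    · rw [Finset.sum_eq_single u]
      · have h1 : u ≠ wbar Z u := by
          intro h2
          have h3 : u.2 = ComplexEmbedding.conjugate u.2 := by
            have h4 : (⟨u.1, u.2⟩ : Emb Z) = ⟨u.1, ComplexEmbedding.conjugate u.2⟩ := h2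
            exact eq_of_heq (Sigma.mk.inj_iff.1 h4).2
          have h5 := ((Z.X.factor u.1).isCMType u.2).1 hu
          rw [← h3] at h5
          exact h5 hu
        simp only [pair]
        rw [if_pos trivial, if_neg h1]
        simp
      · intro w hw hwu
        have hw' := (Finset.mem_filter.1 hw).2
        simp only [pair]
        rw [if_neg (Ne.symm hwu), if_neg]
        · simp
        · intro h2
          have h3 : w = wbar Z u := by rw [h2, wbar_wbar]
          rw [h3] at hw'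
          have h5 := ((Z.X.factor u.1).isCMType u.2).1 hu
          exact h5 hw'
      · intro h2
        exact absurd (Finset.mem_filter.2 ⟨Finset.mem_univ u, hu⟩) h2
    · have hu' : (wbar Z u).2 ∈ (Z.X.factor (wbar Z u).1).Φ := by
        by_contra h2
        exact hu (((Z.X.factor u.1).isCMType u.2).2 h2)
      rw [Finset.sum_eq_single (wbar Z u)]
      · have h1 : u ≠ wbar Z u := by
          intro h2
          rw [← h2] at hu'
          exact hu hu'
        simp only [pair]
        rw [if_neg h1, wbar_wbar, if_pos rfl, hsym]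
        simp
      · intro w hw hwu
        have hw' := (Finset.mem_filter.1 hw).2
        simp only [pair]
        rw [if_neg, if_neg]
        · simp
        · intro h2
          apply hwu
          rw [h2, wbar_wbar]
        · intro h2
          rw [← h2] at hw'
          exact hu hw'
      · intro h2
        exact absurd (Finset.mem_filter.2 ⟨Finset.mem_univ (wbar Z u), hu'⟩) h2
  rw [key]
  exact AddSubgroup.sum_mem _ fun w _ => AddSubgroup.zsmul_mem _ (hpair w) _

open Classical in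
theorem generated_of_angle (Z : RedAV p ν) (P : Set Z.X.I)
    (h : MaximalAngleRank (p ^ Z.a) (fun i : {i // i ∈ P} => Z.π i.1)) : Generated Z P := by
  classical
  intro e he hrel
  -- symmetry
  have hsym : ∀ w, e (wbar Z w) = e w := by
    obtain ⟨s, hs, h1⟩ := hrel
    have h2 := h ((s * ∑ w, e w : ℕ) : ℤ) (fun x => ((2 * s * e ⟨x.1.1, x.2⟩ : ℕ) : ℤ)) (by
      rw [zpow_natCast]
      have hqC : ((p ^ Z.a : ℕ) : ℂ) = (p : ℂ) ^ Z.a := by push_cast; rfl
      rw [hqC, ← h1, ← Finset.prod_pow]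
      have h3 : ∏ w : Emb Z, (eig Z w ^ e w) ^ (2 * s) =
          ∏ w : Emb Z, if w.1 ∈ P then (eig Z w ^ e w) ^ (2 * s) else 1 := by
        refine Finset.prod_congr rfl fun w _ => ?_
        by_cases hw : w.1 ∈ P
        · rw [if_pos hw]
        · rw [if_neg hw]
          have h4 : e w = 0 := by
            by_contra h5
            exact hw (he w h5)
          rw [h4, pow_zero, one_pow]
      rw [h3, prod_part Z P (fun w => (eig Z w ^ e w) ^ (2 * s))]
      refine Finset.prod_congr rfl fun x _ => ?_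
      rw [zpow_natCast, ← pow_mul, mul_comm (e _)]
      rfl)
    intro w
    by_cases hw : w.1 ∈ P
    · have h3 := h2 ⟨w.1, hw⟩ w.2
      have h4 : 2 * s * e ⟨w.1, w.2⟩ = 2 * s * e ⟨w.1, ComplexEmbedding.conjugate w.2⟩ := by
        exact_mod_cast h3
      exact (Nat.eq_of_mul_eq_mul_left (Nat.mul_pos two_pos hs) h4).symm
    · have h3 : e w = 0 := by
        by_contra h5
        exact hw (he w h5)
      have h4 : e (wbar Z w) = 0 := by
        by_contra h5
        exact hw (he (wbar Z w) h5)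
      rw [h3, h4]
  exact mem_closure_of_sym Z e hsym

/-- **Unrelated blocks.** -/
theorem elementary_of_blocks (Z : RedAV p ν) (c : Z.X.I → ℕ)
    (hun : ∀ i k, c k < c i → ∀ φ : (Z.X.factor k).E →+* ℂ,
      UnrelatedTo (Z.X.factor i).E (φ (Z.π k)))
    (hgen : ∀ b, Generated Z {i | c i = b}) : HasElementaryRelationsS Z := by
  classical
  intro e he
  have hge : ∀ b, IsRel Z (fun w => if b ≤ c w.1 then e w else 0) := by
    intro b
    have h1 := rel_part Z {i | b ≤ c i} (fun i hi k hk φ =>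
      hun i k (lt_of_lt_of_le (not_le.1 hk) hi) φ) e he
    refine (congrArg (IsRel Z) (funext fun w => ?_)).mp h1
    by_cases hw : b ≤ c w.1
    · rw [if_pos hw, if_pos (show w.1 ∈ {i | b ≤ c i} from hw)]
    · rw [if_neg hw, if_neg (show w.1 ∉ {i | b ≤ c i} from hw)]
  have heq : ∀ b, IsRel Z (fun w => if c w.1 = b then e w else 0) := by
    intro b
    have h1 := rel_sub Z (hge b) (hge (b + 1)) (fun w => by
      split_ifs <;> omega)
    have h2 : (fun w : Emb Z => if c w.1 = b then e w else 0) =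
        fun w => (if b ≤ c w.1 then e w else 0) - if b + 1 ≤ c w.1 then e w else 0 := by
      funext w
      split_ifs <;> omega
    rw [h2]
    exact h1
  have hsum : (fun w => (e w : ℤ)) = ∑ b ∈ Finset.univ.image c,
      (fun w : Emb Z => (((if c w.1 = b then e w else 0 : ℕ)) : ℤ)) := by
    funext w
    rw [Finset.sum_apply, Finset.sum_eq_single (c w.1)]
    · rw [if_pos rfl]
    · intro b _ hb
      rw [if_neg (Ne.symm hb)]
      rfl
    · intro h
      exact absurd (Finset.mem_image_of_mem c (Finset.mem_univ _)) h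
  rw [hsum]
  refine AddSubgroup.sum_mem _ fun b _ => hgen b _ (fun w hw => ?_) (heq b)
  by_contra h
  exact hw (if_neg h)

end Pool.Agent.Q306.TP
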