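import Mathlib
import Pool.Agent.Q306.TP.Red
import Pool.Agent.Q306.TP.Closure
import Pool.Agent.Q306.TP.Degree

/-!
# Factors with irreducible odd functions
-/

set_option autoImplicit false

namespace Pool.Agent.Q306.TP

open NumberField Module Finset Pool.Agent.H204R3.CM Pool.Agent.W547.KB Pool.Agent.W495.TA
  Pool.Agent.W495.TC Pool.Agent.TH117.BL Pool.Agent.Y137.SF Pool.Agent.Y137.MV Pool.Agent.Y1.CT

/-- Weil numbers which are not supersingular in fields with irreducible odd functions have no odd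
relations. -/
theorem no_odd_rel {K : Type} [Field K] [NumberField K] [IsCMField K] (hirr : OddIrreducible K)
    {π : K} {q : ℕ} (hq : q ≠ 0) (hw : π * IsCMField.complexConj K π = (q : K))
    (hns : ∀ s : ℕ, 0 < s → π ^ (2 * s) ≠ (q : K) ^ s) (f : (K →+* ℂ) → ℚ)
    (hf : ∀ φ, f (ComplexEmbedding.conjugate φ) = -f φ)
    (hrel : Rel (fun φ : K →+* ℂ => φ π) f) : f = 0 := by
  classical
  have hπ0 : π ≠ 0 := by
    intro h0
    rw [h0, zero_mul] at hw
    exact Nat.cast_ne_zero.2 hq hw.symm
  have hv : ∀ φ : K →+* ℂ, φ π ≠ 0 := fun φ => (_root_.map_ne_zero φ).2 hπ0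
  have hne : ∀ ψ : K →+* ℂ, ComplexEmbedding.conjugate ψ ≠ ψ := by
    intro ψ h3
    have h4 := IsCMField.complexConj_ne_one K
    apply h4
    ext x
    apply ψ.injective
    have h5 := RingHom.congr_fun h3 x
    rw [ComplexEmbedding.conjugate_coe_eq] at h5
    rw [IsCMField.complexEmbedding_complexConj]
    exact h5
  let W := RR (fun φ : K →+* ℂ => φ π) hv ComplexEmbedding.conjugate
  have hfW : f ∈ W := ⟨hf, hrel⟩
  rcases hirr W (fun m hm => hm.1) (by
      rintro τ m ⟨h1, N, a, s, hN, hs, h2, h3⟩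
      refine ⟨fun φ => ?_, N, fun φ => a ((τ : ℂ →+* ℂ).comp φ), s, hN, hs, fun φ => h2 _, ?_⟩
      · change m ((τ : ℂ →+* ℂ).comp (ComplexEmbedding.conjugate φ)) = -m ((τ : ℂ →+* ℂ).comp φ)
        rw [comp_conj', h1]
      · apply τ.injective
        rw [map_pow, map_prod, map_one, ← h3]
        congr 1
        let et : (K →+* ℂ) ≃ (K →+* ℂ) :=
          { toFun := fun φ => (τ : ℂ →+* ℂ).comp φ
            invFun := fun φ => (τ.symm : ℂ →+* ℂ).comp φ
            left_inv := fun φ => by ext x; simp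
            right_inv := fun φ => by ext x; simp }
        rw [← Equiv.prod_comp et (fun φ : K →+* ℂ => φ π ^ a φ)]
        refine Finset.prod_congr rfl fun φ _ => ?_
        change τ (φ π ^ a ((τ : ℂ →+* ℂ).comp φ)) = ((τ : ℂ →+* ℂ).comp φ) π ^ a ((τ : ℂ →+* ℂ).comp φ)
        rw [map_zpow₀]
        rfl) with h | h
  · rw [h, Submodule.mem_bot] at hfW
    exact hfW
  · exfalso
    obtain ⟨φ⟩ : Nonempty (K →+* ℂ) := inferInstance
    have hcc : ∀ χ : K →+* ℂ, ComplexEmbedding.conjugate (ComplexEmbedding.conjugate χ) = χ := by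
      intro χ; ext x; simp
    obtain ⟨-, N, m, s, hN, hs, h2, h3⟩ := h (fun ψ => (if ψ = φ then 1 else 0) -
      (if ψ = ComplexEmbedding.conjugate φ then 1 else 0)) (by
        intro ψ
        have h3 : ComplexEmbedding.conjugate ψ = φ ↔ ψ = ComplexEmbedding.conjugate φ :=
          ⟨fun h => by rw [← h, hcc], fun h => by rw [h, hcc]⟩
        have h4 : ComplexEmbedding.conjugate ψ = ComplexEmbedding.conjugate φ ↔ ψ = φ :=
          ⟨fun h => by rw [← hcc ψ, h, hcc], fun h => by rw [h]⟩
        simp only [h3, h4]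
        ring)
    have e2 : φ ≠ ComplexEmbedding.conjugate φ := fun h => hne φ h.symm
    have hm : ∀ ψ, m ψ = (N : ℤ) * ((if ψ = φ then 1 else 0) -
        (if ψ = ComplexEmbedding.conjugate φ then 1 else 0)) := by
      intro ψ
      have h5 := h2 ψ
      have h6 : ((m ψ : ℤ) : ℚ) = (((N : ℤ) * ((if ψ = φ then 1 else 0) -
          (if ψ = ComplexEmbedding.conjugate φ then 1 else 0)) : ℤ) : ℚ) := by
        beta_reduce at h5
        rw [h5]
        split_ifs <;> push_cast <;> ring
      exact_mod_cast h6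
    have hprod : ∏ ψ : K →+* ℂ, ψ π ^ m ψ =
        (φ π / ComplexEmbedding.conjugate φ π) ^ N := by
      have h5 : ∀ ψ : K →+* ℂ, ψ π ^ m ψ = (if ψ = φ then (φ π) ^ N else 1) *
          (if ψ = ComplexEmbedding.conjugate φ then ((ComplexEmbedding.conjugate φ π) ^ N)⁻¹
            else 1) := by
        intro ψ
        rw [hm]
        by_cases h6 : ψ = φ
        · rw [if_pos h6, if_pos h6, if_neg (by rw [h6]; exact e2), if_neg (by rw [h6]; exact e2), h6]
          simp
        · by_cases h7 : ψ = ComplexEmbedding.conjugate φ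
          · rw [if_neg h6, if_neg h6, if_pos h7, if_pos h7, h7, one_mul]
            rw [zero_sub, mul_neg, mul_one, zpow_neg, zpow_natCast]
          · rw [if_neg h6, if_neg h6, if_neg h7, if_neg h7]
            simp
      rw [Finset.prod_congr rfl fun ψ _ => h5 ψ, Finset.prod_mul_distrib,
        Finset.prod_ite_eq' Finset.univ φ, Finset.prod_ite_eq' Finset.univ
          (ComplexEmbedding.conjugate φ), if_pos (Finset.mem_univ _), if_pos (Finset.mem_univ _),
        div_pow, div_eq_mul_inv]
    rw [hprod, ← pow_mul] at h3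
    have h5 : φ π * ComplexEmbedding.conjugate φ π = (q : ℂ) := by
      rw [ComplexEmbedding.conjugate_coe_eq, ← IsCMField.complexEmbedding_complexConj, ← map_mul,
        hw, map_natCast]
    have h6 : φ π / ComplexEmbedding.conjugate φ π = φ π ^ 2 / (q : ℂ) := by
      have h7 := hv (ComplexEmbedding.conjugate φ)
      have h8 := hv φ
      rw [← h5]
      field_simp
    rw [h6, div_pow, ← pow_mul, div_eq_one_iff_eq (pow_ne_zero _ (Nat.cast_ne_zero.2 hq))] at h3
    refine hns (N * s) (Nat.mul_pos hN hs) ?_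
    apply φ.injective
    rw [map_pow, map_pow, map_natCast, h3]

variable {p : ℕ} [Fact p.Prime] {ν : PadicAlgCl p ≃+* ℂ}

/-- One factor with irreducible odd functions, not supersingular. -/
theorem generated_of_irreducible (Z : RedAV p ν) (P : Set Z.X.I) (i : Z.X.I)
    (hP : ∀ k ∈ P, k = i) (hirr : OddIrreducible (Z.X.factor i).E) (hns : ¬ IsSupersingular Z i) :
    Generated Z P := by
  classical
  intro e he hrel
  refine mem_closure_of_sym Z e fun w => ?_
  have hqC : ((p ^ Z.a : ℕ) : ℂ) = (p : ℂ) ^ Z.a := by push_cast; rfl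
  have hq : p ^ Z.a ≠ 0 := pow_ne_zero _ (Fact.out : p.Prime).ne_zero
  have hq0 : ((p ^ Z.a : ℕ) : ℂ) ≠ 0 := by exact_mod_cast hq
  have hns' : ∀ s : ℕ, 0 < s → Z.π i ^ (2 * s) ≠ ((p ^ Z.a : ℕ) : (Z.X.factor i).E) ^ s := by
    intro s hs h
    refine hns ⟨s, hs, ?_⟩
    rw [h]
    push_cast
    rfl
  have hE : ∀ u : Emb Z, u.1 ≠ i → e u = 0 := by
    intro u hu
    by_contra h
    exact hu (hP _ (he u h))
  let cnt : ((Z.X.factor i).E →+* ℂ) → ℤ := fun φ => e ⟨i, φ⟩
  have hprod : ∏ u : Emb Z, eig Z u ^ e u = ∏ φ : ((Z.X.factor i).E →+* ℂ), φ (Z.π i) ^ cnt φ := by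
    rw [Fintype.prod_sigma, Finset.prod_eq_single i]
    · refine Finset.prod_congr rfl fun φ _ => ?_
      simp only [cnt]
      rw [zpow_natCast]
      rfl
    · intro k _ hk
      refine Finset.prod_eq_one fun φ _ => ?_
      rw [hE ⟨k, φ⟩ hk, pow_zero]
    · intro h
      exact absurd (Finset.mem_univ _) h
  obtain ⟨s, hs, h1⟩ := hrel
  have hcc : ∀ χ : (Z.X.factor i).E →+* ℂ,
      ComplexEmbedding.conjugate (ComplexEmbedding.conjugate χ) = χ := conj_conj
  have hv : ∀ φ : (Z.X.factor i).E →+* ℂ, φ (Z.π i) ≠ 0 := fun φ => eig_ne_zero Z ⟨i, φ⟩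
  have hvb : ∀ φ : (Z.X.factor i).E →+* ℂ,
      φ (Z.π i) * ComplexEmbedding.conjugate φ (Z.π i) = ((p ^ Z.a : ℕ) : ℂ) := by
    intro φ
    rw [hqC]
    exact eig_mul_wbar Z ⟨i, φ⟩
  have hodd : (∏ φ : ((Z.X.factor i).E →+* ℂ), φ (Z.π i) ^
      (cnt φ - cnt (ComplexEmbedding.conjugate φ))) ^ (2 * s) = 1 := by
    -- the relation divided by its complex conjugate
    have h2 : ∏ φ : ((Z.X.factor i).E →+* ℂ), φ (Z.π i) ^
        (cnt φ - cnt (ComplexEmbedding.conjugate φ)) =
        (∏ φ : ((Z.X.factor i).E →+* ℂ), φ (Z.π i) ^ cnt φ) /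
          starRingEnd ℂ (∏ φ : ((Z.X.factor i).E →+* ℂ), φ (Z.π i) ^ cnt φ) := by
      have h3 : starRingEnd ℂ (∏ φ : ((Z.X.factor i).E →+* ℂ), φ (Z.π i) ^ cnt φ) =
          ∏ φ : ((Z.X.factor i).E →+* ℂ), φ (Z.π i) ^ cnt (ComplexEmbedding.conjugate φ) := by
        let eb : Equiv.Perm ((Z.X.factor i).E →+* ℂ) :=
          ⟨ComplexEmbedding.conjugate, ComplexEmbedding.conjugate, hcc, hcc⟩
        rw [map_prod, ← Equiv.prod_comp eb
          (fun φ => φ (Z.π i) ^ cnt (ComplexEmbedding.conjugate φ))]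
        refine Finset.prod_congr rfl fun φ _ => ?_
        change _ = ComplexEmbedding.conjugate φ (Z.π i) ^
          cnt (ComplexEmbedding.conjugate (ComplexEmbedding.conjugate φ))
        rw [hcc, map_zpow₀, ComplexEmbedding.conjugate_coe_eq]
      rw [h3, ← Finset.prod_div_distrib]
      exact Finset.prod_congr rfl fun φ _ => zpow_sub₀ (hv φ) _ _
    have h4 : (∏ φ : ((Z.X.factor i).E →+* ℂ), φ (Z.π i) ^ cnt φ) ^ (2 * s) =
        ((p ^ Z.a : ℕ) : ℂ) ^ (s * ∑ w, e w) := by
      rw [← hprod, h1, hqC]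
    rw [h2, div_pow, ← map_pow, h4, map_pow, map_natCast]
    exact div_self (pow_ne_zero _ hq0)
  have hf := no_odd_rel hirr hq (weil_mul Z i) hns'
    (fun φ => ((cnt φ - cnt (ComplexEmbedding.conjugate φ) : ℤ) : ℚ)) (fun φ => by
      rw [hcc]
      push_cast
      ring) ⟨1, fun φ => cnt φ - cnt (ComplexEmbedding.conjugate φ), 2 * s, one_pos,
      Nat.mul_pos two_pos hs, fun φ => by rw [Nat.cast_one, one_mul], hodd⟩
  by_cases hwi : w.1 = i
  · obtain ⟨k, φ⟩ := w
    change k = i at hwi
    subst hwi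
    have h5 : ((cnt φ - cnt (ComplexEmbedding.conjugate φ) : ℤ) : ℚ) = 0 := congrFun hf φ
    have h6 : cnt φ - cnt (ComplexEmbedding.conjugate φ) = 0 := by exact_mod_cast h5
    have h7 : (e ⟨k, φ⟩ : ℤ) - (e ⟨k, ComplexEmbedding.conjugate φ⟩ : ℤ) = 0 := h6
    change e ⟨k, ComplexEmbedding.conjugate φ⟩ = e ⟨k, φ⟩
    omega
  · rw [hE w hwi, hE (wbar Z w) hwi]

/-- **Factors with irreducible odd functions and different Galois closures, and smaller factors.** -/
theorem elementary_of_irreducible (Z : RedAV p ν) (S : Set Z.X.I)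
    (hirr : ∀ i ∈ S, OddIrreducible (Z.X.factor i).E) (hns : ∀ i ∈ S, ¬ IsSupersingular Z i)
    (hclos : ∀ i ∈ S, ∀ k ∈ S, IntermediateField.normalClosure ℚ (Z.X.factor i).E ℂ =
      IntermediateField.normalClosure ℚ (Z.X.factor k).E ℂ → i = k)
    (hdeg : ∀ i ∈ S, ∀ k ∉ S, finrank ℚ (Z.X.factor k).E < finrank ℚ (Z.X.factor i).E)
    (hgood : Generated Z Sᶜ) : HasElementaryRelationsS Z := by
  classical
  -- the order of the factors
  let ix : Z.X.I ≃ Fin (Fintype.card Z.X.I) := Fintype.equivFin _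
  let D : Z.X.I → ℕ := fun i =>
    finrank ℚ (IntermediateField.normalClosure ℚ (Z.X.factor i).E ℂ)
  let M := Fintype.card Z.X.I
  have hfd : ∀ i, FiniteDimensional ℚ
      (IntermediateField.normalClosure ℚ (Z.X.factor i).E ℂ) := fun i => inferInstance
  let c : Z.X.I → ℕ := fun i => if i ∈ S then D i * M + ix i + 1 else 0
  have hcS : ∀ i ∈ S, c i = D i * M + ix i + 1 := fun i hi => if_pos hi
  have hcn : ∀ i ∉ S, c i = 0 := fun i hi => if_neg hi
  have hixM : ∀ i, (ix i : ℕ) < M := fun i => (ix i).2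
  refine elementary_of_blocks Z c (fun i k hik φ => ?_) (fun b => ?_)
  · have hi : i ∈ S := by
      by_contra h
      rw [hcn i h] at hik
      omega
    by_cases hk : k ∈ S
    · refine unrelated_of_closure (hirr i hi) (fun hle => ?_) φ _
      rw [hcS i hi, hcS k hk] at hik
      have h1 : D k ≤ D i := by
        by_contra h
        have h2 : D i + 1 ≤ D k := by omega
        have h3 : (D i + 1) * M ≤ D k * M := Nat.mul_le_mul_right M h2
        have h4 := hixM i
        have h5 : (D i + 1) * M = D i * M + M := by ring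
        omega
      have h2 : IntermediateField.normalClosure ℚ (Z.X.factor i).E ℂ =
          IntermediateField.normalClosure ℚ (Z.X.factor k).E ℂ := by
        have := hfd k
        exact IntermediateField.eq_of_le_of_finrank_le hle h1
      have h3 := hclos i hi k hk h2
      rw [h3] at hik
      omega
    · refine unrelated_of_degree (hirr i hi) ?_ ?_
      · have h2 : IsIntegral ℚ (Z.π k) := Algebra.IsIntegral.isIntegral _
        have h3 : IsIntegral ℚ (φ.toRatAlgHom (Z.π k)) := h2.map _
        exact h3.isAlgebraic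
      · refine lt_of_le_of_lt ?_ (hdeg i hi k hk)
        have h2 : minpoly ℚ (φ (Z.π k)) = minpoly ℚ (Z.π k) :=
          minpoly.algHom_eq (RingHom.equivRatAlgHom _ ℂ φ) φ.injective (Z.π k)
        rw [h2]
        exact minpoly.natDegree_le _
  · rcases Nat.eq_zero_or_pos b with hb | hb
    · have h1 : {i | c i = b} = Sᶜ := by
        ext i
        rw [Set.mem_compl_iff, hb]
        change c i = 0 ↔ _
        constructor
        · intro h hi
          rw [hcS i hi] at h
          omega
        · exact hcn i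
      rw [h1]
      exact hgood
    · by_cases hex : ∃ i, c i = b
      · obtain ⟨i, hi⟩ := hex
        have hiS : i ∈ S := by
          by_contra h
          rw [hcn i h] at hi
          omega
        refine generated_of_irreducible Z _ i (fun k hk => ?_) (hirr i hiS) (hns i hiS)
        have hk' : c k = b := hk
        have hkS : k ∈ S := by
          by_contra h
          rw [hcn k h] at hk'
          omega
        rw [hcS i hiS] at hi
        rw [hcS k hkS] at hk'
        have h1 : (ix k : ℕ) = ix i := by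
          have h2 : (D k * M + ix k) % M = ix k := by
            rw [mul_comm, Nat.mul_add_mod]
            exact Nat.mod_eq_of_lt (hixM k)
          have h3 : (D i * M + ix i) % M = ix i := by
            rw [mul_comm, Nat.mul_add_mod]
            exact Nat.mod_eq_of_lt (hixM i)
          have h4 : D k * M + ix k = D i * M + ix i := by omega
          rw [← h2, ← h3, h4]
        exact ix.injective (Fin.ext h1)
      · intro e he hrel
        have h0 : e = 0 := by
          funext w
          by_contra h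
          exact hex ⟨w.1, he w h⟩
        rw [h0]
        exact AddSubgroup.zero_mem _

end Pool.Agent.Q306.TP
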