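import Mathlib
import Pool.Agent.Q306.TP.Irr
import Pool.Agent.Q306.TP.PrimeUn
import Pool.Agent.Q306.TP.PrimeDeg
import Pool.Agent.Q306.TP.PrimeDefs

/-!
# Factors of odd prime dimension
-/

set_option autoImplicit false

namespace Pool.Agent.Q306.TP

open NumberField Module Finset Pool.Agent.H204R3.CM Pool.Agent.W547.KB Pool.Agent.W495.TA
  Pool.Agent.W495.TC Pool.Agent.TH117.BL Pool.Agent.Y137.SF Pool.Agent.Y137.MV Pool.Agent.Y1.CT

theorem conj_ne {K : Type} [Field K] [NumberField K] [IsCMField K] (ψ : K →+* ℂ) :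
    ComplexEmbedding.conjugate ψ ≠ ψ := by
  intro h3
  have h4 := IsCMField.complexConj_ne_one K
  apply h4
  ext x
  apply ψ.injective
  have h5 := RingHom.congr_fun h3 x
  rw [ComplexEmbedding.conjugate_coe_eq] at h5
  rw [IsCMField.complexEmbedding_complexConj]
  exact h5

open Classical in
/-- The basic odd functions. -/
noncomputable def dZ {K : Type} [Field K] (χ χ' : K →+* ℂ) : ℤ :=
  (if χ' = χ then 1 else 0) - (if χ' = ComplexEmbedding.conjugate χ then 1 else 0)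

theorem dZ_odd {K : Type} [Field K] (χ χ' : K →+* ℂ) :
    dZ χ (ComplexEmbedding.conjugate χ') = -dZ χ χ' := by
  have h3 : ComplexEmbedding.conjugate χ' = χ ↔ χ' = ComplexEmbedding.conjugate χ :=
    ⟨fun h => by rw [← h, conj_conj], fun h => by rw [h, conj_conj]⟩
  have h4 : ComplexEmbedding.conjugate χ' = ComplexEmbedding.conjugate χ ↔ χ' = χ :=
    ⟨fun h => by rw [← conj_conj χ', h, conj_conj], fun h => by rw [h]⟩
  unfold dZ
  by_cases h5 : χ' = χ <;> by_cases h6 : χ' = ComplexEmbedding.conjugate χ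
  · rw [if_pos (h3.2 h6), if_pos (h4.2 h5), if_pos h5, if_pos h6]; ring
  · rw [if_neg (fun h => h6 (h3.1 h)), if_pos (h4.2 h5), if_pos h5, if_neg h6]; ring
  · rw [if_pos (h3.2 h6), if_neg (fun h => h5 (h4.1 h)), if_neg h5, if_pos h6]; ring
  · rw [if_neg (fun h => h6 (h3.1 h)), if_neg (fun h => h5 (h4.1 h)), if_neg h5, if_neg h6]; ring

theorem prod_dZ {K : Type} [Field K] [NumberField K] (v : (K →+* ℂ) → ℂ)
    (hv : ∀ φ, v φ ≠ 0) (χ : K →+* ℂ) :
    ∏ χ', v χ' ^ dZ χ χ' = v χ / v (ComplexEmbedding.conjugate χ) := by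
  classical
  have h1 : ∀ χ0 : K →+* ℂ, ∏ χ', v χ' ^ ((if χ' = χ0 then 1 else 0 : ℤ)) = v χ0 := by
    intro χ0
    rw [Finset.prod_eq_single χ0 (fun u _ hu => by rw [if_neg hu, zpow_zero])
      (fun h => absurd (Finset.mem_univ _) h), if_pos rfl, zpow_one]
  have h2 : ∀ χ', v χ' ^ dZ χ χ' = v χ' ^ ((if χ' = χ then 1 else 0 : ℤ)) /
      v χ' ^ ((if χ' = ComplexEmbedding.conjugate χ then 1 else 0 : ℤ)) := by
    intro χ'
    rw [← zpow_sub₀ (hv χ')]
    rfl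
  rw [Finset.prod_congr rfl fun χ' _ => h2 χ', Finset.prod_div_distrib, h1, h1]

/-- The odd relations between the conjugates of `π` are a stable space. -/
theorem RR_stable {K : Type} [Field K] [NumberField K] [IsCMField K] (π : K)
    (hv : ∀ φ : K →+* ℂ, φ π ≠ 0) (τ : ℂ ≃+* ℂ) (m : (K →+* ℂ) → ℚ)
    (hm : m ∈ RR (fun φ : K →+* ℂ => φ π) hv ComplexEmbedding.conjugate) :
    (fun φ => m ((τ : ℂ →+* ℂ).comp φ)) ∈
      RR (fun φ : K →+* ℂ => φ π) hv ComplexEmbedding.conjugate := by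
  obtain ⟨h1, N, a, s, hN, hs, h2, h3⟩ := hm
  refine ⟨fun φ => ?_, N, fun φ => a ((τ : ℂ →+* ℂ).comp φ), s, hN, hs, fun φ => h2 _, ?_⟩
  · change m ((τ : ℂ →+* ℂ).comp (ComplexEmbedding.conjugate φ)) = -m ((τ : ℂ →+* ℂ).comp φ)
    rw [comp_conj', h1]
  · apply τ.injective
    rw [map_pow, map_prod, map_one, ← h3]
    congr 1
    let et : (K →+* ℂ) ≃ (K →+* ℂ) :=
      { toFun := fun φ => (τ : ℂ →+* ℂ).comp φ
        invFun := fun φ => (τ.symm : ℂ →+* ℂ).comp φ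
        left_inv := fun φ => by ext x; simp
        right_inv := fun φ => by ext x; simp }
    rw [← Equiv.prod_comp et (fun φ : K →+* ℂ => φ π ^ a φ)]
    refine Finset.prod_congr rfl fun φ _ => ?_
    change τ (φ π ^ a ((τ : ℂ →+* ℂ).comp φ)) = ((τ : ℂ →+* ℂ).comp φ) π ^ a ((τ : ℂ →+* ℂ).comp φ)
    rw [map_zpow₀]
    rfl

variable {p : ℕ} [Fact p.Prime] {ν : PadicAlgCl p ≃+* ℂ}

/-- The odd part of a relation. -/
theorem rel_of_isRel (Z : RedAV p ν) (i : Z.X.I) (e : Emb Z → ℕ)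
    (hE : ∀ u : Emb Z, u.1 ≠ i → e u = 0) (hrel : IsRel Z e) :
    Rel (fun φ : (Z.X.factor i).E →+* ℂ => φ (Z.π i)) (fun φ =>
      (((e ⟨i, φ⟩ : ℤ) - (e ⟨i, ComplexEmbedding.conjugate φ⟩ : ℤ) : ℤ) : ℚ)) := by
  classical
  have hqC : ((p ^ Z.a : ℕ) : ℂ) = (p : ℂ) ^ Z.a := by push_cast; rfl
  have hq : p ^ Z.a ≠ 0 := pow_ne_zero _ (Fact.out : p.Prime).ne_zero
  have hq0 : ((p ^ Z.a : ℕ) : ℂ) ≠ 0 := by exact_mod_cast hq
  let cnt : ((Z.X.factor i).E →+* ℂ) → ℤ := fun φ => e ⟨i, φ⟩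
  have hprod : ∏ u : Emb Z, eig Z u ^ e u = ∏ φ : ((Z.X.factor i).E →+* ℂ), φ (Z.π i) ^ cnt φ := by
    rw [Fintype.prod_sigma, Finset.prod_eq_single i]
    · refine Finset.prod_congr rfl fun φ _ => ?_
      simp only [cnt]
      rw [zpow_natCast]
      rfl
    · intro k _ hk
      refine Finset.prod_eq_one fun φ _ => ?_
      rw [hE ⟨k, φ⟩ hk, pow_zero]
    · intro h
      exact absurd (Finset.mem_univ _) h
  obtain ⟨s, hs, h1⟩ := hrel
  have hv : ∀ φ : (Z.X.factor i).E →+* ℂ, φ (Z.π i) ≠ 0 := fun φ => eig_ne_zero Z ⟨i, φ⟩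
  have hodd : (∏ φ : ((Z.X.factor i).E →+* ℂ), φ (Z.π i) ^
      (cnt φ - cnt (ComplexEmbedding.conjugate φ))) ^ (2 * s) = 1 := by
    have h2 : ∏ φ : ((Z.X.factor i).E →+* ℂ), φ (Z.π i) ^
        (cnt φ - cnt (ComplexEmbedding.conjugate φ)) =
        (∏ φ : ((Z.X.factor i).E →+* ℂ), φ (Z.π i) ^ cnt φ) /
          starRingEnd ℂ (∏ φ : ((Z.X.factor i).E →+* ℂ), φ (Z.π i) ^ cnt φ) := by
      have h3 : starRingEnd ℂ (∏ φ : ((Z.X.factor i).E →+* ℂ), φ (Z.π i) ^ cnt φ) =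
          ∏ φ : ((Z.X.factor i).E →+* ℂ), φ (Z.π i) ^ cnt (ComplexEmbedding.conjugate φ) := by
        let eb : Equiv.Perm ((Z.X.factor i).E →+* ℂ) :=
          ⟨ComplexEmbedding.conjugate, ComplexEmbedding.conjugate, conj_conj, conj_conj⟩
        rw [map_prod, ← Equiv.prod_comp eb
          (fun φ => φ (Z.π i) ^ cnt (ComplexEmbedding.conjugate φ))]
        refine Finset.prod_congr rfl fun φ _ => ?_
        change _ = ComplexEmbedding.conjugate φ (Z.π i) ^
          cnt (ComplexEmbedding.conjugate (ComplexEmbedding.conjugate φ))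
        rw [conj_conj, map_zpow₀, ComplexEmbedding.conjugate_coe_eq]
      rw [h3, ← Finset.prod_div_distrib]
      exact Finset.prod_congr rfl fun φ _ => zpow_sub₀ (hv φ) _ _
    have h4 : (∏ φ : ((Z.X.factor i).E →+* ℂ), φ (Z.π i) ^ cnt φ) ^ (2 * s) =
        ((p ^ Z.a : ℕ) : ℂ) ^ (s * ∑ w, e w) := by
      rw [← hprod, h1, hqC]
    rw [h2, div_pow, ← map_pow, h4, map_pow, map_natCast]
    exact div_self (pow_ne_zero _ hq0)
  exact ⟨1, fun φ => cnt φ - cnt (ComplexEmbedding.conjugate φ), 2 * s, one_pos,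
    Nat.mul_pos two_pos hs, fun φ => by rw [Nat.cast_one, one_mul], hodd⟩

/-- A factor for which a conjugate pair is a relation is supersingular. -/
theorem isSupersingular_of_rel (Z : RedAV p ν) (i : Z.X.I) (χ : (Z.X.factor i).E →+* ℂ)
    (h : Rel (fun φ : (Z.X.factor i).E →+* ℂ => φ (Z.π i)) (fun φ => (dZ χ φ : ℚ))) :
    IsSupersingular Z i := by
  classical
  obtain ⟨N, m, s, hN, hs, h2, h3⟩ := h
  have hv : ∀ φ : (Z.X.factor i).E →+* ℂ, φ (Z.π i) ≠ 0 := fun φ => eig_ne_zero Z ⟨i, φ⟩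
  have hm : ∀ φ, m φ = dZ χ φ * N := by
    intro φ
    have h5 := h2 φ
    beta_reduce at h5
    rw [mul_comm]
    exact_mod_cast h5
  have hprod : ∏ φ : (Z.X.factor i).E →+* ℂ, φ (Z.π i) ^ m φ =
      (χ (Z.π i) / ComplexEmbedding.conjugate χ (Z.π i)) ^ N := by
    rw [← prod_dZ (fun φ : (Z.X.factor i).E →+* ℂ => φ (Z.π i)) hv χ, ← Finset.prod_pow]
    refine Finset.prod_congr rfl fun φ _ => ?_
    rw [hm, zpow_mul, zpow_natCast]
  have h5 : χ (Z.π i) * ComplexEmbedding.conjugate χ (Z.π i) = (p : ℂ) ^ Z.a :=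
    eig_mul_wbar Z ⟨i, χ⟩
  have hq0 : (p : ℂ) ^ Z.a ≠ 0 := pow_ne_zero _ (by exact_mod_cast (Fact.out : p.Prime).ne_zero)
  have h6 : χ (Z.π i) / ComplexEmbedding.conjugate χ (Z.π i) = χ (Z.π i) ^ 2 / (p : ℂ) ^ Z.a := by
    have h7 := hv (ComplexEmbedding.conjugate χ)
    have h8 := hv χ
    rw [← h5]
    field_simp
  rw [hprod, h6, ← pow_mul, div_pow, ← pow_mul, div_eq_one_iff_eq (pow_ne_zero _ hq0)] at h3
  refine ⟨N * s, Nat.mul_pos hN hs, ?_⟩
  apply χ.injective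
  rw [map_pow, map_pow, map_pow, map_natCast, h3]

/-- Pairs of eigenvalues. -/
theorem pair_rel (Z : RedAV p ν) (i : Z.X.I) (χ χ' : (Z.X.factor i).E →+* ℂ)
    (h : Rel (fun φ : (Z.X.factor i).E →+* ℂ => φ (Z.π i))
      (fun φ => ((dZ χ φ - dZ χ' φ : ℤ) : ℚ))) :
    ∃ s : ℕ, 0 < s ∧ (eig Z ⟨i, χ⟩ * eig Z ⟨i, ComplexEmbedding.conjugate χ'⟩) ^ (2 * s) =
      ((p : ℂ) ^ Z.a) ^ (s * 2) := by
  classical
  obtain ⟨N, m, s, hN, hs, h2, h3⟩ := h
  have hv : ∀ φ : (Z.X.factor i).E →+* ℂ, φ (Z.π i) ≠ 0 := fun φ => eig_ne_zero Z ⟨i, φ⟩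
  have hm : ∀ φ, m φ = (dZ χ φ - dZ χ' φ) * N := by
    intro φ
    have h5 := h2 φ
    beta_reduce at h5
    rw [mul_comm]
    exact_mod_cast h5
  have hprod : ∏ φ : (Z.X.factor i).E →+* ℂ, φ (Z.π i) ^ m φ =
      ((χ (Z.π i) / ComplexEmbedding.conjugate χ (Z.π i)) /
        (χ' (Z.π i) / ComplexEmbedding.conjugate χ' (Z.π i))) ^ N := by
    rw [← prod_dZ (fun φ : (Z.X.factor i).E →+* ℂ => φ (Z.π i)) hv χ,
      ← prod_dZ (fun φ : (Z.X.factor i).E →+* ℂ => φ (Z.π i)) hv χ', ← Finset.prod_div_distrib,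
      ← Finset.prod_pow]
    refine Finset.prod_congr rfl fun φ _ => ?_
    rw [hm, zpow_mul, zpow_natCast, zpow_sub₀ (hv φ)]
  have h5 : χ (Z.π i) * ComplexEmbedding.conjugate χ (Z.π i) = (p : ℂ) ^ Z.a :=
    eig_mul_wbar Z ⟨i, χ⟩
  have h5' : χ' (Z.π i) * ComplexEmbedding.conjugate χ' (Z.π i) = (p : ℂ) ^ Z.a :=
    eig_mul_wbar Z ⟨i, χ'⟩
  have hq0 : (p : ℂ) ^ Z.a ≠ 0 := pow_ne_zero _ (by exact_mod_cast (Fact.out : p.Prime).ne_zero)
  have h6 : (χ (Z.π i) / ComplexEmbedding.conjugate χ (Z.π i)) /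
      (χ' (Z.π i) / ComplexEmbedding.conjugate χ' (Z.π i)) =
      (χ (Z.π i) * ComplexEmbedding.conjugate χ' (Z.π i)) ^ 2 / ((p : ℂ) ^ Z.a) ^ 2 := by
    have h7 := hv (ComplexEmbedding.conjugate χ)
    have h8 := hv χ
    have h9 := hv (ComplexEmbedding.conjugate χ')
    have h10 := hv χ'
    have h11 : ((p : ℂ) ^ Z.a) ^ 2 = (χ (Z.π i) * ComplexEmbedding.conjugate χ (Z.π i)) *
        (χ' (Z.π i) * ComplexEmbedding.conjugate χ' (Z.π i)) := by
      rw [h5, h5', sq]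
    rw [h11]
    field_simp
  rw [hprod, h6, ← pow_mul, div_pow, ← pow_mul, ← pow_mul,
    div_eq_one_iff_eq (pow_ne_zero _ hq0)] at h3
  refine ⟨N * s, Nat.mul_pos hN hs, ?_⟩
  change (χ (Z.π i) * ComplexEmbedding.conjugate χ' (Z.π i)) ^ (2 * (N * s)) = _
  rw [h3, ← pow_mul, ← pow_mul]
  congr 1
  ring

/-- Relations of one factor with as many eigenvalues in the one half as in the other half are generated
by pairs. -/
theorem mem_closure_of_pairs (Z : RedAV p ν) (i : Z.X.I) (e : Emb Z → ℕ)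
    (hE : ∀ u : Emb Z, u.1 ≠ i → e u = 0) (u : ((Z.X.factor i).E →+* ℂ) → ℚ)
    (huodd : ∀ φ, u (ComplexEmbedding.conjugate φ) = -u φ) (hupm : ∀ φ, u φ = 1 ∨ u φ = -1)
    (hsum : ∑ φ : (Z.X.factor i).E →+* ℂ, (e ⟨i, φ⟩ : ℚ) * u φ = 0)
    (hpair : ∀ χ χ', u χ = 1 → u χ' = 1 → ∃ s : ℕ, 0 < s ∧
      (eig Z ⟨i, χ⟩ * eig Z ⟨i, ComplexEmbedding.conjugate χ'⟩) ^ (2 * s) =
        ((p : ℂ) ^ Z.a) ^ (s * 2)) :
    (fun w => (e w : ℤ)) ∈ AddSubgroup.closure
      {d : Emb Z → ℤ | ∃ n : Emb Z → ℕ, IsRel Z n ∧ IsElementaryS Z n ∧ ∀ w, d w = n w} := by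
  classical
  let pr : Emb Z → Emb Z → Emb Z → ℕ := fun w w' v =>
    (if v = w then 1 else 0) + if v = w' then 1 else 0
  have hpr : ∀ χ χ', u χ = 1 → u χ' = 1 →
      (fun v => (pr ⟨i, χ⟩ ⟨i, ComplexEmbedding.conjugate χ'⟩ v : ℤ)) ∈ AddSubgroup.closure
      {d : Emb Z → ℤ | ∃ n : Emb Z → ℕ, IsRel Z n ∧ IsElementaryS Z n ∧ ∀ w, d w = n w} := by
    intro χ χ' h1 h2
    have hs2 : ∑ v, pr ⟨i, χ⟩ ⟨i, ComplexEmbedding.conjugate χ'⟩ v = 2 := by
      simp only [pr, Finset.sum_add_distrib, Finset.sum_ite_eq', Finset.mem_univ, if_true]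
    obtain ⟨s, hs, h3⟩ := hpair χ χ' h1 h2
    refine AddSubgroup.subset_closure ⟨_, ⟨s, hs, ?_⟩, Or.inl hs2.le, fun _ => rfl⟩
    rw [hs2, ← h3]
    congr 1
    simp only [pr, pow_add, Finset.prod_mul_distrib]
    congr 1
    · rw [Finset.prod_eq_single (⟨i, χ⟩ : Emb Z) (fun u _ hu => by rw [if_neg hu, pow_zero])
        (fun h => absurd (Finset.mem_univ _) h), if_pos rfl, pow_one]
    · rw [Finset.prod_eq_single (⟨i, ComplexEmbedding.conjugate χ'⟩ : Emb Z)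
        (fun u _ hu => by rw [if_neg hu, pow_zero])
        (fun h => absurd (Finset.mem_univ _) h), if_pos rfl, pow_one]
  obtain ⟨φ0, hφ0⟩ : ∃ φ0 : (Z.X.factor i).E →+* ℂ, u φ0 = 1 := by
    obtain ⟨φ⟩ : Nonempty ((Z.X.factor i).E →+* ℂ) := inferInstance
    rcases hupm φ with h | h
    · exact ⟨φ, h⟩
    · exact ⟨ComplexEmbedding.conjugate φ, by rw [huodd, h, neg_neg]⟩
  let A : Finset ((Z.X.factor i).E →+* ℂ) := Finset.univ.filter fun φ => u φ = 1
  have hA : ∀ φ, φ ∈ A ↔ u φ = 1 := fun φ => by simp [A]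
  have hAc : ∀ φ, φ ∉ A ↔ ComplexEmbedding.conjugate φ ∈ A := by
    intro φ
    rw [hA, hA, huodd]
    rcases hupm φ with h | h <;> rw [h] <;> norm_num
  -- sums over all embeddings
  have hsplit : ∀ {M : Type} [AddCommMonoid M] (f : ((Z.X.factor i).E →+* ℂ) → M),
      ∑ φ, f φ = ∑ φ ∈ A, f φ + ∑ φ ∈ A, f (ComplexEmbedding.conjugate φ) := by
    intro M _ f
    rw [← Finset.sum_add_sum_compl A f]
    congr 1
    refine Finset.sum_nbij' ComplexEmbedding.conjugate ComplexEmbedding.conjugate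
      (fun φ hφ => ?_) (fun φ hφ => ?_) (fun φ _ => conj_conj φ) (fun φ _ => conj_conj φ)
      (fun φ _ => by rw [conj_conj])
    · exact (hAc φ).1 (Finset.mem_compl.1 hφ)
    · rw [Finset.mem_compl, hAc, conj_conj]
      exact hφ
  have hTT : ∑ φ ∈ A, (e ⟨i, φ⟩ : ℤ) = ∑ φ ∈ A, (e ⟨i, ComplexEmbedding.conjugate φ⟩ : ℤ) := by
    have h1 := hsum
    rw [hsplit] at h1
    have h2 : ∀ φ ∈ A, (e ⟨i, φ⟩ : ℚ) * u φ = e ⟨i, φ⟩ := fun φ hφ => by
      rw [(hA φ).1 hφ, mul_one]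
    have h3 : ∀ φ ∈ A, (e ⟨i, ComplexEmbedding.conjugate φ⟩ : ℚ) *
        u (ComplexEmbedding.conjugate φ) = -(e ⟨i, ComplexEmbedding.conjugate φ⟩ : ℚ) :=
      fun φ hφ => by rw [huodd, (hA φ).1 hφ]; ring
    rw [Finset.sum_congr rfl h2, Finset.sum_congr rfl h3, Finset.sum_neg_distrib] at h1
    have h4 : (((∑ φ ∈ A, (e ⟨i, φ⟩ : ℤ) : ℤ)) : ℚ) =
        ((∑ φ ∈ A, (e ⟨i, ComplexEmbedding.conjugate φ⟩ : ℤ) : ℤ) : ℚ) := by
      push_cast
      linarith
    exact_mod_cast h4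
  set T : ℤ := ∑ φ ∈ A, (e ⟨i, φ⟩ : ℤ) with hT
  have key : (fun w => (e w : ℤ)) =
      (∑ φ ∈ A, (e ⟨i, φ⟩ : ℤ) •
        (fun v => (pr ⟨i, φ⟩ ⟨i, ComplexEmbedding.conjugate φ0⟩ v : ℤ))) +
      (∑ φ ∈ A, (e ⟨i, ComplexEmbedding.conjugate φ⟩ : ℤ) •
        (fun v => (pr ⟨i, φ0⟩ ⟨i, ComplexEmbedding.conjugate φ⟩ v : ℤ))) -
      T • (fun v => (pr ⟨i, φ0⟩ ⟨i, ComplexEmbedding.conjugate φ0⟩ v : ℤ)) := by
    funext v
    have h0 : (e v : ℤ) = ∑ φ : (Z.X.factor i).E →+* ℂ,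
        (e ⟨i, φ⟩ : ℤ) * (if v = ⟨i, φ⟩ then 1 else 0) := by
      by_cases hv : v.1 = i
      · obtain ⟨k, ψ⟩ := v
        change k = i at hv
        subst hv
        rw [Finset.sum_eq_single ψ]
        · rw [if_pos rfl, mul_one]
        · intro φ _ hφ
          rw [if_neg, mul_zero]
          intro h
          exact hφ (eq_of_heq (Sigma.mk.inj_iff.1 h).2).symm
        · intro h
          exact absurd (Finset.mem_univ _) h
      · rw [hE v hv]
        symm
        rw [Nat.cast_zero]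
        refine Finset.sum_eq_zero fun φ _ => ?_
        rw [if_neg, mul_zero]
        intro h
        exact hv (by rw [h])
    rw [Pi.sub_apply, Pi.add_apply, Finset.sum_apply, Finset.sum_apply]
    simp only [Pi.smul_apply, smul_eq_mul, pr]
    push_cast
    simp only [mul_add, Finset.sum_add_distrib]
    rw [h0, hsplit, ← Finset.sum_mul, ← Finset.sum_mul, ← hTT]
    ring
  rw [key]
  refine AddSubgroup.sub_mem _ (AddSubgroup.add_mem _ (AddSubgroup.sum_mem _ fun φ hφ => ?_)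
    (AddSubgroup.sum_mem _ fun φ hφ => ?_)) ?_
  · exact AddSubgroup.zsmul_mem _ (hpr φ φ0 ((hA φ).1 hφ) hφ0) _
  · exact AddSubgroup.zsmul_mem _ (hpr φ0 φ hφ0 ((hA φ).1 hφ)) _
  · exact AddSubgroup.zsmul_mem _ (hpr φ0 φ0 hφ0 hφ0) _

/-- One factor of odd prime dimension, not supersingular, without Weil relation. -/
theorem generated_of_prime (Z : RedAV p ν) (P : Set Z.X.I) (i : Z.X.I)
    (hP : ∀ k ∈ P, k = i) {g : ℕ} (hg : g.Prime) (hodd : g ≠ 2)
    (hK : finrank ℚ (Z.X.factor i).E = 2 * g) (hns : ¬ IsSupersingular Z i)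
    (hW : 10 < finrank ℚ (Z.X.factor i).E → NoWeilRelation Z i) : Generated Z P := by
  classical
  by_cases h10 : finrank ℚ (Z.X.factor i).E ≤ 10
  · -- a small factor
    refine generated_of_good Z P (Or.inr ⟨?_, ?_⟩)
    · by_cases hi : i ∈ P
      · rw [Finset.sum_eq_single i]
        · rw [if_pos hi]
          exact h10
        · intro k _ hk
          rw [if_neg fun h => hk (hP k h)]
        · intro h
          exact absurd (Finset.mem_univ _) h
      · rw [Finset.sum_eq_zero]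
        · omega
        · intro k _
          rw [if_neg]
          intro h
          have h1 := hP k h
          rw [h1] at h
          exact hi h
    · intro k hk l hl hex
      have h1 := hP k hk
      have h2 := hP l hl
      have h3 := hex.1
      have h4 := hex.2.1
      rw [h1] at h3
      rw [h2] at h4
      omega
  have hW' := hW (not_le.1 h10)
  intro e he hrel
  have hE : ∀ u : Emb Z, u.1 ≠ i → e u = 0 := by
    intro u hu
    by_contra h
    exact hu (hP _ (he u h))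
  have hv : ∀ φ : (Z.X.factor i).E →+* ℂ, φ (Z.π i) ≠ 0 := fun φ => eig_ne_zero Z ⟨i, φ⟩
  have hpos : (0 : ℝ) < 1 := one_pos
  have hqne : (p : ℂ) ^ Z.a ≠ 0 := pow_ne_zero _ (by exact_mod_cast (Fact.out : p.Prime).ne_zero)
  let W := RR (fun φ : (Z.X.factor i).E →+* ℂ => φ (Z.π i)) hv ComplexEmbedding.conjugate
  let f : ((Z.X.factor i).E →+* ℂ) → ℚ := fun φ =>
    (((e ⟨i, φ⟩ : ℤ) - (e ⟨i, ComplexEmbedding.conjugate φ⟩ : ℤ) : ℤ) : ℚ)
  have hfW : f ∈ W := by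
    refine ⟨fun φ => ?_, rel_of_isRel Z i e hE hrel⟩
    simp only [f]
    rw [conj_conj]
    push_cast
    ring
  rcases prime_triC hg hodd hK W (fun m hm => hm.1) (fun τ m hm => RR_stable (Z.π i) hv τ m hm)
    with h | h | ⟨x, n, u, hn, hx, huodd, hupm, hux, h | h⟩
  · -- no odd relations
    rw [h, Submodule.mem_bot] at hfW
    refine mem_closure_of_sym Z e fun w => ?_
    by_cases hwi : w.1 = i
    · obtain ⟨k, φ⟩ := w
      change k = i at hwi
      subst hwi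
      have h5 : ((((e ⟨k, φ⟩ : ℤ) - (e ⟨k, ComplexEmbedding.conjugate φ⟩ : ℤ) : ℤ)) : ℚ) = 0 :=
        congrFun hfW φ
      have h6 : ((e ⟨k, φ⟩ : ℤ) - (e ⟨k, ComplexEmbedding.conjugate φ⟩ : ℤ) : ℤ) = 0 := by
        exact_mod_cast h5
      change e ⟨k, ComplexEmbedding.conjugate φ⟩ = e ⟨k, φ⟩
      omega
    · rw [hE w hwi, hE (wbar Z w) hwi]
  · -- supersingular
    exfalso
    obtain ⟨χ⟩ : Nonempty ((Z.X.factor i).E →+* ℂ) := inferInstance
    have h1 := h (fun φ => (dZ χ φ : ℚ)) (fun φ => by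
      beta_reduce
      rw [dZ_odd]
      push_cast
      ring)
    exact hns (isSupersingular_of_rel Z i χ h1.2)
  · -- Weil relation
    exfalso
    obtain ⟨-, N, m, s, hN, hs, h2, h3⟩ := h.1
    obtain ⟨φ0, hφ0⟩ : ∃ φ0 : (Z.X.factor i).E →+* ℂ, u φ0 = 1 := by
      obtain ⟨φ⟩ : Nonempty ((Z.X.factor i).E →+* ℂ) := inferInstance
      rcases hupm φ with h | h
      · exact ⟨φ, h⟩
      · exact ⟨ComplexEmbedding.conjugate φ, by rw [huodd, h, neg_neg]⟩
    let A : Finset ((Z.X.factor i).E →+* ℂ) := Finset.univ.filter fun φ => φ x = φ0 x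
    have hA : ∀ φ, φ ∈ A ↔ u φ = 1 := fun φ => by
      rw [Finset.mem_filter, hux, hφ0]
      simp
    have hAc : ∀ φ, φ ∉ A ↔ ComplexEmbedding.conjugate φ ∈ A := by
      intro φ
      rw [hA, hA, huodd]
      rcases hupm φ with h | h <;> rw [h] <;> norm_num
    have hm1 : ∀ φ ∈ A, m φ = N := by
      intro φ hφ
      have h4 := h2 φ
      rw [(hA φ).1 hφ, mul_one] at h4
      exact_mod_cast h4
    have hm2 : ∀ φ ∈ A, m (ComplexEmbedding.conjugate φ) = -N := by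
      intro φ hφ
      have h4 := h2 (ComplexEmbedding.conjugate φ)
      rw [huodd, (hA φ).1 hφ, mul_neg, mul_one] at h4
      exact_mod_cast h4
    have hsplit : ∀ F : ((Z.X.factor i).E →+* ℂ) → ℂ,
        ∏ φ, F φ = (∏ φ ∈ A, F φ) * ∏ φ ∈ A, F (ComplexEmbedding.conjugate φ) := by
      intro F
      rw [← Finset.prod_mul_prod_compl A F]
      congr 1
      refine Finset.prod_nbij' ComplexEmbedding.conjugate ComplexEmbedding.conjugate
        (fun φ hφ => ?_) (fun φ hφ => ?_) (fun φ _ => conj_conj φ) (fun φ _ => conj_conj φ)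
        (fun φ _ => by rw [conj_conj])
      · exact (hAc φ).1 (Finset.mem_compl.1 hφ)
      · rw [Finset.mem_compl, hAc, conj_conj]
        exact hφ
    have hcard : 2 * A.card = finrank ℚ (Z.X.factor i).E := by
      rw [← Embeddings.card (Z.X.factor i).E ℂ, ← Finset.card_add_card_compl A]
      have h4 : Aᶜ.card = A.card := by
        refine Finset.card_nbij' ComplexEmbedding.conjugate ComplexEmbedding.conjugate
          (fun φ hφ => ?_) (fun φ hφ => ?_) (fun φ _ => conj_conj φ) (fun φ _ => conj_conj φ)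
        · exact (hAc φ).1 (Finset.mem_compl.1 hφ)
        · rw [Finset.mem_coe, Finset.mem_compl, hAc, conj_conj]
          exact hφ
      omega
    have hprod : ∏ φ : (Z.X.factor i).E →+* ℂ, φ (Z.π i) ^ m φ =
        ((∏ φ ∈ A, φ (Z.π i)) ^ 2 / ((p : ℂ) ^ Z.a) ^ A.card) ^ N := by
      rw [hsplit, ← Finset.prod_mul_distrib, ← Finset.prod_pow, ← Finset.prod_const,
        ← Finset.prod_div_distrib, ← Finset.prod_pow]
      refine Finset.prod_congr rfl fun φ hφ => ?_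
      rw [hm1 φ hφ, hm2 φ hφ, zpow_neg, zpow_natCast, zpow_natCast]
      have h5 : φ (Z.π i) * ComplexEmbedding.conjugate φ (Z.π i) = (p : ℂ) ^ Z.a :=
        eig_mul_wbar Z ⟨i, φ⟩
      have h7 := hv (ComplexEmbedding.conjugate φ)
      have h8 := hv φ
      have h9 : φ (Z.π i) ^ 2 / (p : ℂ) ^ Z.a = φ (Z.π i) / ComplexEmbedding.conjugate φ (Z.π i) := by
        rw [← h5]
        field_simp
      rw [h9, div_pow, div_eq_mul_inv]
    rw [hprod, ← pow_mul, div_pow, ← pow_mul, ← pow_mul,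
      div_eq_one_iff_eq (pow_ne_zero _ hqne)] at h3
    refine hW' x n hn hx φ0 (N * s) (Nat.mul_pos hN hs) ?_
    change (∏ φ ∈ A, φ (Z.π i)) ^ (4 * (N * s)) = _
    have e1 : 4 * (N * s) = (2 * (N * s)) * 2 := by ring
    rw [e1, pow_mul, h3, ← pow_mul, ← hcard]
    congr 1
    ring
  · -- the orthogonal space
    refine mem_closure_of_pairs Z i e hE u huodd hupm ?_ (fun χ χ' h1 h2 => ?_)
    · have h1 := ((h f).1 hfW).2
      have h2 : ∑ φ, f φ * u φ = 2 * ∑ φ : (Z.X.factor i).E →+* ℂ, (e ⟨i, φ⟩ : ℚ) * u φ := by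
        have h3 : ∑ φ : (Z.X.factor i).E →+* ℂ,
            (e ⟨i, ComplexEmbedding.conjugate φ⟩ : ℚ) * u φ =
            -∑ φ : (Z.X.factor i).E →+* ℂ, (e ⟨i, φ⟩ : ℚ) * u φ := by
          let eb : Equiv.Perm ((Z.X.factor i).E →+* ℂ) :=
            ⟨ComplexEmbedding.conjugate, ComplexEmbedding.conjugate, conj_conj, conj_conj⟩
          rw [← Equiv.sum_comp eb (fun φ => (e ⟨i, φ⟩ : ℚ) * u φ), ← Finset.sum_neg_distrib]
          refine Finset.sum_congr rfl fun φ _ => ?_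
          change _ = -((e ⟨i, ComplexEmbedding.conjugate φ⟩ : ℚ) * u (ComplexEmbedding.conjugate φ))
          rw [huodd]
          ring
        simp only [f]
        push_cast
        simp only [sub_mul, Finset.sum_sub_distrib]
        rw [h3]
        ring
      rw [h2] at h1
      exact (mul_eq_zero.1 h1).resolve_left two_ne_zero
    · have h3 : (fun φ => ((dZ χ φ - dZ χ' φ : ℤ) : ℚ)) ∈ W := by
        rw [h]
        refine ⟨fun φ => ?_, ?_⟩
        · beta_reduce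
          rw [dZ_odd, dZ_odd]
          push_cast
          ring
        · have h5 : ∀ χ0 : (Z.X.factor i).E →+* ℂ, ∑ φ, (dZ χ0 φ : ℚ) * u φ = 2 * u χ0 := by
            intro χ0
            have h6 : ∀ φ, (dZ χ0 φ : ℚ) * u φ = (if φ = χ0 then u φ else 0) -
                (if φ = ComplexEmbedding.conjugate χ0 then u φ else 0) := by
              intro φ
              unfold dZ
              split_ifs <;> push_cast <;> ring
            rw [Finset.sum_congr rfl fun φ _ => h6 φ, Finset.sum_sub_distrib,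
              Finset.sum_ite_eq' Finset.univ χ0, Finset.sum_ite_eq' Finset.univ
                (ComplexEmbedding.conjugate χ0), if_pos (Finset.mem_univ _),
              if_pos (Finset.mem_univ _), huodd]
            ring
          have h6 : ∀ φ, ((dZ χ φ - dZ χ' φ : ℤ) : ℚ) * u φ =
              (dZ χ φ : ℚ) * u φ - (dZ χ' φ : ℚ) * u φ := fun φ => by push_cast; ring
          rw [Finset.sum_congr rfl fun φ _ => h6 φ, Finset.sum_sub_distrib, h5, h5, h1, h2]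
          ring
      exact pair_rel Z i χ χ' h3.2

end Pool.Agent.Q306.TP
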