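import Mathlib
import Pool.Agent.Q306.TP.Angle
import Pool.Agent.Q306.TP.PrimeGen
import Pool.Agent.Q306.TP.AngleDefs

/-!
# Maximal angle rank of one Weil number
-/

set_option autoImplicit false

namespace Pool.Agent.Q306.TP

open NumberField Module Finset IntermediateField Pool.Agent.H204R3.CM Pool.Agent.Y137.MV
  Pool.Agent.Y1.CT

section

variable {K : Type} [Field K] [NumberField K] [IsCMField K] {π : K} {q : ℕ}

theorem conj_mul (hw : π * IsCMField.complexConj K π = (q : K)) (φ : K →+* ℂ) :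
    φ π * ComplexEmbedding.conjugate φ π = (q : ℂ) := by
  rw [ComplexEmbedding.conjugate_coe_eq, ← IsCMField.complexEmbedding_complexConj, ← map_mul,
    hw, map_natCast]

theorem val_ne_zero (hq : q ≠ 0) (hw : π * IsCMField.complexConj K π = (q : K)) (φ : K →+* ℂ) :
    φ π ≠ 0 := by
  refine (_root_.map_ne_zero φ).2 ?_
  intro h0
  rw [h0, zero_mul] at hw
  exact Nat.cast_ne_zero.2 hq hw.symm

/-- The odd part of a relation. -/
theorem rel_of_prod (hq : q ≠ 0) (hw : π * IsCMField.complexConj K π = (q : K)) {r : ℤ}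
    {n : (K →+* ℂ) → ℤ} (h : ∏ φ, φ π ^ n φ = (q : ℂ) ^ r) :
    Rel (fun φ : K →+* ℂ => φ π) (fun φ => ((n φ - n (ComplexEmbedding.conjugate φ) : ℤ) : ℚ)) := by
  have hv := val_ne_zero hq hw
  refine ⟨1, fun φ => n φ - n (ComplexEmbedding.conjugate φ), 1, one_pos, one_pos,
    fun φ => by rw [Nat.cast_one, one_mul], ?_⟩
  rw [pow_one]
  have h3 : starRingEnd ℂ (∏ φ : K →+* ℂ, φ π ^ n φ) =
      ∏ φ : K →+* ℂ, φ π ^ n (ComplexEmbedding.conjugate φ) := by
    let eb : Equiv.Perm (K →+* ℂ) :=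
      ⟨ComplexEmbedding.conjugate, ComplexEmbedding.conjugate, cconj, cconj⟩
    rw [map_prod, ← Equiv.prod_comp eb (fun φ => φ π ^ n (ComplexEmbedding.conjugate φ))]
    refine Finset.prod_congr rfl fun φ _ => ?_
    change _ = ComplexEmbedding.conjugate φ π ^
      n (ComplexEmbedding.conjugate (ComplexEmbedding.conjugate φ))
    rw [cconj, map_zpow₀, ComplexEmbedding.conjugate_coe_eq]
  have h2 : ∏ φ : K →+* ℂ, φ π ^ (n φ - n (ComplexEmbedding.conjugate φ)) =
      (∏ φ : K →+* ℂ, φ π ^ n φ) / starRingEnd ℂ (∏ φ : K →+* ℂ, φ π ^ n φ) := by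
    rw [h3, ← Finset.prod_div_distrib]
    exact Finset.prod_congr rfl fun φ _ => zpow_sub₀ (hv φ) _ _
  change ∏ φ : K →+* ℂ, φ π ^ (n φ - n (ComplexEmbedding.conjugate φ)) = 1
  rw [h2, h, map_zpow₀, map_natCast]
  exact div_self (zpow_ne_zero _ (Nat.cast_ne_zero.2 hq))

/-- Maximal angle rank, from the triviality of the odd relations. -/
theorem angle_of_noRel (hq : q ≠ 0) (hw : π * IsCMField.complexConj K π = (q : K))
    (h : ∀ f : (K →+* ℂ) → ℚ, (∀ φ, f (ComplexEmbedding.conjugate φ) = -f φ) →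
      Rel (fun φ : K →+* ℂ => φ π) f → f = 0) : MaximalAngleRank q (fun _ : Unit => π) := by
  intro r n hrel i φ
  cases i
  have hrel' : ∏ φ : K →+* ℂ, φ π ^ n ⟨(), φ⟩ = (q : ℂ) ^ r := by
    rw [← hrel, Fintype.prod_sigma]
    simp only [Finset.univ_unique, Finset.prod_singleton]
  have h1 := h _ (fun φ => by
    rw [cconj]
    push_cast
    ring) (rel_of_prod hq hw hrel')
  have h2 : ((n ⟨(), φ⟩ - n ⟨(), ComplexEmbedding.conjugate φ⟩ : ℤ) : ℚ) = 0 := congrFun h1 φ
  have h3 : n ⟨(), φ⟩ - n ⟨(), ComplexEmbedding.conjugate φ⟩ = 0 := by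
    exact_mod_cast h2
  exact sub_eq_zero.1 h3

/-- Weil numbers in fields with irreducible odd functions. -/
theorem angle_of_irreducible (hq : q ≠ 0) (hw : π * IsCMField.complexConj K π = (q : K))
    (hirr : OddIrreducible K) (hss : ¬ IsSS q π) : MaximalAngleRank q (fun _ : Unit => π) :=
  angle_of_noRel hq hw fun f hf hrel =>
    no_odd_rel hirr hq hw (fun s hs h => hss ⟨s, hs, h⟩) f hf hrel

theorem isSS_of_rel (hq : q ≠ 0) (hw : π * IsCMField.complexConj K π = (q : K)) (χ : K →+* ℂ)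
    (h : Rel (fun φ : K →+* ℂ => φ π) (fun φ => (dZ χ φ : ℚ))) : IsSS q π := by
  classical
  obtain ⟨N, m, s, hN, hs, h2, h3⟩ := h
  have hv := val_ne_zero hq hw
  have hm : ∀ φ, m φ = dZ χ φ * N := by
    intro φ
    have h5 := h2 φ
    beta_reduce at h5
    rw [mul_comm]
    exact_mod_cast h5
  have hprod : ∏ φ : K →+* ℂ, φ π ^ m φ = (χ π / ComplexEmbedding.conjugate χ π) ^ N := by
    rw [← prod_dZ (fun φ : K →+* ℂ => φ π) hv χ, ← Finset.prod_pow]
    refine Finset.prod_congr rfl fun φ _ => ?_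
    rw [hm, zpow_mul, zpow_natCast]
  have h5 := conj_mul hw χ
  have hq0 : (q : ℂ) ≠ 0 := Nat.cast_ne_zero.2 hq
  have h6 : χ π / ComplexEmbedding.conjugate χ π = χ π ^ 2 / (q : ℂ) := by
    have h7 := hv (ComplexEmbedding.conjugate χ)
    have h8 := hv χ
    rw [← h5]
    field_simp
  rw [hprod, h6, ← pow_mul, div_pow, ← pow_mul, div_eq_one_iff_eq (pow_ne_zero _ hq0)] at h3
  refine ⟨N * s, Nat.mul_pos hN hs, ?_⟩
  apply χ.injective
  rw [map_pow, map_pow, map_natCast, h3]

theorem pow_eq_of_rel (hq : q ≠ 0) (hw : π * IsCMField.complexConj K π = (q : K))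
    (χ χ' : K →+* ℂ)
    (h : Rel (fun φ : K →+* ℂ => φ π) (fun φ => ((dZ χ φ - dZ χ' φ : ℤ) : ℚ))) :
    ∃ s : ℕ, 0 < s ∧ χ (π ^ s) = χ' (π ^ s) := by
  classical
  obtain ⟨N, m, s, hN, hs, h2, h3⟩ := h
  have hv := val_ne_zero hq hw
  have hm : ∀ φ, m φ = (dZ χ φ - dZ χ' φ) * N := by
    intro φ
    have h5 := h2 φ
    beta_reduce at h5
    rw [mul_comm]
    exact_mod_cast h5
  have hprod : ∏ φ : K →+* ℂ, φ π ^ m φ =
      ((χ π / ComplexEmbedding.conjugate χ π) / (χ' π / ComplexEmbedding.conjugate χ' π)) ^ N := by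
    rw [← prod_dZ (fun φ : K →+* ℂ => φ π) hv χ, ← prod_dZ (fun φ : K →+* ℂ => φ π) hv χ',
      ← Finset.prod_div_distrib, ← Finset.prod_pow]
    refine Finset.prod_congr rfl fun φ _ => ?_
    rw [hm, zpow_mul, zpow_natCast, zpow_sub₀ (hv φ)]
  have h5 := conj_mul hw χ
  have h5' := conj_mul hw χ'
  have hq0 : (q : ℂ) ≠ 0 := Nat.cast_ne_zero.2 hq
  have h6 : (χ π / ComplexEmbedding.conjugate χ π) / (χ' π / ComplexEmbedding.conjugate χ' π) =
      (χ π) ^ 2 / (χ' π) ^ 2 := by
    have h7 := hv (ComplexEmbedding.conjugate χ)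
    have h8 := hv χ
    have h9 := hv (ComplexEmbedding.conjugate χ')
    have h10 := hv χ'
    have h11 : ComplexEmbedding.conjugate χ π = (q : ℂ) / χ π := by
      rw [← h5]; field_simp
    have h12 : ComplexEmbedding.conjugate χ' π = (q : ℂ) / χ' π := by
      rw [← h5']; field_simp
    rw [h11, h12]
    field_simp
  rw [hprod, h6, ← pow_mul, div_pow, ← pow_mul, ← pow_mul,
    div_eq_one_iff_eq (pow_ne_zero _ (hv χ'))] at h3
  exact ⟨2 * (N * s), Nat.mul_pos two_pos (Nat.mul_pos hN hs), by rw [map_pow, map_pow, h3]⟩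

/-- Weil numbers in CM fields of degree `2 g`, `g` an odd prime. -/
theorem angle_of_prime (hq : q ≠ 0) (hw : π * IsCMField.complexConj K π = (q : K)) {g : ℕ}
    (hg : g.Prime) (hodd : g ≠ 2) (hK : finrank ℚ K = 2 * g)
    (hgen : ∀ s : ℕ, 0 < s → ℚ⟮π ^ s⟯ = ⊤) (hss : ¬ IsSS q π) (hW : NoWeil q π) :
    MaximalAngleRank q (fun _ : Unit => π) := by
  classical
  refine angle_of_noRel hq hw fun f hf hrel => ?_
  have hv := val_ne_zero hq hw
  have hq0 : (q : ℂ) ≠ 0 := Nat.cast_ne_zero.2 hq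
  let W := RR (fun φ : K →+* ℂ => φ π) hv ComplexEmbedding.conjugate
  have hfW : f ∈ W := ⟨hf, hrel⟩
  rcases prime_triC hg hodd hK W (fun m hm => hm.1) (fun τ m hm => RR_stable π hv τ m hm)
    with h | h | ⟨x, n, u, hn, hx, huodd, hupm, hux, h | h⟩
  · rw [h, Submodule.mem_bot] at hfW
    exact hfW
  · exfalso
    obtain ⟨χ⟩ : Nonempty (K →+* ℂ) := inferInstance
    have h1 := h (fun φ => (dZ χ φ : ℚ)) (fun φ => by
      beta_reduce
      rw [dZ_odd]
      push_cast
      ring)
    exact hss (isSS_of_rel hq hw χ h1.2)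
  · -- Weil relation
    exfalso
    obtain ⟨-, N, m, s, hN, hs, h2, h3⟩ := h.1
    obtain ⟨φ0, hφ0⟩ : ∃ φ0 : K →+* ℂ, u φ0 = 1 := by
      obtain ⟨φ⟩ : Nonempty (K →+* ℂ) := inferInstance
      rcases hupm φ with h | h
      · exact ⟨φ, h⟩
      · exact ⟨ComplexEmbedding.conjugate φ, by rw [huodd, h, neg_neg]⟩
    let A : Finset (K →+* ℂ) := Finset.univ.filter fun φ => φ x = φ0 x
    have hA : ∀ φ, φ ∈ A ↔ u φ = 1 := fun φ => by
      rw [Finset.mem_filter, hux, hφ0]
      simp
    have hAc : ∀ φ, φ ∉ A ↔ ComplexEmbedding.conjugate φ ∈ A := by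
      intro φ
      rw [hA, hA, huodd]
      rcases hupm φ with h | h <;> rw [h] <;> norm_num
    have hm1 : ∀ φ ∈ A, m φ = N := by
      intro φ hφ
      have h4 := h2 φ
      rw [(hA φ).1 hφ, mul_one] at h4
      exact_mod_cast h4
    have hm2 : ∀ φ ∈ A, m (ComplexEmbedding.conjugate φ) = -N := by
      intro φ hφ
      have h4 := h2 (ComplexEmbedding.conjugate φ)
      rw [huodd, (hA φ).1 hφ, mul_neg, mul_one] at h4
      exact_mod_cast h4
    have hsplit : ∀ F : (K →+* ℂ) → ℂ,
        ∏ φ, F φ = (∏ φ ∈ A, F φ) * ∏ φ ∈ A, F (ComplexEmbedding.conjugate φ) := by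
      intro F
      rw [← Finset.prod_mul_prod_compl A F]
      congr 1
      refine Finset.prod_nbij' ComplexEmbedding.conjugate ComplexEmbedding.conjugate
        (fun φ hφ => ?_) (fun φ hφ => ?_) (fun φ _ => cconj φ) (fun φ _ => cconj φ)
        (fun φ _ => by rw [cconj])
      · exact (hAc φ).1 (Finset.mem_compl.1 hφ)
      · rw [Finset.mem_compl, hAc, cconj]
        exact hφ
    have hcard : 2 * A.card = finrank ℚ K := by
      rw [← Embeddings.card K ℂ, ← Finset.card_add_card_compl A]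
      have h4 : Aᶜ.card = A.card := by
        refine Finset.card_nbij' ComplexEmbedding.conjugate ComplexEmbedding.conjugate
          (fun φ hφ => ?_) (fun φ hφ => ?_) (fun φ _ => cconj φ) (fun φ _ => cconj φ)
        · exact (hAc φ).1 (Finset.mem_compl.1 hφ)
        · rw [Finset.mem_coe, Finset.mem_compl, hAc, cconj]
          exact hφ
      omega
    have hprod : ∏ φ : K →+* ℂ, φ π ^ m φ = ((∏ φ ∈ A, φ π) ^ 2 / (q : ℂ) ^ A.card) ^ N := by
      rw [hsplit, ← Finset.prod_mul_distrib, ← Finset.prod_pow, ← Finset.prod_const,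
        ← Finset.prod_div_distrib, ← Finset.prod_pow]
      refine Finset.prod_congr rfl fun φ hφ => ?_
      rw [hm1 φ hφ, hm2 φ hφ, zpow_neg, zpow_natCast, zpow_natCast]
      have h5 := conj_mul hw φ
      have h7 := hv (ComplexEmbedding.conjugate φ)
      have h8 := hv φ
      have h9 : φ π ^ 2 / (q : ℂ) = φ π / ComplexEmbedding.conjugate φ π := by
        rw [← h5]
        field_simp
      rw [h9, div_pow, div_eq_mul_inv]
    rw [hprod, ← pow_mul, div_pow, ← pow_mul, ← pow_mul,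
      div_eq_one_iff_eq (pow_ne_zero _ hq0)] at h3
    refine hW x n hn hx φ0 (N * s) (Nat.mul_pos hN hs) ?_
    change (∏ φ ∈ A, φ π) ^ (4 * (N * s)) = _
    have e1 : 4 * (N * s) = (2 * (N * s)) * 2 := by ring
    rw [e1, pow_mul, h3, ← pow_mul, ← hcard]
    congr 1
    ring
  · -- the orthogonal space
    exfalso
    have hu0 : ∀ χ, u χ ≠ 0 := fun χ => by rcases hupm χ with h | h <;> rw [h] <;> norm_num
    obtain ⟨φ⟩ : Nonempty (K →+* ℂ) := inferInstance
    let A : Finset (K →+* ℂ) := Finset.univ.filter fun χ => u χ = u φ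
    have hφA : φ ∈ A := Finset.mem_filter.2 ⟨Finset.mem_univ _, rfl⟩
    have hAcard : A.card = g := by
      have h1 : Finset.univ.filter (fun χ => ¬ u χ = u φ) = A.image ComplexEmbedding.conjugate := by
        ext χ
        rw [Finset.mem_filter, Finset.mem_image]
        constructor
        · rintro ⟨-, h2⟩
          refine ⟨ComplexEmbedding.conjugate χ, Finset.mem_filter.2 ⟨Finset.mem_univ _, ?_⟩,
            cconj χ⟩
          rw [huodd]
          rcases hupm χ with h3 | h3 <;> rcases hupm φ with h4 | h4 <;> rw [h3, h4] at h2 ⊢ <;>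
            simp_all
        · rintro ⟨χ', h2, rfl⟩
          refine ⟨Finset.mem_univ _, fun h3 => ?_⟩
          rw [huodd, (Finset.mem_filter.1 h2).2] at h3
          exact hu0 φ (by linarith)
      have h2 := Finset.card_filter_add_card_filter_not
        (s := (Finset.univ : Finset (K →+* ℂ))) (fun χ => u χ = u φ)
      rw [h1, Finset.card_image_of_injective _ (fun a b hab => by rw [← cconj a, hab, cconj]),
        Finset.card_univ, Embeddings.card, hK] at h2
      change A.card + A.card = 2 * g at h2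
      omega
    have h1 : 0 < (A.erase φ).card := by
      rw [Finset.card_erase_of_mem hφA, hAcard]
      have := hg.two_le
      omega
    obtain ⟨χ, hχ⟩ := Finset.card_pos.1 h1
    have hχne : χ ≠ φ := (Finset.mem_erase.1 hχ).1
    have hχu : u χ = u φ := (Finset.mem_filter.1 (Finset.mem_erase.1 hχ).2).2
    have h3 : (fun ψ => ((dZ χ ψ - dZ φ ψ : ℤ) : ℚ)) ∈ W := by
      rw [h]
      refine ⟨fun ψ => ?_, ?_⟩
      · beta_reduce
        rw [dZ_odd, dZ_odd]
        push_cast
        ring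
      · have h5 : ∀ χ0 : K →+* ℂ, ∑ ψ, (dZ χ0 ψ : ℚ) * u ψ = 2 * u χ0 := by
          intro χ0
          have h6 : ∀ ψ, (dZ χ0 ψ : ℚ) * u ψ = (if ψ = χ0 then u ψ else 0) -
              (if ψ = ComplexEmbedding.conjugate χ0 then u ψ else 0) := by
            intro ψ
            unfold dZ
            split_ifs <;> push_cast <;> ring
          rw [Finset.sum_congr rfl fun ψ _ => h6 ψ, Finset.sum_sub_distrib,
            Finset.sum_ite_eq' Finset.univ χ0, Finset.sum_ite_eq' Finset.univ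
              (ComplexEmbedding.conjugate χ0), if_pos (Finset.mem_univ _),
            if_pos (Finset.mem_univ _), huodd]
          ring
        have h6 : ∀ ψ, ((dZ χ ψ - dZ φ ψ : ℤ) : ℚ) * u ψ =
            (dZ χ ψ : ℚ) * u ψ - (dZ φ ψ : ℚ) * u ψ := fun ψ => by push_cast; ring
        rw [Finset.sum_congr rfl fun ψ _ => h6 ψ, Finset.sum_sub_distrib, h5, h5, hχu]
        ring
    obtain ⟨s, hs, h4⟩ := pow_eq_of_rel hq hw χ φ h3.2
    apply hχne
    -- `π ^ s` generates `K`
    have h5 : ∀ z : K, χ.toRatAlgHom z = φ.toRatAlgHom z := by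
      have h6 : (χ.toRatAlgHom.comp (IntermediateField.val ⊤)) =
          φ.toRatAlgHom.comp (IntermediateField.val (⊤ : IntermediateField ℚ K)) := by
        refine IntermediateField.algHom_ext_of_eq_adjoin ℚ (hgen s hs).symm ?_
        intro z hz
        rw [Set.mem_singleton_iff] at hz
        subst hz
        exact h4
      intro z
      exact DFunLike.congr_fun h6 ⟨z, IntermediateField.mem_top⟩
    ext z
    exact h5 z

end

end Pool.Agent.Q306.TP
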