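import Mathlib
import Pool.Agent.Q306.TP.AngleOne

/-!
# Maximal angle rank of families of Weil numbers in CM fields of degree `2 g`, `g` prime
-/

set_option autoImplicit false

namespace Pool.Agent.Q306.TP

open NumberField Module Finset IntermediateField Pool.Agent.H204R3.CM Pool.Agent.Y137.MV
  Pool.Agent.Y1.CT

theorem norm_q (p a : ℕ) [Fact p.Prime] (ha : 0 < a) :
    0 < ‖(p : PadicAlgCl p) ^ a‖ ∧ ‖(p : PadicAlgCl p) ^ a‖ < 1 := by
  have h1 : ‖(p : PadicAlgCl p)‖ = (p : ℝ)⁻¹ := by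
    have h2 : (p : PadicAlgCl p) = ((p : ℚ_[p]) : PadicAlgCl p) := by
      simp
    rw [h2, PadicAlgCl.norm_extends, Padic.norm_p]
  have hp := (Fact.out : p.Prime).one_lt
  have hp0 : (0 : ℝ) < p := by exact_mod_cast (Fact.out : p.Prime).pos
  have hp1 : (1 : ℝ) < p := by exact_mod_cast hp
  rw [norm_pow, h1]
  refine ⟨by positivity, pow_lt_one₀ (by positivity) (inv_lt_one_of_one_lt₀ hp1) ha.ne'⟩

theorem noWeil_of_oddRank {p a : ℕ} [Fact p.Prime] (ha : 0 < a) {K : Type} [Field K] [NumberField K]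
    [IsCMField K] {π : K} (hw : π * IsCMField.complexConj K π = ((p ^ a : ℕ) : K))
    (h : HasOddRank p a π) : NoWeil (p ^ a) π := by
  classical
  intro x n hn hx φ₀ s hs hcon
  obtain ⟨L, hLa, hLb, j, hj⟩ := exists_galois (fun _ : Unit => K)
  have hj' : ∀ ψ : K →+* ℂ, ∃ φ : K →+* L, j.comp φ = ψ := hj ()
  let ι : L →+* PadicAlgCl p := ((IsAlgClosed.lift : L →ₐ[ℚ] PadicAlgCl p) : L →+* PadicAlgCl p)
  -- the embeddings
  have hjbij : Function.Bijective (fun φ : K →+* L => j.comp φ) :=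
    ⟨fun a b hab => H194R3.CM.comp_injective j hab, hj'⟩
  have hιinj : Function.Injective (fun φ : K →+* L => ι.comp φ) :=
    fun a b hab => by
      ext z
      exact congrArg Subtype.val (ι.injective (RingHom.congr_fun hab z))
  have hcardL : Fintype.card (K →+* L) = Fintype.card (K →+* ℂ) :=
    Fintype.card_of_bijective hjbij
  have hιbij : Function.Bijective (fun φ : K →+* L => ι.comp φ) := by
    rw [Fintype.bijective_iff_injective_and_card]
    refine ⟨hιinj, ?_⟩
    rw [hcardL, Embeddings.card, Embeddings.card]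
  let A : Finset (K →+* L) := Finset.univ.filter fun φ => j (φ x) = φ₀ x
  have hxn : ∀ ψ : K →+* ℂ, (ψ x) ^ 2 = -(n : ℂ) := fun ψ => by
    rw [← map_pow, hx, map_neg, map_natCast]
  have hx0 : ∀ ψ : K →+* ℂ, ψ x ≠ 0 := by
    intro ψ h0
    have h1 := hxn ψ
    rw [h0] at h1
    have h2 : (n : ℂ) = 0 := by
      have h3 : -(n : ℂ) = 0 := by rw [← h1]; ring
      exact neg_eq_zero.1 h3
    exact hn.ne' (by exact_mod_cast h2)
  have hconjx : ∀ φ : K →+* L, j (cbar φ x) = - j (φ x) := by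
    intro φ
    have h1 : j (cbar φ x) = starRingEnd ℂ (j (φ x)) := by
      rw [cbar_apply]
      exact IsCMField.complexEmbedding_complexConj K (j.comp φ) x
    have h2 : j (φ x) ^ 2 = -(n : ℂ) := hxn (j.comp φ)
    have h3 : (j (φ x)).re = 0 := by
      have h4 := congrArg Complex.im h2
      have h5 := congrArg Complex.re h2
      rw [sq, Complex.mul_im] at h4
      rw [sq, Complex.mul_re] at h5
      simp only [Complex.neg_im, Complex.natCast_im, neg_zero, Complex.neg_re,
        Complex.natCast_re] at h4 h5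
      by_contra h6
      have h7 : (j (φ x)).im = 0 := by
        have h8 : (j (φ x)).re * (j (φ x)).im = 0 := by linarith
        exact (mul_eq_zero.1 h8).resolve_left h6
      rw [h7] at h5
      have h9 : (0 : ℝ) < n := by exact_mod_cast hn
      nlinarith [mul_self_nonneg (j (φ x)).re]
    rw [h1]
    apply Complex.ext
    · rw [Complex.conj_re, Complex.neg_re, h3, neg_zero]
    · rw [Complex.conj_im, Complex.neg_im]
  have hsqx : ∀ φ : K →+* L, j (φ x) = φ₀ x ∨ j (φ x) = -φ₀ x := by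
    intro φ
    have h1 : j (φ x) ^ 2 = (φ₀ x) ^ 2 := by
      rw [hxn φ₀]
      exact hxn (j.comp φ)
    exact sq_eq_sq_iff_eq_or_eq_neg.1 h1
  have hAmem : ∀ φ, φ ∈ A ↔ j (φ x) = φ₀ x := fun φ => by simp [A]
  have hAc : ∀ φ, φ ∉ A ↔ cbar φ ∈ A := by
    intro φ
    rw [hAmem, hAmem, hconjx]
    constructor
    · intro h1
      rw [(hsqx φ).resolve_left h1, neg_neg]
    · intro h1 h2
      rw [h2] at h1
      have h3 : φ₀ x = 0 := by
        have h4 : (2 : ℂ) * φ₀ x = 0 := by linear_combination -h1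
        simpa using h4
      exact hx0 φ₀ h3
  -- the relation in `L`
  have hprodj : j (∏ φ ∈ A, φ π) = ∏ φ : K →+* ℂ with φ x = φ₀ x, φ π := by
    rw [map_prod]
    refine Finset.prod_nbij (fun φ => j.comp φ) (fun φ hφ => ?_) (fun φ _ ψ _ h => hjbij.1 h)
      (fun ψ hψ => ?_) (fun φ _ => rfl)
    · rw [Finset.mem_filter]
      exact ⟨Finset.mem_univ _, (hAmem φ).1 hφ⟩
    · obtain ⟨φ, hφ⟩ := hj' ψ
      refine ⟨φ, ?_, hφ⟩
      rw [Finset.mem_coe, hAmem]
      rw [Finset.mem_coe, Finset.mem_filter, ← hφ] at hψ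
      exact hψ.2
  have hrelL : (∏ φ ∈ A, φ π) ^ (4 * s) = ((p ^ a : ℕ) : L) ^ (s * finrank ℚ K) := by
    apply j.injective
    rw [map_pow, hprodj, hcon, map_pow, map_natCast]
  -- the absolute values
  let v : (K →+* L) → ℝ := fun φ => ‖ι (φ π)‖
  let Q : ℝ := ‖(p : PadicAlgCl p) ^ a‖
  obtain ⟨hQ0, hQ1⟩ : 0 < Q ∧ Q < 1 := norm_q p a ha
  have hrel1 : (∏ φ ∈ A, v φ ^ 2) ^ (2 * s) = Q ^ (s * finrank ℚ K) := by
    have h1 := congrArg (fun z => ‖ι z‖) hrelL
    simp only [map_pow, map_prod, norm_pow, norm_prod, map_natCast] at h1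
    rw [Finset.prod_pow, ← pow_mul]
    have h2 : 2 * (2 * s) = 4 * s := by ring
    rw [h2, h1]
    congr 1
    change _ = ‖(p : PadicAlgCl p) ^ a‖
    rw [Nat.cast_pow]
  have hvbar : ∀ φ, v φ * v (cbar φ) = Q := by
    intro φ
    change ‖ι (φ π)‖ * ‖ι (φ (IsCMField.complexConj K π))‖ = Q
    rw [← norm_mul, ← map_mul, ← map_mul, hw, map_natCast, map_natCast, Nat.cast_pow]
  have hval : ∀ φ, v φ = 1 ∨ v φ ^ 2 = Q ∨ v φ = Q := fun φ => h.1 (ι.comp φ)
  have hv1Q : (1 : ℝ) ^ 2 ≠ Q := by rw [one_pow]; exact hQ1.ne'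
  -- the three sets
  let A0 := A.filter fun φ => v φ = 1
  let A1 := A.filter fun φ => v φ = Q
  have hexp : ∀ φ ∈ A, v φ ^ 2 = Q ^ (1 + (if v φ = Q then 1 else 0) : ℕ) /
      Q ^ (if v φ = 1 then 1 else 0 : ℕ) := by
    intro φ _
    rcases hval φ with h1 | h1 | h1
    · rw [h1, if_neg hQ1.ne', if_pos rfl]
      simp [hQ0.ne']
    · have h2 : v φ ≠ Q := by
        intro h2
        rw [h2] at h1
        have : Q * (Q - 1) = 0 := by linear_combination h1
        rcases mul_eq_zero.1 this with h3 | h3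
        · exact hQ0.ne' h3
        · exact hQ1.ne (by linarith)
      have h3 : v φ ≠ 1 := by
        intro h3
        rw [h3] at h1
        exact hv1Q h1
      rw [if_neg h2, if_neg h3, h1]
      simp
    · rw [h1, if_pos rfl, if_neg hQ1.ne]
      simp
  have hcount : (∏ φ ∈ A, v φ ^ 2) = Q ^ (A.card + A1.card) / Q ^ A0.card := by
    rw [Finset.prod_congr rfl hexp, Finset.prod_div_distrib, Finset.prod_pow_eq_pow_sum,
      Finset.prod_pow_eq_pow_sum, Finset.sum_add_distrib, Finset.sum_const, smul_eq_mul, mul_one,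
      ← Finset.card_filter, ← Finset.card_filter]
  have hcardA : 2 * A.card = finrank ℚ K := by
    have h1 : Fintype.card (K →+* L) = finrank ℚ K := by rw [hcardL, Embeddings.card]
    have h2 : Aᶜ.card = A.card := by
      refine Finset.card_nbij' cbar cbar (fun φ hφ => ?_) (fun φ hφ => ?_)
        (fun φ _ => cbar_cbar φ) (fun φ _ => cbar_cbar φ)
      · exact (hAc φ).1 (Finset.mem_compl.1 hφ)
      · rw [Finset.mem_coe, Finset.mem_compl, hAc, cbar_cbar]
        exact hφ
    have h3 := Finset.card_add_card_compl A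
    omega
  have heq : A1.card = A0.card := by
    rw [hcount, ← hcardA] at hrel1
    have h1 : Q ^ ((A.card + A1.card) * (2 * s)) =
        Q ^ (s * (2 * A.card)) * Q ^ (A0.card * (2 * s)) := by
      rw [← hrel1, div_pow, ← pow_mul, ← pow_mul]
      field_simp
    rw [← pow_add] at h1
    have h2 := pow_right_injective₀ hQ0 hQ1.ne h1
    beta_reduce at h2
    have h3 : 2 * s * A1.card = 2 * s * A0.card := by
      have h4 : (A.card + A1.card) * (2 * s) = 2 * s * A.card + 2 * s * A1.card := by ring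
      have h5 : s * (2 * A.card) + A0.card * (2 * s) = 2 * s * A.card + 2 * s * A0.card := by ring
      omega
    exact Nat.eq_of_mul_eq_mul_left (by omega) h3
  -- the number of embeddings of slope `0` is even
  have htot : Nat.card {τ : K →+* PadicAlgCl p // ‖τ π‖ = 1} = A0.card + A1.card := by
    have h1 : Nat.card {τ : K →+* PadicAlgCl p // ‖τ π‖ = 1} =
        Nat.card {φ : K →+* L // v φ = 1} := by
      symm
      refine Nat.card_congr ((Equiv.ofBijective _ hιbij).subtypeEquiv fun φ => Iff.rfl)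
    rw [h1, Nat.card_eq_fintype_card, Fintype.card_subtype]
    have h2 : (Finset.univ.filter fun φ : K →+* L => v φ = 1) =
        A0 ∪ (Aᶜ.filter fun φ => v φ = 1) := by
      ext φ
      simp only [A0, Finset.mem_filter, Finset.mem_union, Finset.mem_univ, true_and,
        Finset.mem_compl]
      tauto
    have h3 : Disjoint A0 (Aᶜ.filter fun φ => v φ = 1) := by
      rw [Finset.disjoint_left]
      intro φ h4 h5
      exact (Finset.mem_compl.1 (Finset.mem_filter.1 h5).1) (Finset.mem_filter.1 h4).1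
    have h4 : (Aᶜ.filter fun φ => v φ = 1).card = A1.card := by
      have h5 : ∀ φ, v φ = 1 ↔ v (cbar φ) = Q := by
        intro φ
        have h6 := hvbar φ
        constructor
        · intro h7
          rw [h7, one_mul] at h6
          exact h6
        · intro h7
          rw [h7] at h6
          exact mul_right_cancel₀ hQ0.ne' (by rw [h6, one_mul])
      refine Finset.card_nbij' cbar cbar (fun φ hφ => ?_) (fun φ hφ => ?_)
        (fun φ _ => cbar_cbar φ) (fun φ _ => cbar_cbar φ)
      · have h6 := Finset.mem_filter.1 hφ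
        exact Finset.mem_filter.2 ⟨(hAc φ).1 (Finset.mem_compl.1 h6.1), (h5 φ).1 h6.2⟩
      · have h6 := Finset.mem_filter.1 hφ
        refine Finset.mem_filter.2 ⟨?_, ?_⟩
        · rw [Finset.mem_compl, hAc, cbar_cbar]
          exact h6.1
        · rw [h5, cbar_cbar]
          exact h6.2
    rw [h2, Finset.card_union_of_disjoint h3, h4]
  have hodd := h.2
  rw [htot, heq] at hodd
  rcases hodd with ⟨k, hk⟩
  omega

/-- Single Weil numbers. -/
theorem angle_of_simple {p a : ℕ} [Fact p.Prime] (ha : 0 < a) {K : Type} [Field K] [NumberField K]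
    [IsCMField K] {π : K} (hw : π * IsCMField.complexConj K π = ((p ^ a : ℕ) : K))
    (h : IsSimpleWeil p a π) : MaximalAngleRank (p ^ a) (fun _ : Unit => π) := by
  have hq : p ^ a ≠ 0 := pow_ne_zero _ (Fact.out : p.Prime).ne_zero
  rcases h with ⟨hss, hirr | ⟨⟨g, hg, hodd, hK⟩, hgen, hW⟩⟩
  · exact angle_of_irreducible hq hw hirr hss
  · exact angle_of_prime hq hw hg hodd hK hgen hss (hW.elim id (noWeil_of_oddRank ha hw))

/-- Numbers unrelated to the field of a simple Weil number. -/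
theorem unrelated_of_simple {p a : ℕ} [Fact p.Prime] {K : Type} [Field K] [NumberField K]
    [IsCMField K] {π : K} (h : IsSimpleWeil p a π) {E : Type} [Field E] [NumberField E]
    (hle : ¬ normalClosure ℚ K ℂ ≤ normalClosure ℚ E ℂ) (hcom : ¬ CommonImaginary K E)
    (φ : E →+* ℂ) (x : E) : UnrelatedTo K (φ x) := by
  rcases h with ⟨-, hirr | ⟨⟨g, hg, hodd, hK⟩, -, -⟩⟩
  · exact unrelated_of_closure hirr hle φ _
  · exact unrelated_prime hg hodd hK (exists_aut_of_not_le hle) (fun x y n hn hx hy =>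
      hcom ⟨x, y, n, hn, hx, hy⟩) φ _

/-- CM fields of smaller degree. -/
theorem unrelated_of_simple_degree {p a : ℕ} [Fact p.Prime] {K : Type} [Field K] [NumberField K]
    [IsCMField K] {π : K} (h : IsSimpleWeil p a π) {E : Type} [Field E] [NumberField E] [IsCMField E]
    (hdeg : finrank ℚ E < finrank ℚ K) (hcom : ¬ CommonImaginary K E)
    (φ : E →+* ℂ) (x : E) : UnrelatedTo K (φ x) := by
  rcases h with ⟨-, hirr | ⟨⟨g, hg, hodd, hK⟩, -, -⟩⟩
  · refine unrelated_of_degree hirr ?_ ?_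
    · have h2 : IsIntegral ℚ x := Algebra.IsIntegral.isIntegral _
      have h3 : IsIntegral ℚ (φ.toRatAlgHom x) := h2.map _
      exact h3.isAlgebraic
    · refine lt_of_le_of_lt ?_ hdeg
      have h2 : minpoly ℚ (φ x) = minpoly ℚ x :=
        minpoly.algHom_eq (RingHom.equivRatAlgHom _ ℂ φ) φ.injective x
      rw [h2]
      exact minpoly.natDegree_le _
  · exact unrelated_prime hg hodd hK (exists_move_of_degree hg hodd hK hdeg) (fun x y n hn hx hy =>
      hcom ⟨x, y, n, hn, hx, hy⟩) φ _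

/-- Numbers with a rational power. -/
theorem unrelated_of_root {K : Type} [Field K] [NumberField K] [IsCMField K] {y : ℂ} {N : ℕ}
    (hN : 0 < N) {r : ℚ} (h : y ^ N = (r : ℂ)) : UnrelatedTo K y := by
  intro n hn hinv
  funext φ
  have h1 := hinv (starRingAut : ℂ ≃+* ℂ) ⟨N, hN, by rw [h]; simp⟩ φ
  have h2 : ((starRingAut : ℂ ≃+* ℂ) : ℂ →+* ℂ).comp φ = ComplexEmbedding.conjugate φ := rfl
  rw [h2, hn] at h1
  change n φ = 0
  linarith

/-- Weil numbers of odd rank are not supersingular. -/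
theorem not_ss_of_oddRank {p a : ℕ} [Fact p.Prime] (ha : 0 < a) {K : Type} [Field K]
    {π : K} (h : HasOddRank p a π) : ¬ IsSS (p ^ a) π := by
  rintro ⟨s, hs, h1⟩
  obtain ⟨k, hk⟩ := h.2
  have h2 : 0 < Nat.card {τ : K →+* PadicAlgCl p // ‖τ π‖ = 1} := by omega
  obtain ⟨⟨τ, hτ⟩⟩ := (Nat.card_pos_iff.1 h2).1
  have h3 := congrArg (fun z => ‖τ z‖) h1
  simp only [map_pow, norm_pow, hτ, one_pow, map_natCast, Nat.cast_pow] at h3
  obtain ⟨hQ0, hQ1⟩ := norm_q p a ha
  rw [norm_pow] at hQ0 hQ1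
  exact (pow_lt_one₀ hQ0.le hQ1 hs.ne').ne h3.symm

/-- Ordinary Weil numbers in CM fields of degree `2 g`, `g` odd. -/
theorem oddRank_of_ordinary {p a : ℕ} [Fact p.Prime] (ha : 0 < a) {K : Type} [Field K]
    [NumberField K] [IsCMField K] {π : K}
    (hw : π * IsCMField.complexConj K π = ((p ^ a : ℕ) : K)) (hK : ¬ 4 ∣ finrank ℚ K)
    (h : ∀ τ : K →+* PadicAlgCl p, ‖τ π‖ = 1 ∨ ‖τ π‖ = ‖(p : PadicAlgCl p) ^ a‖) :
    HasOddRank p a π := by
  classical
  refine ⟨fun τ => (h τ).imp id Or.inr, ?_⟩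
  obtain ⟨hQ0, hQ1⟩ := norm_q p a ha
  have hvbar : ∀ τ : K →+* PadicAlgCl p, ‖τ π‖ * ‖cbar τ π‖ = ‖(p : PadicAlgCl p) ^ a‖ := by
    intro τ
    change ‖τ π‖ * ‖τ (IsCMField.complexConj K π)‖ = _
    rw [← norm_mul, ← map_mul, hw, map_natCast, Nat.cast_pow]
  have h5 : ∀ τ : K →+* PadicAlgCl p, ¬ ‖τ π‖ = 1 ↔ ‖cbar τ π‖ = 1 := by
    intro τ
    have h6 := hvbar τ
    constructor
    · intro h7
      rw [(h τ).resolve_left h7] at h6
      exact mul_left_cancel₀ hQ0.ne' (by rw [h6, mul_one])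
    · intro h7 h8
      rw [h7, h8, one_mul] at h6
      exact hQ1.ne h6.symm
  rw [Nat.card_eq_fintype_card, Fintype.card_subtype]
  have h2 := Finset.card_filter_add_card_filter_not
    (s := (Finset.univ : Finset (K →+* PadicAlgCl p))) (fun τ => ‖τ π‖ = 1)
  have h3 : (Finset.univ.filter fun τ : K →+* PadicAlgCl p => ¬ ‖τ π‖ = 1).card =
      (Finset.univ.filter fun τ : K →+* PadicAlgCl p => ‖τ π‖ = 1).card := by
    refine Finset.card_nbij' cbar cbar (fun τ hτ => ?_) (fun τ hτ => ?_)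
      (fun τ _ => cbar_cbar τ) (fun τ _ => cbar_cbar τ)
    · exact Finset.mem_filter.2 ⟨Finset.mem_univ _, (h5 τ).1 (Finset.mem_filter.1 hτ).2⟩
    · refine Finset.mem_filter.2 ⟨Finset.mem_univ _, ?_⟩
      rw [h5, cbar_cbar]
      exact (Finset.mem_filter.1 hτ).2
  rw [h3, Finset.card_univ, Embeddings.card] at h2
  by_contra hodd
  rw [Nat.not_odd_iff_even] at hodd
  obtain ⟨k, hk⟩ := hodd
  exact hK ⟨k, by omega⟩

/-- Distinct CM fields, ordered by the degree and the degree of the normal closure. -/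
theorem exists_order {I : Type} [Fintype I] {F : I → Type} [∀ i, Field (F i)]
    [∀ i, NumberField (F i)] (hd : ∀ i k, i ≠ k → IsDifferent (F i) (F k)) :
    ∃ c : I → ℕ, Function.Injective c ∧ ∀ i k, c k < c i →
      finrank ℚ (F k) < finrank ℚ (F i) ∨
        ¬ normalClosure ℚ (F i) ℂ ≤ normalClosure ℚ (F k) ℂ := by
  classical
  let ix : I ≃ Fin (Fintype.card I) := Fintype.equivFin _
  let D : I → ℕ := fun i => finrank ℚ (normalClosure ℚ (F i) ℂ)
  let M := Fintype.card I
  let B := (∑ i, D i) + 1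
  have hDB : ∀ i, D i < B := fun i =>
    Nat.lt_succ_of_le (Finset.single_le_sum (fun _ _ => Nat.zero_le _) (Finset.mem_univ i))
  have hfd : ∀ i, FiniteDimensional ℚ (normalClosure ℚ (F i) ℂ) := fun i => inferInstance
  let e : I → ℕ := fun i => finrank ℚ (F i) * B + D i
  let c : I → ℕ := fun i => e i * M + ix i
  have hixM : ∀ i, (ix i : ℕ) < M := fun i => (ix i).2
  refine ⟨c, fun i k hik => ?_, fun i k hik => ?_⟩
  · have h1 : (ix i : ℕ) = ix k := by
      have h2 : (e i * M + ix i) % M = ix i := by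
        rw [mul_comm, Nat.mul_add_mod]
        exact Nat.mod_eq_of_lt (hixM i)
      have h3 : (e k * M + ix k) % M = ix k := by
        rw [mul_comm, Nat.mul_add_mod]
        exact Nat.mod_eq_of_lt (hixM k)
      have h4 : e i * M + ix i = e k * M + ix k := hik
      rw [← h2, ← h3, h4]
    exact ix.injective (Fin.ext h1)
  · have hki : i ≠ k := by
      rintro rfl
      exact lt_irrefl _ hik
    have he : e k ≤ e i := by
      by_contra h
      have h2 : e i + 1 ≤ e k := by omega
      have h3 : (e i + 1) * M ≤ e k * M := Nat.mul_le_mul_right M h2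
      have h4 := hixM i
      have h5 : (e i + 1) * M = e i * M + M := by ring
      have h6 : e k * M + ix k < e i * M + ix i := hik
      omega
    have hdeg : finrank ℚ (F k) ≤ finrank ℚ (F i) := by
      by_contra h
      have h2 : finrank ℚ (F i) + 1 ≤ finrank ℚ (F k) := by omega
      have h3 : (finrank ℚ (F i) + 1) * B ≤ finrank ℚ (F k) * B := Nat.mul_le_mul_right B h2
      have h4 := hDB i
      have h5 : (finrank ℚ (F i) + 1) * B = finrank ℚ (F i) * B + B := by ring
      have h6 : finrank ℚ (F k) * B + D k ≤ finrank ℚ (F i) * B + D i := he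
      omega
    rcases hdeg.lt_or_eq with hlt | heq
    · exact Or.inl hlt
    · refine Or.inr fun hle => ?_
      have h1 : D k ≤ D i := by
        have h6 : finrank ℚ (F k) * B + D k ≤ finrank ℚ (F i) * B + D i := he
        rw [heq] at h6
        omega
      have := hfd k
      exact (hd i k hki).1 heq.symm (IntermediateField.eq_of_le_of_finrank_le hle h1)

/-- **Maximal angle rank of families.** -/
theorem angle_family {p a : ℕ} [Fact p.Prime] (ha : 0 < a) {I : Type} [Fintype I] {F : I → Type}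
    [∀ i, Field (F i)] [∀ i, NumberField (F i)] [∀ i, IsCMField (F i)] {π : ∀ i, F i}
    (hw : ∀ i, π i * IsCMField.complexConj (F i) (π i) = ((p ^ a : ℕ) : F i))
    (hs : ∀ i, IsSimpleWeil p a (π i)) (hd : ∀ i k, i ≠ k → IsDifferent (F i) (F k)) :
    MaximalAngleRank (p ^ a) π := by
  classical
  have hq : p ^ a ≠ 0 := pow_ne_zero _ (Fact.out : p.Prime).ne_zero
  obtain ⟨c, hc, hord⟩ := exists_order hd
  refine angle_of_order hq hw c hc (fun i k hik φ => ?_)
    (fun i => angle_of_simple ha (hw i) (hs i))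
  have hki : i ≠ k := by
    rintro rfl
    exact lt_irrefl _ hik
  rcases hord i k hik with hlt | hle
  · exact unrelated_of_simple_degree (hs i) hlt (hd i k hki).2 φ _
  · exact unrelated_of_simple (hs i) hle (hd i k hki).2 φ _

end Pool.Agent.Q306.TP
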