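import Mathlib
import Pool.Agent.Q306.TP.AngleFam

/-!
# Maximal angle rank of families, final form
-/

set_option autoImplicit false

namespace Pool.Agent.Q306.TP

open NumberField Module IntermediateField Pool.Agent.Y137.MV

theorem angle_family' {p a : ℕ} [Fact p.Prime] (ha : 0 < a) {I : Type} [Fintype I] {F : I → Type}
    [∀ i, Field (F i)] [∀ i, NumberField (F i)] [∀ i, IsCMField (F i)] {π : ∀ i, F i}
    (hw : ∀ i, π i * IsCMField.complexConj (F i) (π i) = (p : F i) ^ a)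
    (hs : ∀ i, IsSimpleWeil p a (π i)) (hd : ∀ i k, i ≠ k → IsDifferent (F i) (F k)) :
    MaximalAngleRank (p ^ a) π :=
  angle_family ha (fun i => by rw [hw i]; push_cast; rfl) hs hd

theorem simpleWeil_of_ordinary {p a : ℕ} [Fact p.Prime] (ha : 0 < a) {K : Type} [Field K]
    [NumberField K] [IsCMField K] {π : K} (hw : π * IsCMField.complexConj K π = (p : K) ^ a)
    (hK : ∃ g : ℕ, g.Prime ∧ g ≠ 2 ∧ finrank ℚ K = 2 * g) (hgen : ∀ s : ℕ, 0 < s → ℚ⟮π ^ s⟯ = ⊤)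
    (hord : ∀ τ : K →+* PadicAlgCl p, ‖τ π‖ = 1 ∨ ‖τ π‖ = ‖(p : PadicAlgCl p) ^ a‖) :
    IsSimpleWeil p a π := by
  have hw' : π * IsCMField.complexConj K π = ((p ^ a : ℕ) : K) := by rw [hw]; push_cast; rfl
  obtain ⟨g, hg, hodd, hfin⟩ := hK
  have h4 : ¬ 4 ∣ finrank ℚ K := by
    rintro ⟨m, hm⟩
    rcases hg.eq_two_or_odd with h | h
    · exact hodd h
    · omega
  have hrk := oddRank_of_ordinary ha hw' h4 hord
  exact ⟨not_ss_of_oddRank ha hrk, Or.inr ⟨⟨g, hg, hodd, hfin⟩, hgen, Or.inr hrk⟩⟩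

end Pool.Agent.Q306.TP
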