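import Mathlib
import Pool.Agent.Q306.TP.PrimeGen

/-!
# Abelian varieties over finite fields with large factors
-/

set_option autoImplicit false

namespace Pool.Agent.Q306.TP

open NumberField Module Finset Pool.Agent.H204R3.CM Pool.Agent.W547.KB Pool.Agent.W495.TA
  Pool.Agent.W495.TC Pool.Agent.TH117.BL Pool.Agent.Y137.SF Pool.Agent.Y137.MV Pool.Agent.Y1.CT

variable {p : ℕ} [Fact p.Prime] {ν : PadicAlgCl p ≃+* ℂ}

/-- The factor with the index `i` is large: it is not supersingular, and either the odd functions on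
the embeddings of its CM field are irreducible, or it has odd prime dimension, satisfies no Weil
relation if its dimension is more than five, and its CM field has no imaginary quadratic subfield in
common with the CM fields of the other factors. -/
def IsLarge (Z : RedAV p ν) (i : Z.X.I) : Prop :=
  ¬ IsSupersingular Z i ∧ (OddIrreducible (Z.X.factor i).E ∨
    ((∃ g : ℕ, g.Prime ∧ g ≠ 2 ∧ finrank ℚ (Z.X.factor i).E = 2 * g) ∧
      (10 < finrank ℚ (Z.X.factor i).E → NoWeilRelation Z i) ∧
      ∀ k, k ≠ i → ¬ CommonImaginary (Z.X.factor i).E (Z.X.factor k).E))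

/-- **Large factors with different Galois closures, and smaller factors.** -/
theorem elementary_of_large (Z : RedAV p ν) (S : Set Z.X.I) (hS : ∀ i ∈ S, IsLarge Z i)
    (hclos : ∀ i ∈ S, ∀ k ∈ S, IntermediateField.normalClosure ℚ (Z.X.factor i).E ℂ =
      IntermediateField.normalClosure ℚ (Z.X.factor k).E ℂ → i = k)
    (hdeg : ∀ i ∈ S, ∀ k ∉ S, finrank ℚ (Z.X.factor k).E < finrank ℚ (Z.X.factor i).E)
    (hgood : Generated Z Sᶜ) : HasElementaryRelationsS Z := by
  classical
  -- the order of the factors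
  let ix : Z.X.I ≃ Fin (Fintype.card Z.X.I) := Fintype.equivFin _
  let D : Z.X.I → ℕ := fun i =>
    finrank ℚ (IntermediateField.normalClosure ℚ (Z.X.factor i).E ℂ)
  let M := Fintype.card Z.X.I
  have hfd : ∀ i, FiniteDimensional ℚ
      (IntermediateField.normalClosure ℚ (Z.X.factor i).E ℂ) := fun i => inferInstance
  let c : Z.X.I → ℕ := fun i => if i ∈ S then D i * M + ix i + 1 else 0
  have hcS : ∀ i ∈ S, c i = D i * M + ix i + 1 := fun i hi => if_pos hi
  have hcn : ∀ i ∉ S, c i = 0 := fun i hi => if_neg hi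
  have hixM : ∀ i, (ix i : ℕ) < M := fun i => (ix i).2
  refine elementary_of_blocks Z c (fun i k hik φ => ?_) (fun b => ?_)
  · have hi : i ∈ S := by
      by_contra h
      rw [hcn i h] at hik
      omega
    have hki : k ≠ i := by
      rintro rfl
      exact lt_irrefl _ hik
    by_cases hk : k ∈ S
    · -- a large factor
      have hle : ¬ IntermediateField.normalClosure ℚ (Z.X.factor i).E ℂ ≤
          IntermediateField.normalClosure ℚ (Z.X.factor k).E ℂ := by
        intro hle
        rw [hcS i hi, hcS k hk] at hik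
        have h1 : D k ≤ D i := by
          by_contra h
          have h2 : D i + 1 ≤ D k := by omega
          have h3 : (D i + 1) * M ≤ D k * M := Nat.mul_le_mul_right M h2
          have h4 := hixM i
          have h5 : (D i + 1) * M = D i * M + M := by ring
          omega
        have h2 : IntermediateField.normalClosure ℚ (Z.X.factor i).E ℂ =
            IntermediateField.normalClosure ℚ (Z.X.factor k).E ℂ := by
          have := hfd k
          exact IntermediateField.eq_of_le_of_finrank_le hle h1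
        exact hki (hclos i hi k hk h2).symm
      rcases (hS i hi).2 with hirr | ⟨⟨g, hg, hodd, hK⟩, -, hcom⟩
      · exact unrelated_of_closure hirr hle φ _
      · exact unrelated_prime hg hodd hK (exists_aut_of_not_le hle) (fun x y n hn hx hy =>
          hcom k hki ⟨x, y, n, hn, hx, hy⟩) φ _
    · -- a small factor
      rcases (hS i hi).2 with hirr | ⟨⟨g, hg, hodd, hK⟩, -, hcom⟩
      · refine unrelated_of_degree hirr ?_ ?_
        · have h2 : IsIntegral ℚ (Z.π k) := Algebra.IsIntegral.isIntegral _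
          have h3 : IsIntegral ℚ (φ.toRatAlgHom (Z.π k)) := h2.map _
          exact h3.isAlgebraic
        · refine lt_of_le_of_lt ?_ (hdeg i hi k hk)
          have h2 : minpoly ℚ (φ (Z.π k)) = minpoly ℚ (Z.π k) :=
            minpoly.algHom_eq (RingHom.equivRatAlgHom _ ℂ φ) φ.injective (Z.π k)
          rw [h2]
          exact minpoly.natDegree_le _
      · exact unrelated_prime hg hodd hK (exists_move_of_degree hg hodd hK (hdeg i hi k hk))
          (fun x y n hn hx hy => hcom k hki ⟨x, y, n, hn, hx, hy⟩) φ _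
  · rcases Nat.eq_zero_or_pos b with hb | hb
    · have h1 : {i | c i = b} = Sᶜ := by
        ext i
        rw [Set.mem_compl_iff, hb]
        change c i = 0 ↔ _
        constructor
        · intro h hi
          rw [hcS i hi] at h
          omega
        · exact hcn i
      rw [h1]
      exact hgood
    · by_cases hex : ∃ i, c i = b
      · obtain ⟨i, hi⟩ := hex
        have hiS : i ∈ S := by
          by_contra h
          rw [hcn i h] at hi
          omega
        have hP : ∀ k ∈ {i | c i = b}, k = i := by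
          intro k hk
          have hk' : c k = b := hk
          have hkS : k ∈ S := by
            by_contra h
            rw [hcn k h] at hk'
            omega
          rw [hcS i hiS] at hi
          rw [hcS k hkS] at hk'
          have h1 : (ix k : ℕ) = ix i := by
            have h2 : (D k * M + ix k) % M = ix k := by
              rw [mul_comm, Nat.mul_add_mod]
              exact Nat.mod_eq_of_lt (hixM k)
            have h3 : (D i * M + ix i) % M = ix i := by
              rw [mul_comm, Nat.mul_add_mod]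
              exact Nat.mod_eq_of_lt (hixM i)
            have h4 : D k * M + ix k = D i * M + ix i := by omega
            rw [← h2, ← h3, h4]
          exact ix.injective (Fin.ext h1)
        rcases (hS i hiS).2 with hirr | ⟨⟨g, hg, hodd, hK⟩, hW, -⟩
        · exact generated_of_irreducible Z _ i hP hirr (hS i hiS).1
        · exact generated_of_prime Z _ i hP hg hodd hK (hS i hiS).1 hW
      · intro e he hrel
        have h0 : e = 0 := by
          funext w
          by_contra h
          exact hex ⟨w.1, he w h⟩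
        rw [h0]
        exact AddSubgroup.zero_mem _

/-- The square root of `-n` in an extension of `ℚ_p`, if it exists over `ℚ_p`. -/
theorem samePlace_split {E : Type} [Field E] {x : E} {n : ℕ} (hx : x ^ 2 = -(n : E))
    {r : ℚ_[p]} (hr : r ^ 2 = -(n : ℚ_[p])) {φ φ' : E →+* ℂ} (h : SamePlace p ν φ φ') :
    φ' x = φ x := by
  obtain ⟨τ, hτ⟩ := h
  rw [hτ]
  have h1 : (ν.symm (φ x)) ^ 2 = (algebraMap ℚ_[p] (PadicAlgCl p) r) ^ 2 := by
    rw [← map_pow, ← map_pow, hx, map_neg, map_neg, map_natCast, map_natCast, ← map_pow, hr,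
      map_neg, map_natCast]
  have h2 : τ (ν.symm (φ x)) = ν.symm (φ x) := by
    rcases sq_eq_sq_iff_eq_or_eq_neg.1 h1 with h3 | h3
    · rw [h3, AlgEquiv.commutes]
    · rw [h3, map_neg, AlgEquiv.commutes]
  rw [h2]
  exact ν.apply_symm_apply _

/-- **There is no Weil relation if the dimension is odd and `p` splits in the imaginary quadratic
subfields.** -/
theorem noWeil_of_split (Z : RedAV p ν) (i : Z.X.I) {g : ℕ} (hodd : g % 2 = 1)
    (hK : finrank ℚ (Z.X.factor i).E = 2 * g)
    (hsplit : ∀ (x : (Z.X.factor i).E) (n : ℕ), 0 < n → x ^ 2 = -(n : (Z.X.factor i).E) →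
      ∃ r : ℚ_[p], r ^ 2 = -(n : ℚ_[p])) : NoWeilRelation Z i := by
  classical
  intro x n hn hx φ0 s hs hrel
  obtain ⟨r, hr⟩ := hsplit x n hn hx
  let A : Finset ((Z.X.factor i).E →+* ℂ) := Finset.univ.filter fun φ => φ x = φ0 x
  have hA : ∀ φ, φ ∈ A ↔ φ x = φ0 x := fun φ => by simp [A]
  have hp0 : (p : PadicAlgCl p) ≠ 0 := Nat.cast_ne_zero.mpr (Fact.out : p.Prime).ne_zero
  -- the logarithms
  let t : ℝ := Real.log ‖(p : PadicAlgCl p) ^ Z.a‖
  let ℓ : ((Z.X.factor i).E →+* ℂ) → ℝ := fun φ => Real.log ‖ν.symm (φ (Z.π i))‖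
  have hνq : ν.symm ((p : ℂ) ^ Z.a) = (p : PadicAlgCl p) ^ Z.a := by
    rw [map_pow, map_natCast]
  have ht : t ≠ 0 := by
    have h1 : ‖(p : PadicAlgCl p)‖ = (p : ℝ)⁻¹ := by
      have h2 := PadicAlgCl.norm_extends (p := p) (p : ℚ_[p])
      rw [Padic.norm_p] at h2
      rw [← h2]
      congr 1
    have hp1 : (1 : ℝ) < p := by exact_mod_cast (Fact.out : p.Prime).one_lt
    have ha := Z.pos
    simp only [t]
    rw [norm_pow, h1, Real.log_pow, Real.log_inv]
    have h3 := Real.log_pos hp1
    have h4 : (0 : ℝ) < Z.a := by exact_mod_cast ha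
    have h5 : (Z.a : ℝ) * Real.log p > 0 := mul_pos h4 h3
    intro h6
    linarith
  -- the relation of defining the same place
  let R : ((Z.X.factor i).E →+* ℂ) → ((Z.X.factor i).E →+* ℂ) → Prop := SamePlace p ν
  have hRrefl : ∀ φ, R φ φ := fun φ => ⟨AlgEquiv.refl, fun y => by
    change φ y = ν (ν.symm (φ y))
    rw [RingEquiv.apply_symm_apply]⟩
  have hRsymm : ∀ φ φ', R φ φ' → R φ' φ := by
    rintro φ φ' ⟨τ, hτ⟩
    refine ⟨τ.symm, fun y => ?_⟩
    rw [hτ, RingEquiv.symm_apply_apply, AlgEquiv.symm_apply_apply, RingEquiv.apply_symm_apply]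
  have hRtrans : ∀ φ φ' φ'', R φ φ' → R φ' φ'' → R φ φ'' := by
    rintro φ φ' φ'' ⟨τ, hτ⟩ ⟨τ', hτ'⟩
    refine ⟨τ.trans τ', fun y => ?_⟩
    rw [hτ', hτ, RingEquiv.symm_apply_apply]
    rfl
  let P : ((Z.X.factor i).E →+* ℂ) → ℕ := fun φ => (Finset.univ.filter fun φ' => R φ φ').card
  have hPpos : ∀ φ, 0 < P φ := fun φ =>
    Finset.card_pos.2 ⟨φ, Finset.mem_filter.2 ⟨Finset.mem_univ _, hRrefl φ⟩⟩
  have hPeq : ∀ φ φ', R φ φ' → P φ = P φ' := by
    intro φ φ' h
    simp only [P]
    congr 1
    ext φ''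
    simp only [Finset.mem_filter, Finset.mem_univ, true_and]
    exact ⟨fun h1 => hRtrans _ _ _ (hRsymm _ _ h) h1, fun h1 => hRtrans _ _ _ h h1⟩
  have hRA : ∀ φ φ', R φ φ' → (φ ∈ A ↔ φ' ∈ A) := by
    intro φ φ' h
    rw [hA, hA, samePlace_split hx hr h]
  let Q : ((Z.X.factor i).E →+* ℂ) → ℕ := fun φ =>
    (Finset.univ.filter fun φ' => R φ φ' ∧ φ' ∈ (Z.X.factor i).Φ).card
  have hST : ∀ φ, (P φ : ℝ) * ℓ φ = (Q φ : ℝ) * t := by
    intro φ
    have h1 := congrArg Real.log ((Z.frob i).shimuraTaniyama φ)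
    rw [Real.log_pow, Real.log_pow] at h1
    have h2 : Nat.card {φ' // SamePlace p ν φ φ'} = P φ := by
      rw [Nat.card_eq_fintype_card, Fintype.card_subtype]
    have h3 : Nat.card {φ' // SamePlace p ν φ φ' ∧ φ' ∈ (Z.X.factor i).Φ} = Q φ := by
      rw [Nat.card_eq_fintype_card, Fintype.card_subtype]
    rw [h2, h3] at h1
    exact h1
  -- the sum over the half
  let B : Finset ((Z.X.factor i).E →+* ℂ) := A.filter fun φ => φ ∈ (Z.X.factor i).Φ
  have hsum : ∑ φ ∈ A, ℓ φ = (B.card : ℝ) * t := by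
    have h1 : ∀ φ ∈ A, ℓ φ = ∑ φ' : (Z.X.factor i).E →+* ℂ,
        (if R φ φ' ∧ φ' ∈ (Z.X.factor i).Φ then t / (P φ' : ℝ) else 0) := by
      intro φ _
      have hP0 : (P φ : ℝ) ≠ 0 := by exact_mod_cast (hPpos φ).ne'
      have h2 : ∀ φ' : (Z.X.factor i).E →+* ℂ,
          (if R φ φ' ∧ φ' ∈ (Z.X.factor i).Φ then t / (P φ' : ℝ) else 0) =
          (if R φ φ' ∧ φ' ∈ (Z.X.factor i).Φ then t / (P φ : ℝ) else 0) := by
        intro φ'
        by_cases h3 : R φ φ' ∧ φ' ∈ (Z.X.factor i).Φ
        · rw [if_pos h3, if_pos h3, hPeq φ φ' h3.1]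
        · rw [if_neg h3, if_neg h3]
      rw [Finset.sum_congr rfl fun φ' _ => h2 φ', ← Finset.sum_filter, Finset.sum_const,
        nsmul_eq_mul]
      have h3 := hST φ
      change _ = (Q φ : ℝ) * _
      field_simp
      linarith
    rw [Finset.sum_congr rfl h1, Finset.sum_comm]
    have h2 : ∀ φ' : (Z.X.factor i).E →+* ℂ,
        ∑ φ ∈ A, (if R φ φ' ∧ φ' ∈ (Z.X.factor i).Φ then t / (P φ' : ℝ) else 0) =
        if φ' ∈ B then t else 0 := by
      intro φ'
      by_cases h3 : φ' ∈ B
      · rw [if_pos h3]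
        obtain ⟨h4, h5⟩ := Finset.mem_filter.1 h3
        rw [← Finset.sum_filter, Finset.sum_const, nsmul_eq_mul]
        have h6 : (A.filter fun φ => R φ φ' ∧ φ' ∈ (Z.X.factor i).Φ).card = P φ' := by
          simp only [P]
          congr 1
          ext φ
          simp only [Finset.mem_filter, Finset.mem_univ, true_and]
          constructor
          · rintro ⟨-, h7, -⟩
            exact hRsymm _ _ h7
          · intro h7
            exact ⟨(hRA _ _ h7).1 h4, hRsymm _ _ h7, h5⟩
        rw [h6]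
        have hP0 : (P φ' : ℝ) ≠ 0 := by exact_mod_cast (hPpos φ').ne'
        field_simp
      · rw [if_neg h3]
        refine Finset.sum_eq_zero fun φ hφ => ?_
        rw [if_neg]
        rintro ⟨h4, h5⟩
        exact h3 (Finset.mem_filter.2 ⟨(hRA _ _ h4).1 hφ, h5⟩)
    rw [Finset.sum_congr rfl fun φ' _ => h2 φ', ← Finset.sum_filter, Finset.sum_const,
      nsmul_eq_mul]
    congr 2
    simp
  -- the relation
  have hv : ∀ φ : (Z.X.factor i).E →+* ℂ, φ (Z.π i) ≠ 0 := fun φ => eig_ne_zero Z ⟨i, φ⟩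
  have h1 := congrArg (fun z => Real.log ‖ν.symm z‖) hrel
  beta_reduce at h1
  rw [map_pow ν.symm, map_pow ν.symm, hνq, norm_pow, norm_pow (((p : PadicAlgCl p) ^ Z.a)),
    Real.log_pow, Real.log_pow, map_prod, norm_prod, Real.log_prod (fun φ _ =>
      norm_ne_zero_iff.2 ((_root_.map_ne_zero ν.symm).2 (hv φ)))] at h1
  change ((4 * s : ℕ) : ℝ) * ∑ φ ∈ A, ℓ φ = ((s * finrank ℚ (Z.X.factor i).E : ℕ) : ℝ) * t at h1
  rw [hsum, hK] at h1
  push_cast at h1
  have hs0 : (s : ℝ) ≠ 0 := by exact_mod_cast hs.ne'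
  have h2 : (2 * (B.card : ℝ) - g) * (2 * s * t) = 0 := by linear_combination h1
  have h3 : (2 * (B.card : ℝ) - g) = 0 := by
    rcases mul_eq_zero.1 h2 with h4 | h4
    · exact h4
    · exact absurd h4 (mul_ne_zero (mul_ne_zero two_ne_zero hs0) ht)
  have h4 : 2 * B.card = g := by
    have h5 : (2 * (B.card : ℝ)) = g := by linarith
    exact_mod_cast h5
  omega

end Pool.Agent.Q306.TP
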